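import Pool.Agent.H71.Esc.Model

/-!
# The process on a forest
-/

set_option autoImplicit false

open scoped ENNReal

namespace Pool.Agent.H71.Esc

/-- If every vertex with resource has a unique neighbour with the most resource, the process is
deterministic, whatever the tie-breaking. -/
theorem forest_dynamics {d : ℕ} (W : ℕ → Cfg d) (par : Pt d → Pt d) (V : Set (Pt d))
    (h0 : ∀ n, ∀ x, x ∉ V → W n x = 0)
    (hp : ∀ x ∈ V, par x ∈ V ∧ par x ∈ nbhd x)
    (hadj : ∀ x ∈ V, ∀ y ∈ V, y ∈ nbhd x → y ≠ x → y = par x ∨ x = par y)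
    (hmono : ∀ n, ∀ x ∈ V, W n x ≠ 0 → W n x < W n (par x))
    (hstep : ∀ n x, W (n + 1) x = ∑' y, Set.indicator {y | y ∈ V ∧ par y = x} (W n) y)
    (ξ : Ties d) : ∀ n, proc (W 0) ξ n = W n := by
  classical
  intro n
  induction n with
  | zero => rfl
  | succ n ih =>
    have hbest : ∀ x, W n x ≠ 0 → ∀ y ∈ best (W n) x, y = par x := by
      intro x hx y hy
      have hxV : x ∈ V := by
        by_contra h
        exact hx (h0 n x h)
      obtain ⟨hpV, hpn⟩ := hp x hxV
      unfold best at hy
      rw [Finset.mem_filter] at hy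
      have h1 : W n (par x) ≤ W n y := hy.2 _ hpn
      have h2 := hmono n x hxV hx
      have hy0 : W n y ≠ 0 := by
        intro h
        rw [h] at h1
        exact absurd (lt_of_lt_of_le h2 h1) not_lt_zero
      have hyV : y ∈ V := by
        by_contra h
        exact hy0 (h0 n y h)
      by_cases hyx : y = x
      · subst hyx
        exact absurd (lt_of_lt_of_le h2 h1) (lt_irrefl _)
      · rcases hadj x hxV y hyV hy.1 hyx with h | h
        · exact h
        · exfalso
          have h3 := hmono n y hyV hy0
          rw [← h] at h3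
          exact absurd (h3.trans h2) (not_lt.2 h1)
    show step (proc (W 0) ξ n) (fun x => (ξ (n, x, ⟨best (proc (W 0) ξ n) x,
      best_nonempty (proc (W 0) ξ n) x⟩)).1) = W (n + 1)
    generalize proc (W 0) ξ n = C' at ih
    subst ih
    funext x
    rw [hstep n x]
    unfold step
    refine tsum_congr fun y => ?_
    by_cases hy : W n y = 0
    · rw [if_pos hy]
      by_cases hyx : y = x
      · rw [if_pos hyx, hy]
        symm
        by_cases hm : y ∈ {y | y ∈ V ∧ par y = x}
        · rw [Set.indicator_of_mem hm, hy]
        · rw [Set.indicator_of_notMem hm]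
      · rw [if_neg hyx]
        symm
        by_cases hm : y ∈ {y | y ∈ V ∧ par y = x}
        · rw [Set.indicator_of_mem hm, hy]
        · rw [Set.indicator_of_notMem hm]
    · rw [if_neg hy]
      have hyV : y ∈ V := by
        by_contra h
        exact hy (h0 n y h)
      have hv : ∀ (q : {M : Finset (Pt d) // M.Nonempty}), q.1 = best (W n) y →
          ((ξ (n, y, q)).1 : Pt d) = par y := by
        intro q hq
        apply hbest y hy
        rw [← hq]
        exact (ξ (n, y, q)).2
      have hvy := hv ⟨best (W n) y, best_nonempty (W n) y⟩ rfl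
      show (if ((ξ (n, y, ⟨best (W n) y, best_nonempty (W n) y⟩)).1 : Pt d) = x then W n y else 0) = _
      rw [hvy]
      by_cases hpx : par y = x
      · rw [if_pos hpx, Set.indicator_of_mem (show y ∈ {y | y ∈ V ∧ par y = x} from ⟨hyV, hpx⟩)]
      · rw [if_neg hpx, Set.indicator_of_notMem]
        exact fun h => hpx h.2

end Pool.Agent.H71.Esc
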