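import Pool.Agent.H71.Esc.Geo5
import Pool.Agent.H71.Esc.Forest

/-!
# The process on the hierarchical forest
-/

set_option autoImplicit false

open scoped ENNReal

namespace Pool.Agent.H71.Esc

lemma uv_nbhd {d : ℕ} (x : Pt d) (c : Fin d) : x + uv c ∈ nbhd x ∧ x - uv c ∈ nbhd x := by
  classical
  have h1 : ∑ i, |(uv c : Pt d) i| = 1 := by
    unfold uv
    rw [Finset.sum_eq_single c]
    · simp
    · intro i _ hi
      rw [Pi.single_eq_of_ne hi]
      simp
    · intro h
      exact absurd (Finset.mem_univ c) h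
  constructor
  · rw [mem_nbhd]
    have : ∑ i, |x i - (x + uv c) i| = ∑ i, |(uv c : Pt d) i| := by
      refine Finset.sum_congr rfl fun i _ => ?_
      rw [Pi.add_apply, sub_add_cancel_left, abs_neg]
    rw [this, h1]
  · rw [mem_nbhd]
    have : ∑ i, |x i - (x - uv c) i| = ∑ i, |(uv c : Pt d) i| := by
      refine Finset.sum_congr rfl fun i _ => ?_
      rw [Pi.sub_apply, sub_sub_cancel]
    rw [this, h1]

lemma nbhd_cases {d : ℕ} {x y : Pt d} (h : y ∈ nbhd x) (hne : y ≠ x) :
    ∃ c, y = x + uv c ∨ x = y + uv c := by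
  classical
  rw [mem_nbhd] at h
  obtain ⟨c, hc⟩ : ∃ c, y c ≠ x c := by
    by_contra h1
    push Not at h1
    exact hne (funext h1)
  have h2 : ∑ i ∈ Finset.univ.erase c, |x i - y i| + |x c - y c| = ∑ i, |x i - y i| :=
    Finset.sum_erase_add _ _ (Finset.mem_univ c)
  have h3 : 0 ≤ ∑ i ∈ Finset.univ.erase c, |x i - y i| :=
    Finset.sum_nonneg fun _ _ => abs_nonneg _
  have h4 : 1 ≤ |x c - y c| := Int.one_le_abs (sub_ne_zero.2 (Ne.symm hc))
  have h5 : |x c - y c| = 1 := by omega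
  have h6 : ∑ i ∈ Finset.univ.erase c, |x i - y i| = 0 := by omega
  have h7 : ∀ i, i ≠ c → x i = y i := by
    intro i hi
    have := (Finset.sum_eq_zero_iff_of_nonneg fun i _ => abs_nonneg (x i - y i)).1 h6 i
      (Finset.mem_erase.2 ⟨hi, Finset.mem_univ i⟩)
    exact sub_eq_zero.1 (abs_eq_zero.1 this)
  refine ⟨c, ?_⟩
  rcases abs_eq (zero_le_one' ℤ) |>.1 h5 with h8 | h8
  · right
    funext i
    by_cases hi : i = c
    · subst hi
      rw [Pi.add_apply]
      unfold uv
      rw [Pi.single_eq_same]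
      omega
    · rw [Pi.add_apply, h7 i hi]
      unfold uv
      rw [Pi.single_eq_of_ne hi, add_zero]
  · left
    funext i
    by_cases hi : i = c
    · subst hi
      rw [Pi.add_apply]
      unfold uv
      rw [Pi.single_eq_same]
      omega
    · rw [Pi.add_apply, h7 i hi]
      unfold uv
      rw [Pi.single_eq_of_ne hi, add_zero]

lemma uv_ne_zero {d : ℕ} (c : Fin d) : (uv c : Pt d) ≠ 0 := by
  intro h
  have := congrFun h c
  unfold uv at this
  rw [Pi.single_eq_same] at this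
  exact one_ne_zero this

lemma NN_pos {b H : ℕ → ℕ} (P : Par b H) (i : ℕ) : 1 ≤ NN b i := by
  unfold NN
  have h1 := P.bbig i
  have h2 := P.bbig (i + 1)
  have h3 := P.b16 i
  have h4 : b (i + 1 + 1) = b (i + 2) := rfl
  omega

lemma LL_pos {b H : ℕ → ℕ} (P : Par b H) (i : ℕ) : 1 ≤ LL b H i := by
  unfold LL
  have := (P.pp i).hw
  omega

namespace Crd

variable {d : ℕ} {b H : ℕ → ℕ} (C : Crd d b H)

/-- the vertices of the forest -/
def V : Set (Pt d) := {x | ∃ κ v, C.Node x κ v}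

open Classical in
/-- the type of a vertex -/
noncomputable def kf (x : Pt d) : Ty := if h : ∃ κ v, C.Node x κ v then h.choose else Ty.path 0 0

open Classical in
/-- the vector to the parent -/
noncomputable def vf (x : Pt d) : Pt d :=
  if h : ∃ κ v, C.Node x κ v then h.choose_spec.choose else 0

lemma node_kf {x : Pt d} (h : x ∈ C.V) : C.Node x (C.kf x) (C.vf x) := by
  have h' : ∃ κ v, C.Node x κ v := h
  unfold kf vf
  rw [dif_pos h', dif_pos h']
  exact h'.choose_spec.choose_spec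

/-- the amount of resource at time `n` -/
noncomputable def W (n : ℕ) : Cfg d :=
  C.V.indicator fun x => ENNReal.ofReal (wt (NN b) (LL b H) (C.kf x) n)

variable (P : Par b H)

include P

lemma kf_eq {x : Pt d} {κ : Ty} {v : Pt d} (h : C.Node x κ v) : C.kf x = κ ∧ C.vf x = v :=
  C.node_unique P (C.node_kf ⟨κ, v, h⟩) h

lemma W_eq {x : Pt d} {κ : Ty} {v : Pt d} (h : C.Node x κ v) (n : ℕ) :
    C.W n x = ENNReal.ofReal (wt (NN b) (LL b H) κ n) := by
  unfold W
  rw [Set.indicator_of_mem (show x ∈ C.V from ⟨κ, v, h⟩), (C.kf_eq P h).1]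

omit P in
lemma vec_form {x : Pt d} {κ : Ty} {v : Pt d} (h : C.Node x κ v) :
    ∃ c, v = uv c ∨ v = - uv c := by
  have hov : ∀ (c : Fin d) (s : ℕ), ov c s = uv c ∨ ov c s = - uv c := by
    intro c s
    unfold ov
    split_ifs
    · exact Or.inl rfl
    · exact Or.inr rfl
  have hov' : ∀ (c : Fin d) (s : ℕ), - ov c s = uv c ∨ - ov c s = - uv c := by
    intro c s
    rcases hov c s with h | h
    · exact Or.inr (by rw [h])
    · exact Or.inl (by rw [h, neg_neg])
  rcases h with ⟨_, ⟨i, D, rfl, h1, rfl⟩ | ⟨i, t, rfl, h1, rfl⟩⟩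
  · cases pd (b i) (H i) (C.a i x) (C.S (i + 1) x) (C.Q (i + 1) x) (C.z (i + 1) x)
    · exact ⟨C.ax i, Or.inl rfl⟩
    · exact ⟨C.ax i, Or.inr rfl⟩
    · exact ⟨C.ax (i + 1), hov _ _⟩
    · exact ⟨C.ax (i + 1), hov' _ _⟩
    · exact ⟨C.az, Or.inl rfl⟩
    · exact ⟨C.az, Or.inr rfl⟩
  · exact ⟨C.ax i, hov' _ _⟩

lemma par_spec {x : Pt d} (h : x ∈ C.V) : x + C.vf x ∈ C.V ∧
    C.kf x ∈ kids (NN b) (LL b H) (C.kf (x + C.vf x)) := by
  obtain ⟨κ', v', h1, h2⟩ := C.exists_parent P (C.node_kf h)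
  refine ⟨⟨κ', v', h1⟩, ?_⟩
  rw [(C.kf_eq P h1).1]
  exact h2

lemma not_two_cycle {x y : Pt d} (hx : x ∈ C.V) (hy : y ∈ C.V) (h1 : y = x + C.vf x)
    (h2 : x = y + C.vf y) : False := by
  have hN := NN_pos P
  have hL := LL_pos P
  have k1 := (C.par_spec P hx).2
  have k2 := (C.par_spec P hy).2
  rw [← h1] at k1
  rw [← h2] at k2
  have vx := C.node_valid P (C.node_kf hx)
  have vy := C.node_valid P (C.node_kf hy)
  have e1 := wt_mono _ _ hN hL _ _ vy k1 0 (wt_zero_pos _ _ hN hL _ vx)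
  have e2 := wt_mono _ _ hN hL _ _ vx k2 0 (wt_zero_pos _ _ hN hL _ vy)
  exact absurd e1 (not_lt.2 e2.le)

/-- Neighbouring vertices, both orders. -/
lemma adj_both {x y : Pt d} (hx : x ∈ C.V) (hy : y ∈ C.V) {c : Fin d}
    (h : y = x + uv c ∨ x = y + uv c) :
    (y = x + C.vf x) ∨ (x = y + C.vf y ∧ y = x + C.cvec x (C.kf x) (C.kf y)) := by
  rcases h with rfl | rfl
  · rcases C.adj P (C.node_kf hx) (C.node_kf hy) with ⟨h1, h2⟩ | ⟨h1, h2⟩
    · left
      rw [h1]
    · right
      rw [h1, h2]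
      exact ⟨by rw [add_neg_cancel_right], rfl⟩
  · rcases C.adj P (C.node_kf hy) (C.node_kf hx) with ⟨h1, h2⟩ | ⟨h1, h2⟩
    · right
      rw [h1, h2]
      exact ⟨rfl, by rw [add_neg_cancel_right]⟩
    · left
      rw [h1]
      rw [add_neg_cancel_right]

lemma child_iff {x : Pt d} (hx : x ∈ C.V) (y : Pt d) :
    (y ∈ C.V ∧ y + C.vf y = x) ↔
      ∃ κ' ∈ kids (NN b) (LL b H) (C.kf x), y = x + C.cvec x (C.kf x) κ' := by
  constructor
  · rintro ⟨hy, h1⟩
    have hk := (C.par_spec P hy).2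
    rw [h1] at hk
    refine ⟨C.kf y, hk, ?_⟩
    obtain ⟨c, hc⟩ := C.vec_form (C.node_kf hy)
    have h2 : y = x + uv c ∨ x = y + uv c := by
      rcases hc with hc | hc
      · right
        rw [← h1, hc]
      · left
        rw [← h1, hc, neg_add_cancel_right]
    rcases C.adj_both P hx hy h2 with h3 | h3
    · exact (C.not_two_cycle P hx hy h3 h1.symm).elim
    · exact h3.2
  · rintro ⟨κ', hk, rfl⟩
    have h1 := C.exists_child P (C.node_kf hx) hk
    refine ⟨⟨_, _, h1⟩, ?_⟩
    rw [(C.kf_eq P h1).2, add_neg_cancel_right]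

theorem dynamics (ξ : Ties d) (n : ℕ) : proc (C.W 0) ξ n = C.W n := by
  classical
  have hN := NN_pos P
  have hL := LL_pos P
  refine forest_dynamics C.W (fun x => x + C.vf x) C.V ?_ ?_ ?_ ?_ ?_ ξ n
  · intro n x hx
    exact Set.indicator_of_notMem hx _
  · intro x hx
    refine ⟨(C.par_spec P hx).1, ?_⟩
    obtain ⟨c, hc⟩ := C.vec_form (C.node_kf hx)
    have hu := uv_nbhd x c
    rcases hc with hc | hc
    · rw [hc]
      exact hu.1
    · rw [hc, ← sub_eq_add_neg]
      exact hu.2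
  · intro x hx y hy hyx hne
    obtain ⟨c, hc⟩ := nbhd_cases hyx hne
    rcases C.adj_both P hx hy hc with h | h
    · exact Or.inl h
    · exact Or.inr h.1
  · intro n x hx hW
    obtain ⟨hp, hk⟩ := C.par_spec P hx
    have h1 := C.W_eq P (C.node_kf hx) n
    have h2 := C.W_eq P (C.node_kf hp) n
    rw [h1] at hW ⊢
    rw [h2]
    have hpos : 0 < wt (NN b) (LL b H) (C.kf x) n := by
      by_contra h3
      exact hW (ENNReal.ofReal_eq_zero.2 (not_lt.1 h3))
    have h4 := wt_mono _ _ hN hL _ _ (C.node_valid P (C.node_kf hp)) hk n hpos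
    exact (ENNReal.ofReal_lt_ofReal_iff (hpos.trans h4)).2 h4
  · intro n x
    by_cases hx : x ∈ C.V
    · have hval := C.node_valid P (C.node_kf hx)
      rw [C.W_eq P (C.node_kf hx), wt_step _ _ hN hL _ hval]
      have hnode := C.node_kf hx
      have hsub : ∀ y, y ∉ (kids (NN b) (LL b H) (C.kf x)).image
          (fun κ' => x + C.cvec x (C.kf x) κ') →
          Set.indicator {y | y ∈ C.V ∧ y + C.vf y = x} (C.W n) y = 0 := by
        intro y hy
        apply Set.indicator_of_notMem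
        intro h1
        apply hy
        obtain ⟨κ', hk, h2⟩ := (C.child_iff P hx y).1 h1
        exact Finset.mem_image.2 ⟨κ', hk, h2.symm⟩
      rw [tsum_eq_sum (fun y hy => hsub y hy), Finset.sum_image]
      · rw [ENNReal.ofReal_sum_of_nonneg]
        · refine Finset.sum_congr rfl fun κ' hk => ?_
          have h1 := C.exists_child P hnode hk
          have hmem : x + C.cvec x (C.kf x) κ' ∈ {y | y ∈ C.V ∧ y + C.vf y = x} :=
            (C.child_iff P hx _).2 ⟨κ', hk, rfl⟩
          rw [Set.indicator_of_mem hmem, C.W_eq P h1]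
        · intro κ' hk
          exact wt_nonneg _ _ hN hL _ (C.node_valid P (C.exists_child P hnode hk)) n
      · intro κ₁ h1 κ₂ h2 heq
        have e1 := C.exists_child P hnode h1
        have e2 := C.exists_child P hnode h2
        have heq' : x + C.cvec x (C.kf x) κ₁ = x + C.cvec x (C.kf x) κ₂ := heq
        rw [heq'] at e1
        exact (C.node_unique P e1 e2).1
    · have h1 : C.W (n + 1) x = 0 := Set.indicator_of_notMem hx _
      rw [h1]
      symm
      rw [ENNReal.tsum_eq_zero]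
      intro y
      apply Set.indicator_of_notMem
      rintro ⟨hy, h2⟩
      apply hx
      rw [← h2]
      exact (C.par_spec P hy).1

theorem W_eventually (x : Pt d) : ∃ n₀, ∀ n, n₀ ≤ n → C.W n x = 0 := by
  by_cases hx : x ∈ C.V
  · obtain ⟨n₀, h⟩ := wt_eventually _ _ (NN_pos P) (LL_pos P) _ (C.node_valid P (C.node_kf hx))
    refine ⟨n₀, fun n hn => ?_⟩
    rw [C.W_eq P (C.node_kf hx), h n hn, ENNReal.ofReal_zero]
  · exact ⟨0, fun n _ => Set.indicator_of_notMem hx _⟩

end Crd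

end Pool.Agent.H71.Esc
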