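import Pool.Agent.H71.Esc.Padic
import Pool.Agent.H71.Esc.Geo6

/-!
# Bounds for the weights
-/

set_option autoImplicit false

open Finset

namespace Pool.Agent.H71.Esc

section

variable (N ell : ℕ → ℕ) (hN : ∀ i, 1 ≤ N i) (hℓ : ∀ i, 1 ≤ ell i)

include hN hℓ

lemma phi_le (i D : ℕ) (hD : 1 ≤ D) : Phi N ell i D ≤ Phi N ell i 1 := by
  have h := (Phi_good N ell hN hℓ i).anti (Nat.zero_le (D - 1))
  simp only [show D - 1 + 1 = D by omega] at h
  exact h

lemma sum_le (i : ℕ) (s : Finset ℕ) :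
    ∑ m ∈ s, Phi N ell i (m + 1) ≤ Esup N ell i * Phi N ell i 1 := by
  have h := Phi_good N ell hN hℓ i
  calc ∑ m ∈ s, Phi N ell i (m + 1)
      = ∑ m ∈ s.filter (fun m => m < Esup N ell i), Phi N ell i (m + 1) := by
        rw [sum_filter]
        refine sum_congr rfl fun m _ => ?_
        split_ifs with h1
        · rfl
        · exact h.supp m (not_lt.1 h1)
    _ ≤ ∑ m ∈ range (Esup N ell i), Phi N ell i (m + 1) := by
        refine sum_le_sum_of_subset_of_nonneg ?_ (fun m _ _ => h.nonneg m)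
        intro m hm
        exact mem_range.2 (mem_filter.1 hm).2
    _ ≤ ∑ _m ∈ range (Esup N ell i), Phi N ell i 1 :=
        sum_le_sum fun m _ => phi_le N ell hN hℓ i (m + 1) (by omega)
    _ = Esup N ell i * Phi N ell i 1 := by
        rw [sum_const, card_range, nsmul_eq_mul]

lemma cw_le (i t : ℕ) (ht : t ≤ N i) :
    cw (N i) (fun n => Phi N ell i (n + 1)) t ≤ (3 + Esup N ell i) * Phi N ell i 1 := by
  unfold cw
  have h := Phi_good N ell hN hℓ i
  have h1 := sum_le N ell hN hℓ i (Ico (N i - t) (N i))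
  have h2 : 0 < Phi N ell i 1 := h.pos
  have h3 : ((t : ℝ) / (N i)) ≤ 1 := by
    apply div_le_one_of_le₀
    · exact_mod_cast ht
    · positivity
  have h4 : Phi N ell i (0 + 1) * ((t : ℝ) / (N i)) ≤ Phi N ell i 1 * 1 :=
    mul_le_mul_of_nonneg_left h3 h2.le
  simp only [zero_add] at h4 ⊢
  linarith

lemma cw_le' (i t : ℕ) (ht : t ≤ N i) (htE : Esup N ell i ≤ N i - t) :
    cw (N i) (fun n => Phi N ell i (n + 1)) t ≤ 3 * Phi N ell i 1 := by
  unfold cw
  have h := Phi_good N ell hN hℓ i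
  have h1 : ∑ m ∈ Ico (N i - t) (N i), Phi N ell i (m + 1) = 0 := by
    refine sum_eq_zero fun m hm => ?_
    rw [mem_Ico] at hm
    exact h.supp m (by omega)
  have h2 : 0 < Phi N ell i 1 := h.pos
  have h3 : ((t : ℝ) / (N i)) ≤ 1 := by
    apply div_le_one_of_le₀
    · exact_mod_cast ht
    · positivity
  have h4 : Phi N ell i (0 + 1) * ((t : ℝ) / (N i)) ≤ Phi N ell i 1 * 1 :=
    mul_le_mul_of_nonneg_left h3 h2.le
  simp only [zero_add] at h4 h1 ⊢
  linarith

omit hN hℓ in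
lemma wt_trunk (i t : ℕ) (ht : 1 ≤ t) :
    wt N ell (Ty.trunk i t) 0 = cw (N i) (fun n => Phi N ell i (n + 1)) t := by
  simp only [wt]
  unfold tw
  rw [if_pos (by omega)]
  simp

lemma phi_succ_le (i : ℕ) :
    Phi N ell (i + 1) 1 ≤ 2 * ((3 + Esup N ell i) * Phi N ell i 1) := by
  have h1 := cw_le N ell hN hℓ i (N i) le_rfl
  have h2 := cw_pos (Phi_good N ell hN hℓ i) (N i) (N i)
  have h3 : (0 : ℝ) < ell (i + 1) := by exact_mod_cast hℓ (i + 1)
  have h4 : Phi N ell (i + 1) 1 = cw (N i) (fun n => Phi N ell i (n + 1)) (N i) * 2 := by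
    simp only [Phi]
    unfold nextPhi
    rw [if_pos (hℓ (i + 1)), Nat.add_sub_cancel, div_self h3.ne']
    norm_num
  rw [h4]
  linarith

end

lemma phi_zero (N ell : ℕ → ℕ) (hℓ : 1 ≤ ell 0) : Phi N ell 0 1 = 2 := by
  have h3 : (0 : ℝ) < ell 0 := by exact_mod_cast hℓ
  simp only [Phi]
  rw [if_pos hℓ, Nat.add_sub_cancel, div_self h3.ne']
  norm_num

lemma bb_succ (n : ℕ) : bb (n + 1) = bb n ^ 4 := by
  unfold bb
  rw [← pow_mul, ee_succ, mul_comm]

lemma eta_le (n : ℕ) : eta n ≤ ee n := by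
  induction n with
  | zero =>
    have := ee_ge 0
    show 3 ≤ ee 0
    omega
  | succ n ih =>
    have h1 := ee_succ n
    show ee n + eta n ≤ ee (n + 1)
    omega

lemma HH_le (n : ℕ) : HH n ≤ bb n := by
  unfold HH bb
  exact Nat.pow_le_pow_right (by norm_num) (eta_le n)

/-- the bound for the ends of the profiles -/
lemma Esup_le (i : ℕ) : Esup (NN bb) (LL bb HH) i ≤ 2 * bb (i + 1) := by
  have P := parBH
  induction i with
  | zero =>
    show LL bb HH 0 ≤ 2 * bb (0 + 1)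
    unfold LL
    have h1 := HH_le 0
    have h2 := P.b16 0
    have h3 : bb (0 + 1) = bb 0 ^ 4 := bb_succ 0
    have h4 : ww bb 0 = 7 := rfl
    have h5 : bb 0 * (HH 0 + 1) ≤ bb 0 * (bb 0 + 1) := Nat.mul_le_mul_left _ (by omega)
    have h6 : bb 0 * (bb 0 + 1) + 6 ≤ 2 * bb 0 ^ 4 := by
      have h7 : bb 0 ^ 4 = bb 0 ^ 2 * bb 0 ^ 2 := by ring
      have h8 : 16 * 16 ≤ bb 0 ^ 2 := by
        rw [pow_two]
        exact Nat.mul_le_mul h2 h2
      have h9 : 256 * bb 0 ^ 2 ≤ bb 0 ^ 2 * bb 0 ^ 2 := Nat.mul_le_mul_right _ h8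
      have h10 : bb 0 ≤ bb 0 ^ 2 := by
        rw [pow_two]
        exact Nat.le_mul_of_pos_right _ (by omega)
      have h11 : bb 0 * (bb 0 + 1) = bb 0 ^ 2 + bb 0 := by ring
      omega
    omega
  | succ i ih =>
    show LL bb HH (i + 1) + NN bb i + Esup (NN bb) (LL bb HH) i ≤ 2 * bb (i + 1 + 1)
    have e1 : LL bb HH (i + 1) = bb (i + 1) * (HH (i + 1) + 1) + ww bb (i + 1) - 1 := rfl
    have e2 : NN bb i = bb (i + 2) - 4 * bb i := rfl
    have h1 := HH_le (i + 1)
    have h2 := P.b16 (i + 1)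
    have h3 : bb (i + 1 + 1) = bb (i + 1) ^ 4 := bb_succ (i + 1)
    have h4 : ww bb (i + 1) = 2 * bb i := rfl
    have h0 := P.b16 i
    have h5 : bb (i + 1) * (HH (i + 1) + 1) ≤ bb (i + 1) * (bb (i + 1) + 1) :=
      Nat.mul_le_mul_left _ (by omega)
    have h6 : bb (i + 1) * (bb (i + 1) + 1) + 2 * bb (i + 1) ≤ bb (i + 1) ^ 4 := by
      have h7 : bb (i + 1) ^ 4 = bb (i + 1) ^ 2 * bb (i + 1) ^ 2 := by ring
      have h8 : 16 * 16 ≤ bb (i + 1) ^ 2 := by
        rw [pow_two]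
        exact Nat.mul_le_mul h2 h2
      have h9 : 256 * bb (i + 1) ^ 2 ≤ bb (i + 1) ^ 2 * bb (i + 1) ^ 2 :=
        Nat.mul_le_mul_right _ h8
      have h10 : bb (i + 1) ≤ bb (i + 1) ^ 2 := by
        rw [pow_two]
        exact Nat.le_mul_of_pos_right _ (by omega)
      have h11 : bb (i + 1) * (bb (i + 1) + 1) = bb (i + 1) ^ 2 + bb (i + 1) := by ring
      omega
    have h12 : bb (i + 2) = bb (i + 1 + 1) := rfl
    have h13 := P.bbig i
    have h14 := P.bbig (i + 1)
    omega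

lemma bb_real (n : ℕ) : (16 : ℝ) ≤ bb n := by
  exact_mod_cast parBH.b16 n

lemma bb_succ_real (n : ℕ) : (bb (n + 1) : ℝ) = (bb n : ℝ) ^ 4 := by
  rw [bb_succ]
  push_cast
  rfl

/-- the bound for the largest weights on the paths -/
lemma phi_bound (i : ℕ) : Phi (NN bb) (LL bb HH) i 1 ≤ (bb i : ℝ) ^ 2 := by
  have P := parBH
  have hN := NN_pos P
  have hL := LL_pos P
  induction i with
  | zero =>
    rw [phi_zero _ _ (hL 0)]
    have := bb_real 0
    nlinarith
  | succ i ih =>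
    have h1 := phi_succ_le (NN bb) (LL bb HH) hN hL i
    have h2 : (Esup (NN bb) (LL bb HH) i : ℝ) ≤ 2 * bb (i + 1) := by
      exact_mod_cast Esup_le i
    have h3 := bb_real i
    have h4 := bb_real (i + 1)
    have h5 := bb_succ_real i
    have hpos : 0 < Phi (NN bb) (LL bb HH) i 1 := (Phi_good _ _ hN hL i).pos
    have h6 : 2 * ((3 + (Esup (NN bb) (LL bb HH) i : ℝ)) * Phi (NN bb) (LL bb HH) i 1) ≤
        2 * ((4 * bb (i + 1)) * (bb i : ℝ) ^ 2) := by
      have h7 : 3 + (Esup (NN bb) (LL bb HH) i : ℝ) ≤ 4 * bb (i + 1) := by linarith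
      have h8 := mul_le_mul h7 ih hpos.le (by linarith)
      linarith
    refine h1.trans (h6.trans ?_)
    have h9 : 8 * (bb i : ℝ) ^ 2 ≤ bb (i + 1) := by
      rw [h5]
      have : (bb i : ℝ) ^ 4 = (bb i : ℝ) ^ 2 * (bb i : ℝ) ^ 2 := by ring
      rw [this]
      refine mul_le_mul_of_nonneg_right ?_ (by positivity)
      nlinarith
    have h10 : 2 * ((4 * (bb (i + 1) : ℝ)) * (bb i : ℝ) ^ 2) =
        (bb (i + 1) : ℝ) * (8 * (bb i : ℝ) ^ 2) := by ring
    rw [h10, pow_two (bb (i + 1) : ℝ)]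
    exact mul_le_mul_of_nonneg_left h9 (by positivity)

/-- the majorant of the weights with `Q ≤ 5` -/
noncomputable def F1 (i : ℕ) : ℝ := 3 * (bb i : ℝ) ^ 2

/-- the majorant of the weights near the root -/
noncomputable def F2 (i : ℕ) : ℝ := 8 * bb (i + 1) * (bb i : ℝ) ^ 2

/-- The weight of a vertex is bounded in terms of its position. -/
theorem weight_cases {d : ℕ} (C : Crd d bb HH) {x : Pt d} {κ : Ty} {v : Pt d}
    (h : C.Node x κ v) :
    wt (NN bb) (LL bb HH) κ 0 ≤ 2 ∨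
    (∃ i, C.Q (i + 1) x ≤ 5 ∧ wt (NN bb) (LL bb HH) κ 0 ≤ F1 i) ∨
    (∃ i, C.Q (i + 2) x < 4 * bb (i + 1) ∧ wt (NN bb) (LL bb HH) κ 0 ≤ F2 i) := by
  have P := parBH
  have hN := NN_pos P
  have hL := LL_pos P
  have hval := C.node_valid P h
  have hb := bb_real
  have key : ∀ i, (3 + (Esup (NN bb) (LL bb HH) i : ℝ)) * Phi (NN bb) (LL bb HH) i 1 ≤
      4 * bb (i + 1) * (bb i : ℝ) ^ 2 := by
    intro i
    have h2 : (Esup (NN bb) (LL bb HH) i : ℝ) ≤ 2 * bb (i + 1) := by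
      exact_mod_cast Esup_le i
    have h4 := hb (i + 1)
    have hpos : 0 < Phi (NN bb) (LL bb HH) i 1 := (Phi_good _ _ hN hL i).pos
    have h7 : 3 + (Esup (NN bb) (LL bb HH) i : ℝ) ≤ 4 * bb (i + 1) := by linarith
    exact mul_le_mul h7 (phi_bound i) hpos.le (by linarith)
  rcases h with ⟨_, ⟨i, D, rfl, h1, rfl⟩ | ⟨i, t, rfl, h1, rfl⟩⟩
  · have hw : wt (NN bb) (LL bb HH) (Ty.path i D) 0 ≤ Phi (NN bb) (LL bb HH) i 1 := by
      simp only [wt, add_zero]
      exact phi_le _ _ hN hL i D hval.1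
    by_cases hq : C.Q (i + 1) x ≤ 5
    · right; left
      refine ⟨i, hq, hw.trans ((phi_bound i).trans ?_)⟩
      unfold F1
      have := sq_nonneg (bb i : ℝ)
      linarith
    · rcases i with _ | i
      · left
        rw [phi_zero _ _ (hL 0)] at hw
        exact hw
      · right; right
        have h3 := h1.2.q_lt (P.pp (i + 1))
        have h4 : ww bb (i + 1) = 2 * bb i := rfl
        have h5 := P.bbig i
        refine ⟨i, ?_, hw.trans ((phi_succ_le _ _ hN hL i).trans ?_)⟩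
        · have : C.Q (i + 1 + 1) x = C.Q (i + 2) x := rfl
          omega
        · unfold F2
          have := key i
          linarith
  · obtain ⟨ht1, ht2⟩ := hval
    rw [wt_trunk _ _ i t ht1]
    by_cases hE : Esup (NN bb) (LL bb HH) i ≤ NN bb i - t
    · right; left
      refine ⟨i, ?_, (cw_le' _ _ hN hL i t ht2 hE).trans ?_⟩
      · rw [(h1.center C).2]
        omega
      · unfold F1
        have := phi_bound i
        linarith
    · right; right
      have h3 := h1.2.2.2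
      have h4 := Esup_le i
      have h5 := P.bbig i
      have h6 : NN bb i = bb (i + 2) - 4 * bb i := rfl
      refine ⟨i, ?_, (cw_le _ _ hN hL i t ht2).trans ((key i).trans ?_)⟩
      · omega
      · unfold F2
        have h7 : (0 : ℝ) ≤ bb (i + 1) * (bb i : ℝ) ^ 2 := by positivity
        linarith

end Pool.Agent.H71.Esc
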