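import Pool.Agent.H71.Esc.Model

/-!
# Measurability of the process
-/

set_option autoImplicit false

open MeasureTheory
open scoped ENNReal

namespace Pool.Agent.H71.Esc

variable {d : ℕ}

lemma measurableSet_best (f : Cfg d × Ties d → Cfg d) (hf : ∀ x, Measurable fun p => f p x)
    (y : Pt d) (M : Finset (Pt d)) : MeasurableSet {p | best (f p) y = M} := by
  classical
  have h1 : {p | best (f p) y = M} = ⋂ w : Pt d, {p | w ∈ best (f p) y ↔ w ∈ M} := by
    ext p
    simp only [Set.mem_iInter, Set.mem_ofPred_eq]
    constructor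
    · intro h w
      rw [h]
    · intro h
      exact Finset.ext h
  rw [h1]
  refine MeasurableSet.iInter fun w => ?_
  have h2 : MeasurableSet {p | w ∈ best (f p) y} := by
    have h3 : {p | w ∈ best (f p) y} = {p : Cfg d × Ties d | w ∈ nbhd y} ∩
        ⋂ z ∈ nbhd y, {p | f p z ≤ f p w} := by
      ext p
      unfold best
      simp only [Finset.mem_filter, Set.mem_inter_iff, Set.mem_iInter, Set.mem_ofPred_eq]
    rw [h3]
    refine (MeasurableSet.const _).inter ?_
    exact Finset.measurableSet_biInter _ fun z _ => measurableSet_le (hf z) (hf w)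
  by_cases hw : w ∈ M
  · have : {p | w ∈ best (f p) y ↔ w ∈ M} = {p | w ∈ best (f p) y} := by
      ext p
      simp only [hw, iff_true]
    rw [this]
    exact h2
  · have : {p | w ∈ best (f p) y ↔ w ∈ M} = {p | w ∈ best (f p) y}ᶜ := by
      ext p
      simp only [hw, iff_false]
      rfl
    rw [this]
    exact h2.compl

theorem measurable_proc (n : ℕ) : ∀ x : Pt d,
    Measurable fun p : Cfg d × Ties d => proc p.1 p.2 n x := by
  classical
  induction n with
  | zero =>
    intro x
    exact (measurable_pi_apply x).comp measurable_fst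
  | succ n ih =>
    intro x
    have h1 : (fun p : Cfg d × Ties d => proc p.1 p.2 (n + 1) x) = fun p => ∑' y,
        if (if proc p.1 p.2 n y = 0 then y else (p.2 (n, y, ⟨best (proc p.1 p.2 n) y,
          best_nonempty (proc p.1 p.2 n) y⟩)).1) = x then proc p.1 p.2 n y else 0 := rfl
    rw [h1]
    refine Measurable.tsum fun y => ?_
    refine Measurable.ite ?_ (ih y) measurable_const
    have h2 : MeasurableSet {p : Cfg d × Ties d | proc p.1 p.2 n y = 0} :=
      (ih y) (measurableSet_singleton 0)
    have h3 : MeasurableSet {p : Cfg d × Ties d | (p.2 (n, y, ⟨best (proc p.1 p.2 n) y,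
          best_nonempty (proc p.1 p.2 n) y⟩)).1 = x} := by
      have h4 : {p : Cfg d × Ties d | (p.2 (n, y, ⟨best (proc p.1 p.2 n) y,
          best_nonempty (proc p.1 p.2 n) y⟩)).1 = x} =
          ⋃ M : {M : Finset (Pt d) // M.Nonempty}, {p : Cfg d × Ties d |
            best (proc p.1 p.2 n) y = M.1} ∩ {p : Cfg d × Ties d | (p.2 (n, y, M)).1 = x} := by
        ext p
        simp only [Set.mem_iUnion, Set.mem_inter_iff, Set.mem_ofPred_eq]
        constructor
        · intro h
          exact ⟨⟨best (proc p.1 p.2 n) y, best_nonempty (proc p.1 p.2 n) y⟩, rfl, h⟩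
        · rintro ⟨⟨M, hM⟩, h5, h6⟩
          simp only at h5
          subst h5
          exact h6
      rw [h4]
      refine MeasurableSet.iUnion fun M => ?_
      refine (measurableSet_best (fun p => proc p.1 p.2 n) ih y M.1).inter ?_
      have h7 : Measurable fun p : Cfg d × Ties d => (p.2 (n, y, M)).1 :=
        measurable_subtype_coe.comp ((measurable_pi_apply (n, y, M)).comp measurable_snd)
      exact h7 (measurableSet_singleton x)
    have h8 : {p : Cfg d × Ties d | (if proc p.1 p.2 n y = 0 then y else
        (p.2 (n, y, ⟨best (proc p.1 p.2 n) y,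
          best_nonempty (proc p.1 p.2 n) y⟩)).1) = x} =
        ({p : Cfg d × Ties d | proc p.1 p.2 n y = 0} ∩ {p : Cfg d × Ties d | y = x}) ∪
        ({p : Cfg d × Ties d | proc p.1 p.2 n y = 0}ᶜ ∩
          {p : Cfg d × Ties d | (p.2 (n, y, ⟨best (proc p.1 p.2 n) y,
          best_nonempty (proc p.1 p.2 n) y⟩)).1 = x}) := by
      ext p
      simp only [Set.mem_union, Set.mem_inter_iff, Set.mem_compl_iff, Set.mem_ofPred_eq]
      by_cases h9 : proc p.1 p.2 n y = 0
      · simp only [h9, if_true, true_and, not_true, false_and, or_false]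
      · simp only [h9, if_false, false_and, not_false_iff, true_and, false_or]
    rw [h8]
    exact (h2.inter (MeasurableSet.const _)).union (h2.compl.inter h3)

end Pool.Agent.H71.Esc
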