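import Pool.Agent.H71.Esc.Mean
import Pool.Agent.H71.Esc.Proc

/-!
# Escape of resources with finite mean, in all dimensions `d ≥ 3`

For every `d ≥ 3` there is a translation-invariant distribution of the initial configuration with
finite positive mean such that almost surely every vertex has no resource from some time on.  So
`E[C_∞(x)] = 0 < E[C₀(x)] < ∞`.

The configuration is positive exactly on the vertices of a random forest with one-ended
components, and every vertex with positive resource sends it to its parent.  The forest is a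
hierarchy: the cells of level `i` are boxes in `ℤ ^ 3` (the sides are powers of two; the other
coordinates are even), a cell of level `i + 1` is filled with cells of level `i`, on both sides of
a straight trunk, and every vertex of the trunk is joined to the end of the trunk of exactly one
of these cells, by paths of one and the same length.
-/

set_option autoImplicit false

open MeasureTheory Filter
open scoped ENNReal Topology

namespace Pool.Agent.H71.Esc.Final

open Pool.Agent.H71.Esc

theorem escape_finite_mean : ∀ d : ℕ, 3 ≤ d →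
    ∃ P : Measure (Cfg d), IsProbabilityMeasure P ∧
      (∀ z : Pt d, P.map (fun (C : Cfg d) (x : Pt d) => C (x + z)) = P) ∧
      (∀ x : Pt d, ∀ᵐ p ∂(P.prod (tieLaw d)), ∀ᶠ n in atTop, proc p.1 p.2 n x = 0) ∧
      (∀ x : Pt d, ∫⁻ p, limsup (fun n => proc p.1 p.2 n x) atTop ∂(P.prod (tieLaw d)) <
          ∫⁻ C, C x ∂P ∧ ∫⁻ C, C x ∂P < ∞) := by
  intro d hd
  have hm := measurable_C0 (d := d) hd
  have : IsProbabilityMeasure (tieLaw d) := by
    unfold tieLaw
    infer_instance
  have hP : IsProbabilityMeasure ((mu d).map (C0 hd)) := Measure.isProbabilityMeasure_map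
    hm.aemeasurable
  have hae : ∀ x : Pt d, ∀ᵐ p ∂(((mu d).map (C0 hd)).prod (tieLaw d)),
      ∀ᶠ n in atTop, proc p.1 p.2 n x = 0 := by
    intro x
    have hset : MeasurableSet {p : Cfg d × Ties d | ∀ᶠ n in atTop, proc p.1 p.2 n x = 0} := by
      have h1 : {p : Cfg d × Ties d | ∀ᶠ n in atTop, proc p.1 p.2 n x = 0} =
          ⋃ N : ℕ, ⋂ n : ℕ, ⋂ _ : N ≤ n, {p : Cfg d × Ties d | proc p.1 p.2 n x = 0} := by
        ext p
        simp only [Set.mem_iUnion, Set.mem_iInter, Set.mem_ofPred_eq, eventually_atTop]
      rw [h1]
      exact MeasurableSet.iUnion fun N => MeasurableSet.iInter fun n => MeasurableSet.iInter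
        fun _ => (measurable_proc n x) (measurableSet_singleton 0)
    have hmap : ((mu d).map (C0 hd)).prod (tieLaw d) =
        ((mu d).prod (tieLaw d)).map (Prod.map (C0 hd) id) := by
      have h2 := Measure.map_prod_map (mu d) (tieLaw d) hm measurable_id
      rw [Measure.map_id] at h2
      exact h2
    rw [hmap, ae_map_iff (hm.prodMap measurable_id).aemeasurable hset]
    refine Eventually.of_forall fun p => ?_
    obtain ⟨n₀, h⟩ := (crd hd p.1).W_eventually parBH x
    filter_upwards [eventually_ge_atTop n₀] with n hn
    show proc (C0 hd p.1) p.2 n x = 0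
    have h3 : proc (C0 hd p.1) p.2 n = (crd hd p.1).W n := (crd hd p.1).dynamics parBH p.2 n
    rw [h3]
    exact h n hn
  refine ⟨(mu d).map (C0 hd), hP, ?_, hae, fun x => ?_⟩
  · intro z
    have h1 : Measurable fun (C : Cfg d) (x : Pt d) => C (x + z) :=
      measurable_pi_lambda _ fun x => measurable_pi_apply (x + z)
    rw [Measure.map_map h1 hm]
    exact C0_invariant hd z
  · have hint : ∫⁻ C, C x ∂((mu d).map (C0 hd)) = ∫⁻ ω, C0 hd ω x ∂(mu d) :=
      lintegral_map (measurable_pi_apply x) hm
    have hzero : ∫⁻ p, limsup (fun n => proc p.1 p.2 n x) atTop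
        ∂(((mu d).map (C0 hd)).prod (tieLaw d)) = 0 := by
      have h2 : (fun p : Cfg d × Ties d => limsup (fun n => proc p.1 p.2 n x) atTop) =ᵐ[
          ((mu d).map (C0 hd)).prod (tieLaw d)] fun _ => 0 := by
        filter_upwards [hae x] with p hp
        have h3 : Tendsto (fun n => proc p.1 p.2 n x) atTop (𝓝 0) :=
          tendsto_const_nhds.congr' (hp.mono fun n hn => hn.symm)
        exact h3.limsup_eq
      rw [lintegral_congr_ae h2, lintegral_zero]
    rw [hint, hzero]
    exact ⟨mean_pos hd x, mean_lt_top hd x⟩

end Pool.Agent.H71.Esc.Final
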