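import Mathlib

/-!
# The shape of the paths inside a cell
-/

set_option autoImplicit false

namespace Pool.Agent.H71.Esc

/-- The height at which the `s`-th path turns. -/
def uu (r g s : ℕ) : ℕ := (r * (g + 1) + s / 2 * g - ((s - r) + (r - s))) / 2

/-- The point with coordinates `σ` (along the trunk, in a block of length `2 r`), `q` (distance
from the central plane, on the side `sd`) and `Z` (height) is on a path, at distance `D` from the
trunk. -/
def PathPt (r g w σ sd q Z D : ℕ) : Prop :=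
  (q = 0 ∧ sd = 1 ∧ σ % 2 = 1 ∧ Z = 0 ∧ D = 1) ∨
  (q = 1 ∧ σ % 2 = sd ∧ Z ≤ uu r g σ ∧ D = 1 + sd + Z) ∨
  (q = 2 ∧ σ % 2 = sd ∧ Z = uu r g σ ∧ D = 2 + sd + uu r g σ) ∨
  (q = 3 ∧ σ % 2 = sd ∧ σ / 2 * g ≤ Z ∧ Z ≤ uu r g σ ∧ D + Z = 3 + sd + 2 * uu r g σ) ∨
  (q = 4 ∧ σ % 2 = sd ∧ Z = σ / 2 * g ∧ D + Z = 4 + sd + 2 * uu r g σ) ∨
  (q = 5 ∧ ∃ s, s < 2 * r ∧ s % 2 = sd ∧ Z = s / 2 * g ∧
    ((s ≤ σ ∧ σ ≤ r) ∨ (r ≤ σ ∧ σ ≤ s)) ∧
    D + Z = 5 + sd + 2 * uu r g s + ((s - σ) + (σ - s))) ∨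
  (6 ≤ q ∧ q < w ∧ σ = r ∧ (∃ j, j < r ∧ Z = j * g) ∧ D = r * (g + 1) + q)

/-- The six directions. -/
inductive Mv
  | Xp | Xm | Qp | Qm | Zp | Zm
deriving DecidableEq

/-- The direction of the child. -/
def nd (r g σ q Z : ℕ) : Mv :=
  if q = 1 ∧ Z < uu r g σ then Mv.Zp else
  if q = 3 ∧ σ / 2 * g < Z then Mv.Zm else
  if q = 5 ∧ σ < r then Mv.Xp else
  if q = 5 ∧ r < σ then Mv.Xm else Mv.Qp

/-- The direction of the parent. -/
def pd (r g σ sd q Z : ℕ) : Mv :=
  if q = 1 ∧ 0 < Z then Mv.Zm else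
  if q = 3 ∧ Z < uu r g σ then Mv.Zp else
  if q = 5 ∧ σ < 2 * (Z / g) + sd then Mv.Xp else
  if q = 5 ∧ 2 * (Z / g) + sd < σ then Mv.Xm else Mv.Qm

/-- The parameters. -/
structure PP (r g w : ℕ) : Prop where
  hr : 4 ≤ r
  hr2 : r % 2 = 0
  hg : 8 ≤ g
  hg2 : g % 2 = 0
  hw : 7 ≤ w

variable {r g w : ℕ}

lemma uu_facts (P : PP r g w) {s : ℕ} (hs : s < 2 * r) :
    s / 2 * g ≤ uu r g s ∧ uu r g s + 3 ≤ r * g ∧
      2 * uu r g s + ((s - r) + (r - s)) + s % 2 = r * (g + 1) + s / 2 * g := by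
  obtain ⟨hr, hr2, hg, hg2, hw⟩ := P
  unfold uu
  have h1 : s / 2 * g + 8 * (r - s / 2) ≤ r * g := by
    have h2 : r = s / 2 + (r - s / 2) := by omega
    calc s / 2 * g + 8 * (r - s / 2) ≤ s / 2 * g + (r - s / 2) * g := by
          rw [mul_comm 8]
          exact Nat.add_le_add_left (Nat.mul_le_mul_left _ hg) _
      _ = (s / 2 + (r - s / 2)) * g := by ring
      _ = r * g := by rw [← h2]
  have h3 : r * (g + 1) = r * g + r := by ring
  have h4 : (s / 2 * g) % 2 = 0 := by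
    rw [Nat.mul_mod, hg2]
    simp
  have h5 : (r * g) % 2 = 0 := by
    rw [Nat.mul_mod, hg2]
    simp
  rw [h3]
  generalize s / 2 * g = J at *
  generalize r * g = R at *
  omega

lemma PathPt.D_pos {σ sd q Z D : ℕ} (P : PP r g w) (hσ : σ < 2 * r)
    (h : PathPt r g w σ sd q Z D) : 1 ≤ D := by
  have h1 := uu_facts P hσ
  rcases h with h | h | h | h | h | ⟨_, s, hs, _, hZ, _, hD⟩ | ⟨_, _, _, _, hD⟩
  · omega
  · omega
  · omega
  · omega
  · omega
  · have h2 := uu_facts P hs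
    omega
  · have := P.hr
    have : 0 ≤ r * (g + 1) := Nat.zero_le _
    omega

/-- The values of `D`. -/
lemma PathPt.D_le {σ sd q Z D : ℕ} (P : PP r g w) (hσ : σ < 2 * r)
    (h : PathPt r g w σ sd q Z D) : D ≤ r * (g + 1) + w - 1 ∧
      (D = r * (g + 1) + w - 1 → q = w - 1 ∧ 6 ≤ q ∧ σ = r ∧ ∃ j, j < r ∧ Z = j * g) := by
  have h1 := uu_facts P hσ
  have hw := P.hw
  rcases h with h | h | h | h | h | ⟨h5, s, hs, _, hZ, hb, hD⟩ | ⟨h6, h7, h8, h9, hD⟩
  · omega
  · omega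
  · omega
  · omega
  · omega
  · have h2 := uu_facts P hs
    omega
  · refine ⟨by omega, fun h => ⟨by omega, h6, h8, h9⟩⟩

lemma div_g {j : ℕ} (P : PP r g w) : j * g / g = j :=
  Nat.mul_div_cancel _ (by have := P.hg; omega)

lemma no_succ {a b : ℕ} (P : PP r g w) : a * g + 1 ≠ b * g := by
  intro h
  have hg := P.hg
  have h1 : (a * g + 1) % g = 1 := by
    rw [Nat.add_mod, Nat.mul_mod_left, Nat.zero_add, Nat.mod_mod, Nat.mod_eq_of_lt (by omega)]
  rw [h, Nat.mul_mod_left] at h1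
  omega

lemma mul_g_inj {a b : ℕ} (P : PP r g w) (h : a * g = b * g) : a = b :=
  Nat.eq_of_mul_eq_mul_right (by have := P.hg; omega) h

/-- The child. -/
theorem exists_next {σ sd q Z D : ℕ} (P : PP r g w) (hσ : σ < 2 * r) (hsd : sd ≤ 1)
    (h : PathPt r g w σ sd q Z D) :
    (nd r g σ q Z = Mv.Zp ∧ Z + 1 < r * g ∧ PathPt r g w σ sd q (Z + 1) (D + 1) ∧
      pd r g σ sd q (Z + 1) = Mv.Zm) ∨
    (nd r g σ q Z = Mv.Zm ∧ 1 ≤ Z ∧ PathPt r g w σ sd q (Z - 1) (D + 1) ∧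
      pd r g σ sd q (Z - 1) = Mv.Zp) ∨
    (nd r g σ q Z = Mv.Xp ∧ σ + 1 < 2 * r ∧ PathPt r g w (σ + 1) sd q Z (D + 1) ∧
      pd r g (σ + 1) sd q Z = Mv.Xm) ∨
    (nd r g σ q Z = Mv.Xm ∧ 1 ≤ σ ∧ PathPt r g w (σ - 1) sd q Z (D + 1) ∧
      pd r g (σ - 1) sd q Z = Mv.Xp) ∨
    (nd r g σ q Z = Mv.Qp ∧ ((D < r * (g + 1) + w - 1 ∧ PathPt r g w σ sd (q + 1) Z (D + 1) ∧
      pd r g σ sd (q + 1) Z = Mv.Qm) ∨ (D = r * (g + 1) + w - 1 ∧ q + 1 = w))) := by
  have hu := uu_facts P hσ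
  have hw := P.hw
  have hr := P.hr
  rcases h with ⟨h0, h1, h2, h3, h4⟩ | ⟨h0, h1, h2, h3⟩ | ⟨h0, h1, h2, h3⟩ |
    ⟨h0, h1, h2, h3, h4⟩ | ⟨h0, h1, h2, h3⟩ | ⟨h0, s, hs, hs2, hZ, hb, hD⟩ |
    ⟨h0, h1, h2, ⟨j, hj, hZ⟩, hD⟩
  · right; right; right; right
    subst h0 h1 h3 h4
    refine ⟨by simp [nd], Or.inl ⟨by omega, ?_, by simp [pd]⟩⟩
    right; left
    exact ⟨rfl, h2, by omega, by omega⟩
  · subst h0
    by_cases hZ : Z < uu r g σ
    · left
      refine ⟨by simp [nd, hZ], by omega, ?_, by simp [pd]⟩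
      right; left
      exact ⟨rfl, h1, by omega, by omega⟩
    · right; right; right; right
      refine ⟨by simp [nd, hZ], Or.inl ⟨by omega, ?_, by simp [pd]⟩⟩
      right; right; left
      exact ⟨rfl, h1, by omega, by omega⟩
  · subst h0
    right; right; right; right
    refine ⟨by simp [nd], Or.inl ⟨by omega, ?_, by simp [pd, h2]⟩⟩
    right; right; right; left
    exact ⟨rfl, h1, by omega, by omega, by omega⟩
  · subst h0
    by_cases hZ : σ / 2 * g < Z
    · right; left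
      refine ⟨by simp [nd, hZ], by omega, ?_, ?_⟩
      · right; right; right; left
        exact ⟨rfl, h1, by omega, by omega, by omega⟩
      · have : Z - 1 < uu r g σ := by omega
        simp [pd, this]
    · right; right; right; right
      refine ⟨by simp [nd, hZ], Or.inl ⟨by omega, ?_, by simp [pd]⟩⟩
      right; right; right; right; left
      exact ⟨rfl, h1, by omega, by omega⟩
  · subst h0
    right; right; right; right
    refine ⟨by simp [nd], Or.inl ⟨by omega, ?_, ?_⟩⟩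
    · right; right; right; right; right; left
      refine ⟨rfl, σ, hσ, h1, h2, by omega, by omega⟩
    · have hdg : Z / g = σ / 2 := by rw [h2, div_g P]
      have : 2 * (Z / g) + sd = σ := by omega
      simp [pd, this]
  · subst h0
    have hus := uu_facts P hs
    have hdg : Z / g = s / 2 := by rw [hZ, div_g P]
    have hss : 2 * (Z / g) + sd = s := by omega
    rcases lt_trichotomy σ r with hlt | heq | hgt
    · right; right; left
      refine ⟨by simp [nd, hlt], by omega, ?_, ?_⟩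
      · right; right; right; right; right; left
        exact ⟨rfl, s, hs, hs2, hZ, by omega, by omega⟩
      · have h1 : ¬ (σ + 1 < s) := by omega
        have h2 : s < σ + 1 := by omega
        simp [pd, hss, h1, h2]
    · right; right; right; right
      have h1 : ¬ (σ < r) := by omega
      have h2 : ¬ (r < σ) := by omega
      refine ⟨by simp [nd, h1, h2], Or.inl ⟨by omega, ?_, by simp [pd]⟩⟩
      right; right; right; right; right; right
      exact ⟨le_rfl, by omega, heq, ⟨s / 2, by omega, hZ⟩, by omega⟩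
    · right; right; right; left
      have h1 : ¬ (σ < r) := by omega
      refine ⟨by simp [nd, h1, hgt], by omega, ?_, ?_⟩
      · right; right; right; right; right; left
        exact ⟨rfl, s, hs, hs2, hZ, by omega, by omega⟩
      · have h2 : σ - 1 < s := by omega
        simp [pd, hss, h2]
  · right; right; right; right
    have h3 : q ≠ 1 := by omega
    have h4 : q ≠ 3 := by omega
    have h5 : q ≠ 5 := by omega
    refine ⟨by simp [nd, h3, h4, h5], ?_⟩
    by_cases hq : q + 1 < w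
    · left
      refine ⟨by omega, ?_, ?_⟩
      · right; right; right; right; right; right
        exact ⟨by omega, hq, h2, ⟨j, hj, hZ⟩, by omega⟩
      · have h6 : q + 1 ≠ 1 := by omega
        have h7 : q + 1 ≠ 3 := by omega
        have h8 : q + 1 ≠ 5 := by omega
        simp only [pd, h6, h7, h8, false_and, if_false]
    · right
      omega

/-- The parent. -/
theorem exists_prev {σ sd q Z D : ℕ} (P : PP r g w) (hσ : σ < 2 * r) (hsd : sd ≤ 1)
    (h : PathPt r g w σ sd q Z D) :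
    (D = 1 ∧ pd r g σ sd q Z = Mv.Qm ∧ Z = 0 ∧
      ((sd = 0 ∧ q = 1 ∧ σ % 2 = 0) ∨ (sd = 1 ∧ q = 0 ∧ σ % 2 = 1))) ∨
    (2 ≤ D ∧ (
    (pd r g σ sd q Z = Mv.Zp ∧ Z + 1 < r * g ∧ PathPt r g w σ sd q (Z + 1) (D - 1)) ∨
    (pd r g σ sd q Z = Mv.Zm ∧ 1 ≤ Z ∧ PathPt r g w σ sd q (Z - 1) (D - 1)) ∨
    (pd r g σ sd q Z = Mv.Xp ∧ σ + 1 < 2 * r ∧ PathPt r g w (σ + 1) sd q Z (D - 1)) ∨
    (pd r g σ sd q Z = Mv.Xm ∧ 1 ≤ σ ∧ PathPt r g w (σ - 1) sd q Z (D - 1)) ∨
    (pd r g σ sd q Z = Mv.Qm ∧ 1 ≤ q ∧ PathPt r g w σ sd (q - 1) Z (D - 1)))) := by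
  have hu := uu_facts P hσ
  have hw := P.hw
  have hr := P.hr
  rcases h with ⟨h0, h1, h2, h3, h4⟩ | ⟨h0, h1, h2, h3⟩ | ⟨h0, h1, h2, h3⟩ |
    ⟨h0, h1, h2, h3, h4⟩ | ⟨h0, h1, h2, h3⟩ | ⟨h0, s, hs, hs2, hZ, hb, hD⟩ |
    ⟨h0, h1, h2, ⟨j, hj, hZ⟩, hD⟩
  · left
    subst h0
    exact ⟨h4, by simp [pd], h3, Or.inr ⟨h1, rfl, h2⟩⟩
  · subst h0
    by_cases hZ : 0 < Z
    · right
      refine ⟨by omega, Or.inr (Or.inl ⟨by simp [pd, hZ], hZ, ?_⟩)⟩
      right; left
      exact ⟨rfl, h1, by omega, by omega⟩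
    · have hZ0 : Z = 0 := by omega
      subst hZ0
      by_cases hs : sd = 0
      · left
        exact ⟨by omega, by simp [pd], rfl, Or.inl ⟨hs, rfl, by omega⟩⟩
      · right
        refine ⟨by omega, Or.inr (Or.inr (Or.inr (Or.inr ⟨by simp [pd], by omega, ?_⟩)))⟩
        left
        exact ⟨rfl, by omega, by omega, rfl, by omega⟩
  · subst h0
    right
    refine ⟨by omega, Or.inr (Or.inr (Or.inr (Or.inr ⟨by simp [pd], by omega, ?_⟩)))⟩
    right; left
    exact ⟨rfl, h1, by omega, by omega⟩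
  · subst h0
    right
    by_cases hZ : Z < uu r g σ
    · refine ⟨by omega, Or.inl ⟨by simp [pd, hZ], by omega, ?_⟩⟩
      right; right; right; left
      exact ⟨rfl, h1, by omega, by omega, by omega⟩
    · refine ⟨by omega, Or.inr (Or.inr (Or.inr (Or.inr ⟨by simp [pd, hZ], by omega, ?_⟩)))⟩
      right; right; left
      exact ⟨rfl, h1, by omega, by omega⟩
  · subst h0
    right
    refine ⟨by omega, Or.inr (Or.inr (Or.inr (Or.inr ⟨by simp [pd], by omega, ?_⟩)))⟩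
    right; right; right; left
    exact ⟨rfl, h1, by omega, by omega, by omega⟩
  · subst h0
    have hus := uu_facts P hs
    have hdg : Z / g = s / 2 := by rw [hZ, div_g P]
    have hss : 2 * (Z / g) + sd = s := by omega
    right
    rcases lt_trichotomy σ s with hlt | heq | hgt
    · refine ⟨by omega, Or.inr (Or.inr (Or.inl ⟨by simp [pd, hss, hlt], by omega, ?_⟩))⟩
      right; right; right; right; right; left
      exact ⟨rfl, s, hs, hs2, hZ, by omega, by omega⟩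
    · have h1 : ¬ (σ < s) := by omega
      have h2 : ¬ (s < σ) := by omega
      refine ⟨by omega, Or.inr (Or.inr (Or.inr (Or.inr
        ⟨by simp [pd, hss, h1, h2], by omega, ?_⟩)))⟩
      subst heq
      right; right; right; right; left
      exact ⟨rfl, hs2, hZ, by omega⟩
    · have h1 : ¬ (σ < s) := by omega
      refine ⟨by omega, Or.inr (Or.inr (Or.inr (Or.inl
        ⟨by simp [pd, hss, h1, hgt], by omega, ?_⟩)))⟩
      right; right; right; right; right; left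
      exact ⟨rfl, s, hs, hs2, hZ, by omega, by omega⟩
  · right
    have h3 : q ≠ 1 := by omega
    have h4 : q ≠ 3 := by omega
    have h5 : q ≠ 5 := by omega
    refine ⟨by omega, Or.inr (Or.inr (Or.inr (Or.inr
      ⟨by simp only [pd, h3, h4, h5, false_and, if_false], by omega, ?_⟩)))⟩
    by_cases hq : q = 6
    · subst hq
      right; right; right; right; right; left
      obtain ⟨hr2, hg2⟩ := And.intro P.hr2 P.hg2
      have hs : 2 * j + sd < 2 * r := by omega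
      have hus := uu_facts P hs
      have e1 : (2 * j + sd) / 2 = j := by omega
      have e2 : (2 * j + sd) % 2 = sd := by omega
      rw [e1, e2] at hus
      refine ⟨rfl, 2 * j + sd, hs, e2, by rw [e1]; exact hZ, by omega, by omega⟩
    · right; right; right; right; right; right
      exact ⟨by omega, by omega, h2, ⟨j, hj, hZ⟩, by omega⟩

/-- Neighbours in the direction of the trunk. -/
theorem adj_X {σ σ' sd q Z D D' : ℕ} (P : PP r g w) (hσ : σ < 2 * r)
    (hσ' : σ' = (σ + 1) % (2 * r))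
    (h : PathPt r g w σ sd q Z D) (h' : PathPt r g w σ' sd q Z D') :
    (D' = D + 1 ∧ nd r g σ q Z = Mv.Xp ∧ pd r g σ' sd q Z = Mv.Xm) ∨
    (D = D' + 1 ∧ pd r g σ sd q Z = Mv.Xp ∧ nd r g σ' q Z = Mv.Xm) := by
  have hr := P.hr
  have hr2 := P.hr2
  have hc : σ' = σ + 1 ∨ (σ + 1 = 2 * r ∧ σ' = 0) := by
    rcases Nat.lt_or_ge (σ + 1) (2 * r) with h1 | h1
    · left
      rw [hσ', Nat.mod_eq_of_lt h1]
    · right
      have h2 : σ + 1 = 2 * r := by omega
      exact ⟨h2, by rw [hσ', h2, Nat.mod_self]⟩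
  rcases h with ⟨h0, h1, h2, h3, h4⟩ | ⟨h0, h1, h2, h3⟩ | ⟨h0, h1, h2, h3⟩ |
    ⟨h0, h1, h2, h3, h4⟩ | ⟨h0, h1, h2, h3⟩ | ⟨h0, s, hs, hs2, hZ, hb, hD⟩ |
    ⟨h0, h1, h2, ⟨j, hj, hZ⟩, hD⟩
  · exfalso
    rcases h' with h' | h' | h' | h' | h' | ⟨h5, _⟩ | ⟨h5, _⟩ <;> omega
  · exfalso
    rcases h' with h' | h' | h' | h' | h' | ⟨h5, _⟩ | ⟨h5, _⟩ <;> omega
  · exfalso
    rcases h' with h' | h' | h' | h' | h' | ⟨h5, _⟩ | ⟨h5, _⟩ <;> omega
  · exfalso
    rcases h' with h' | h' | h' | h' | h' | ⟨h5, _⟩ | ⟨h5, _⟩ <;> omega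
  · exfalso
    rcases h' with h' | h' | h' | h' | h' | ⟨h5, _⟩ | ⟨h5, _⟩ <;> omega
  · rcases h' with h' | h' | h' | h' | h' | ⟨_, s', hs', hs2', hZ', hb', hD'⟩ | ⟨h5, _⟩
    · omega
    · omega
    · omega
    · omega
    · omega
    · have e1 : s / 2 = s' / 2 := mul_g_inj P (hZ ▸ hZ')
      have e2 : s = s' := by omega
      subst e2
      subst h0
      have hdg : Z / g = s / 2 := by rw [hZ, div_g P]
      have hss : 2 * (Z / g) + sd = s := by omega
      have hc' : σ' = σ + 1 := by omega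
      subst hc'
      by_cases hlt : σ < s
      · right
        have h1 : ¬ (σ + 1 < r) := by omega
        have h2 : r < σ + 1 := by omega
        refine ⟨by omega, by simp [pd, hss, hlt], by simp [nd, h1, h2]⟩
      · left
        have h1 : σ < r := by omega
        have h2 : ¬ (σ + 1 < s) := by omega
        have h3 : s < σ + 1 := by omega
        refine ⟨by omega, by simp [nd, h1], by simp [pd, hss, h2, h3]⟩
    · omega
  · exfalso
    rcases h' with h' | h' | h' | h' | h' | ⟨h5, _⟩ | ⟨h5, _, h6, _⟩ <;> omega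

/-- Vertical neighbours. -/
theorem adj_Z {σ sd q Z Z' D D' : ℕ} (P : PP r g w) (hσ : σ < 2 * r) (hZr : Z < r * g)
    (hZ' : Z' = (Z + 1) % (r * g))
    (h : PathPt r g w σ sd q Z D) (h' : PathPt r g w σ sd q Z' D') :
    (D' = D + 1 ∧ nd r g σ q Z = Mv.Zp ∧ pd r g σ sd q Z' = Mv.Zm) ∨
    (D = D' + 1 ∧ pd r g σ sd q Z = Mv.Zp ∧ nd r g σ q Z' = Mv.Zm) := by
  have hu := uu_facts P hσ
  have hc : Z' = Z + 1 ∨ (Z + 1 = r * g ∧ Z' = 0) := by
    rcases Nat.lt_or_ge (Z + 1) (r * g) with h1 | h1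
    · left
      rw [hZ', Nat.mod_eq_of_lt h1]
    · right
      have h2 : Z + 1 = r * g := by omega
      exact ⟨h2, by rw [hZ', h2, Nat.mod_self]⟩
  rcases h with ⟨h0, h1, h2, h3, h4⟩ | ⟨h0, h1, h2, h3⟩ | ⟨h0, h1, h2, h3⟩ |
    ⟨h0, h1, h2, h3, h4⟩ | ⟨h0, h1, h2, h3⟩ | ⟨h0, s, hs, hs2, hZ, hb, hD⟩ |
    ⟨h0, h1, h2, ⟨j, hj, hZ⟩, hD⟩
  · exfalso
    rcases h' with h' | h' | h' | h' | h' | ⟨h5, _⟩ | ⟨h5, _⟩ <;> omega
  · rcases h' with h' | h' | h' | h' | h' | ⟨h5, _⟩ | ⟨h5, _⟩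
    · omega
    · left
      subst h0
      have hc' : Z' = Z + 1 := by omega
      subst hc'
      have h5 : Z < uu r g σ := by omega
      exact ⟨by omega, by simp [nd, h5], by simp [pd]⟩
    all_goals omega
  · exfalso
    rcases h' with h' | h' | h' | h' | h' | ⟨h5, _⟩ | ⟨h5, _⟩ <;> omega
  · rcases h' with h' | h' | h' | h' | h' | ⟨h5, _⟩ | ⟨h5, _⟩
    · omega
    · omega
    · omega
    · right
      subst h0
      have hc' : Z' = Z + 1 := by omega
      subst hc'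
      have h5 : Z < uu r g σ := by omega
      have h6 : σ / 2 * g < Z + 1 := by omega
      exact ⟨by omega, by simp [pd, h5], by simp [nd, h6]⟩
    all_goals omega
  · exfalso
    rcases h' with h' | h' | h' | h' | h' | ⟨h5, _⟩ | ⟨h5, _⟩ <;> omega
  · exfalso
    rcases h' with h' | h' | h' | h' | h' | ⟨_, s', hs', hs2', hZ', hb', hD'⟩ | ⟨h5, _⟩
    · omega
    · omega
    · omega
    · omega
    · omega
    · rcases hc with hc | ⟨hc, _⟩
      · rw [hZ, hZ'] at hc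
        exact no_succ P hc.symm
      · rw [hZ] at hc
        exact no_succ P hc
    · omega
  · exfalso
    rcases h' with h' | h' | h' | h' | h' | ⟨h5, _⟩ | ⟨_, _, _, ⟨j', hj', hZ'⟩, _⟩
    · omega
    · omega
    · omega
    · omega
    · omega
    · omega
    · rcases hc with hc | ⟨hc, _⟩
      · rw [hZ, hZ'] at hc
        exact no_succ P hc.symm
      · rw [hZ] at hc
        exact no_succ P hc

/-- Neighbours in the third direction. -/
theorem adj_Q {σ sd q Z D D' : ℕ} (P : PP r g w) (hσ : σ < 2 * r)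
    (h : PathPt r g w σ sd q Z D) (h' : PathPt r g w σ sd (q + 1) Z D') :
    D' = D + 1 ∧ nd r g σ q Z = Mv.Qp ∧ pd r g σ sd (q + 1) Z = Mv.Qm := by
  have hu := uu_facts P hσ
  rcases h with ⟨h0, h1, h2, h3, h4⟩ | ⟨h0, h1, h2, h3⟩ | ⟨h0, h1, h2, h3⟩ |
    ⟨h0, h1, h2, h3, h4⟩ | ⟨h0, h1, h2, h3⟩ | ⟨h0, s, hs, hs2, hZ, hb, hD⟩ |
    ⟨h0, h1, h2, ⟨j, hj, hZ⟩, hD⟩
  · subst h0
    rcases h' with h' | h' | h' | h' | h' | ⟨h5, _⟩ | ⟨h5, _⟩
    · omega
    · refine ⟨by omega, by simp [nd], by simp [pd, h3]⟩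
    all_goals omega
  · subst h0
    rcases h' with h' | h' | h' | h' | h' | ⟨h5, _⟩ | ⟨h5, _⟩
    · omega
    · omega
    · have : ¬ (Z < uu r g σ) := by omega
      refine ⟨by omega, by simp [nd, this], by simp [pd]⟩
    all_goals omega
  · subst h0
    rcases h' with h' | h' | h' | h' | h' | ⟨h5, _⟩ | ⟨h5, _⟩
    · omega
    · omega
    · omega
    · refine ⟨by omega, by simp [nd], by simp [pd, h2]⟩
    all_goals omega
  · subst h0
    rcases h' with h' | h' | h' | h' | h' | ⟨h5, _⟩ | ⟨h5, _⟩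
    · omega
    · omega
    · omega
    · omega
    · have : ¬ (σ / 2 * g < Z) := by omega
      refine ⟨by omega, by simp [nd, this], by simp [pd]⟩
    all_goals omega
  · subst h0
    rcases h' with h' | h' | h' | h' | h' | ⟨_, s', hs', hs2', hZ', hb', hD'⟩ | ⟨h5, _⟩
    · omega
    · omega
    · omega
    · omega
    · omega
    · have e1 : s' / 2 = σ / 2 := mul_g_inj P (hZ' ▸ h2)
      have e2 : s' = σ := by omega
      subst e2
      have hdg : Z / g = s' / 2 := by rw [h2, div_g P]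
      have hss : 2 * (Z / g) + sd = s' := by omega
      refine ⟨by omega, by simp [nd], by simp [pd, hss]⟩
    · omega
  · subst h0
    have hus := uu_facts P hs
    rcases h' with h' | h' | h' | h' | h' | ⟨h5, _⟩ | ⟨_, _, h6, _, h7⟩
    · omega
    · omega
    · omega
    · omega
    · omega
    · omega
    · have h1 : ¬ (σ < r) := by omega
      have h2 : ¬ (r < σ) := by omega
      refine ⟨by omega, by simp [nd, h1, h2], by simp [pd]⟩
  · have h3 : q ≠ 1 := by omega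
    have h4 : q ≠ 3 := by omega
    have h5 : q ≠ 5 := by omega
    have h6 : q + 1 ≠ 1 := by omega
    have h7 : q + 1 ≠ 3 := by omega
    have h8 : q + 1 ≠ 5 := by omega
    refine ⟨?_, by simp only [nd, h3, h4, h5, false_and, if_false],
      by simp only [pd, h6, h7, h8, false_and, if_false]⟩
    rcases h' with h' | h' | h' | h' | h' | ⟨h5, _⟩ | ⟨_, _, _, _, h7⟩ <;> omega

end Pool.Agent.H71.Esc
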