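import Mathlib

/-!
# The amounts of resource on a hierarchical forest
-/

set_option autoImplicit false

open Finset

namespace Pool.Agent.H71.Esc

/-- The weight of the `t`-th vertex of a trunk with `N` vertices, if every vertex has a side tree
with profile `β`. -/
noncomputable def cw (N : ℕ) (β : ℕ → ℝ) (t : ℕ) : ℝ :=
  2 * β 0 + β 0 * (t / N) + ∑ m ∈ Ico (N - t) N, β m

/-- The amount at the `t`-th vertex of the trunk at time `n`. -/
noncomputable def tw (N : ℕ) (β : ℕ → ℝ) (t n : ℕ) : ℝ :=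
  if n < t then cw N β (t - n) + ∑ m ∈ range n, β m else ∑ m ∈ Ico (n - t) n, β m

/-- The profile of a side tree of the next level: a trunk with `N` vertices followed by a path
with `ℓ` vertices. -/
noncomputable def nextPhi (N ℓ : ℕ) (β : ℕ → ℝ) (m : ℕ) : ℝ :=
  if m ≤ ℓ then cw N β N * (1 + ((ℓ + 1 - m : ℕ) : ℝ) / ℓ) else tw N β N (m - (ℓ + 1))

/-- The profiles. -/
noncomputable def Phi (N ell : ℕ → ℕ) : ℕ → ℕ → ℝ
  | 0 => fun m => if m ≤ ell 0 then 1 + ((ell 0 + 1 - m : ℕ) : ℝ) / ell 0 else 0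
  | i + 1 => nextPhi (N i) (ell (i + 1)) (fun n => Phi N ell i (n + 1))

/-- A profile: positive and strictly decreasing before the time `E`. -/
structure GoodProf (β : ℕ → ℝ) (E : ℕ) : Prop where
  nonneg : ∀ n, 0 ≤ β n
  dec : ∀ n, 0 < β (n + 1) → β (n + 1) < β n
  pos : 0 < β 0
  supp : ∀ n, E ≤ n → β n = 0

namespace GoodProf

variable {β : ℕ → ℝ} {E : ℕ} (h : GoodProf β E)

include h

lemma succ_le (n : ℕ) : β (n + 1) ≤ β n := by
  rcases (h.nonneg (n + 1)).lt_or_eq with h1 | h1
  · exact (h.dec n h1).le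
  · rw [← h1]
    exact h.nonneg n

lemma anti {m n : ℕ} (hmn : m ≤ n) : β n ≤ β m := by
  induction n, hmn using Nat.le_induction with
  | base => exact le_rfl
  | succ n _ ih => exact (h.succ_le n).trans ih

lemma lt_of_lt {m n : ℕ} (hmn : m < n) (hn : 0 < β m) : β n < β m := by
  have h1 : β n ≤ β (m + 1) := h.anti hmn
  rcases (h.nonneg (m + 1)).lt_or_eq with h2 | h2
  · exact lt_of_le_of_lt h1 (h.dec m h2)
  · rw [← h2] at h1
    exact lt_of_le_of_lt h1 hn

lemma E_pos : 0 < E := by
  by_contra h1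
  have : β 0 = 0 := h.supp 0 (by omega)
  exact absurd h.pos (by rw [this]; exact lt_irrefl 0)

end GoodProf

section

variable {β : ℕ → ℝ} {E : ℕ} (h : GoodProf β E) (N : ℕ)

lemma tw_succ_one (n : ℕ) : tw N β 1 (n + 1) = β n := by
  unfold tw
  rw [if_neg (by omega)]
  have : Ico (n + 1 - 1) (n + 1) = {n} := by
    ext x
    simp only [mem_Ico, mem_singleton]
    omega
  rw [this, sum_singleton]

lemma tw_succ (t n : ℕ) (ht : 2 ≤ t) : tw N β t (n + 1) = β n + tw N β (t - 1) n := by
  unfold tw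
  by_cases h1 : n + 1 < t
  · rw [if_pos h1, if_pos (by omega), sum_range_succ, show t - (n + 1) = t - 1 - n by omega]
    ring
  · rw [if_neg h1, if_neg (by omega), show n - (t - 1) = n + 1 - t by omega,
      sum_Ico_succ_top (by omega)]
    ring

include h

lemma cw_nonneg (t : ℕ) : 0 ≤ ∑ m ∈ Ico (N - t) N, β m := sum_nonneg fun m _ => h.nonneg m

lemma beta0_lt_cw (t : ℕ) : β 0 < cw N β t := by
  unfold cw
  have h1 := cw_nonneg h N t
  have h2 := h.pos
  have h3 : 0 ≤ β 0 * ((t : ℝ) / N) := by positivity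
  linarith

lemma cw_pos (t : ℕ) : 0 < cw N β t := h.pos.trans (beta0_lt_cw h N t)

lemma cw_step (n : ℕ) (hn : n < N) : β n + cw N β (N - n - 1) < cw N β (N - n) := by
  unfold cw
  rw [show N - (N - n) = n by omega, show N - (N - n - 1) = n + 1 by omega,
    sum_eq_sum_Ico_succ_bot hn]
  have hN : (0 : ℝ) < N := by exact_mod_cast (by omega : 0 < N)
  have h1 : ((N - n - 1 : ℕ) : ℝ) / N < ((N - n : ℕ) : ℝ) / N := by
    apply div_lt_div_of_pos_right _ hN
    exact_mod_cast (by omega : N - n - 1 < N - n)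
  have h2 := mul_lt_mul_of_pos_left h1 h.pos
  linarith

lemma cw_lt (t : ℕ) (ht : t + 1 ≤ N) : cw N β t < cw N β (t + 1) := by
  have h1 := cw_step h N (N - t - 1) (by omega)
  rw [show N - (N - t - 1) - 1 = t by omega, show N - (N - t - 1) = t + 1 by omega] at h1
  have := h.nonneg (N - t - 1)
  linarith

lemma tw_nonneg (t n : ℕ) : 0 ≤ tw N β t n := by
  unfold tw
  split_ifs
  · exact add_nonneg (cw_pos h N _).le (sum_nonneg fun m _ => h.nonneg m)
  · exact sum_nonneg fun m _ => h.nonneg m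

lemma tw_mono (t n : ℕ) (ht : 1 ≤ t) (htN : t + 1 ≤ N) (hpos : 0 < tw N β t n) :
    tw N β t n < tw N β (t + 1) n := by
  unfold tw at hpos ⊢
  by_cases h1 : n < t
  · rw [if_pos h1, if_pos (by omega), show t + 1 - n = t - n + 1 by omega]
    have := cw_lt h N (t - n) (by omega)
    linarith
  · rw [if_neg h1] at hpos ⊢
    by_cases h2 : n < t + 1
    · have h3 : n = t := by omega
      subst h3
      rw [if_pos h2, Nat.sub_self, range_eq_Ico]
      have := cw_pos h N (n + 1 - n)
      linarith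
    · rw [if_neg h2, sum_eq_sum_Ico_succ_bot (show n - (t + 1) < n by omega),
        show n - (t + 1) + 1 = n - t by omega]
      have h4 : 0 < β (n - (t + 1)) := by
        by_contra h5
        have h6 : β (n - (t + 1)) = 0 := le_antisymm (not_lt.1 h5) (h.nonneg _)
        have h7 : ∑ m ∈ Ico (n - t) n, β m = 0 := by
          refine sum_eq_zero fun m hm => ?_
          rw [mem_Ico] at hm
          refine le_antisymm ?_ (h.nonneg m)
          rw [← h6]
          exact h.anti (by omega)
        rw [h7] at hpos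
        exact lt_irrefl _ hpos
      linarith

lemma side_lt (t n : ℕ) (ht : 1 ≤ t) (hn : 0 < β n) : β n < tw N β t n := by
  unfold tw
  by_cases h1 : n < t
  · rw [if_pos h1]
    have h2 := beta0_lt_cw h N (t - n)
    have h3 : β n ≤ β 0 := h.anti (Nat.zero_le n)
    have h4 : 0 ≤ ∑ m ∈ range n, β m := sum_nonneg fun m _ => h.nonneg m
    linarith
  · rw [if_neg h1]
    obtain ⟨k, rfl⟩ : ∃ k, n = k + 1 := ⟨n - 1, by omega⟩
    rw [sum_Ico_succ_top (by omega)]
    have h2 : 0 ≤ ∑ m ∈ Ico (k + 1 - t) k, β m := sum_nonneg fun m _ => h.nonneg m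
    have := h.dec k hn
    linarith

lemma tw_top_dec (m : ℕ) (hN : 1 ≤ N) (hpos : 0 < tw N β N (m + 1)) :
    tw N β N (m + 1) < tw N β N m := by
  unfold tw at hpos ⊢
  by_cases h1 : m + 1 < N
  · rw [if_pos h1, if_pos (by omega), sum_range_succ]
    have := cw_step h N m (by omega)
    rw [show N - (m + 1) = N - m - 1 by omega]
    linarith
  · rw [if_neg h1] at hpos ⊢
    by_cases h2 : m < N
    · have h3 : N = m + 1 := by omega
      rw [if_pos h2, h3, show m + 1 - (m + 1) = 0 by omega, sum_Ico_succ_top (Nat.zero_le m),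
        range_eq_Ico]
      have h4 := beta0_lt_cw h (m + 1) (m + 1 - m)
      have h5 : β m ≤ β 0 := h.anti (Nat.zero_le m)
      linarith
    · rw [if_neg h2, sum_Ico_succ_top (by omega),
        sum_eq_sum_Ico_succ_bot (show m - N < m by omega),
        show m - N + 1 = m + 1 - N by omega]
      have h3 : 0 < β (m - N) := by
        by_contra h5
        have h6 : β (m - N) = 0 := le_antisymm (not_lt.1 h5) (h.nonneg _)
        have h7 : ∑ k ∈ Ico (m + 1 - N) (m + 1), β k = 0 := by
          refine sum_eq_zero fun k hk => ?_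
          rw [mem_Ico] at hk
          refine le_antisymm ?_ (h.nonneg k)
          rw [← h6]
          exact h.anti (by omega)
        rw [h7] at hpos
        exact lt_irrefl _ hpos
      have h4 := h.lt_of_lt (show m - N < m by omega) h3
      linarith

lemma tw_top_supp (m : ℕ) (hm : N + E ≤ m) : tw N β N m = 0 := by
  unfold tw
  rw [if_neg (by have := h.E_pos; omega)]
  refine sum_eq_zero fun k hk => ?_
  rw [mem_Ico] at hk
  exact h.supp k (by omega)

lemma tw_supp (t m : ℕ) (ht : t ≤ N) (hm : N + E ≤ m) : tw N β t m = 0 := by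
  unfold tw
  rw [if_neg (by have := h.E_pos; omega)]
  refine sum_eq_zero fun k hk => ?_
  rw [mem_Ico] at hk
  exact h.supp k (by omega)

lemma nextPhi_good (ℓ : ℕ) (hN : 1 ≤ N) (hℓ : 1 ≤ ℓ) :
    GoodProf (fun n => nextPhi N ℓ β (n + 1)) (ℓ + N + E) := by
  have hℓ0 : (0 : ℝ) < ℓ := by exact_mod_cast hℓ
  have hc := cw_pos h N N
  have h0 : tw N β N 0 = cw N β N := by
    unfold tw
    rw [if_pos (by omega)]
    simp
  refine ⟨fun n => ?_, fun n hn => ?_, ?_, fun n hn => ?_⟩
  · unfold nextPhi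
    split_ifs
    · positivity
    · exact tw_nonneg h N _ _
  · simp only [nextPhi] at hn ⊢
    by_cases h1 : n + 1 + 1 ≤ ℓ
    · rw [if_pos h1, if_pos (by omega)]
      apply mul_lt_mul_of_pos_left _ hc
      have h2 : ((ℓ + 1 - (n + 1 + 1) : ℕ) : ℝ) / ℓ < ((ℓ + 1 - (n + 1) : ℕ) : ℝ) / ℓ := by
        apply div_lt_div_of_pos_right _ hℓ0
        exact_mod_cast (by omega : ℓ + 1 - (n + 1 + 1) < ℓ + 1 - (n + 1))
      linarith
    · rw [if_neg h1] at hn ⊢
      by_cases h2 : n + 1 ≤ ℓ
      · rw [if_pos h2, show n + 1 + 1 - (ℓ + 1) = 0 by omega, h0]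
        have h3 : (0 : ℝ) < ((ℓ + 1 - (n + 1) : ℕ) : ℝ) / ℓ := by
          apply div_pos _ hℓ0
          exact_mod_cast (by omega : 0 < ℓ + 1 - (n + 1))
        nlinarith
      · rw [if_neg h2]
        rw [show n + 1 + 1 - (ℓ + 1) = (n + 1 - (ℓ + 1)) + 1 by omega] at hn ⊢
        exact tw_top_dec h N _ hN hn
  · simp only [nextPhi]
    rw [if_pos (by omega)]
    positivity
  · simp only [nextPhi]
    rw [if_neg (by omega)]
    exact tw_top_supp h N _ (by omega)

end

/-- The ends of the profiles. -/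
def Esup (N ell : ℕ → ℕ) : ℕ → ℕ
  | 0 => ell 0
  | i + 1 => ell (i + 1) + N i + Esup N ell i

theorem Phi_good (N ell : ℕ → ℕ) (hN : ∀ i, 1 ≤ N i) (hℓ : ∀ i, 1 ≤ ell i) (i : ℕ) :
    GoodProf (fun n => Phi N ell i (n + 1)) (Esup N ell i) := by
  induction i with
  | zero =>
    have hℓ0 : (0 : ℝ) < ell 0 := by exact_mod_cast hℓ 0
    refine ⟨fun n => ?_, fun n hn => ?_, ?_, fun n hn => ?_⟩
    · simp only [Phi]
      split_ifs <;> positivity
    · simp only [Phi] at hn ⊢
      by_cases h1 : n + 1 + 1 ≤ ell 0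
      · rw [if_pos h1, if_pos (by omega)]
        have h2 : ((ell 0 + 1 - (n + 1 + 1) : ℕ) : ℝ) / ell 0 <
            ((ell 0 + 1 - (n + 1) : ℕ) : ℝ) / ell 0 := by
          apply div_lt_div_of_pos_right _ hℓ0
          exact_mod_cast (by omega : ell 0 + 1 - (n + 1 + 1) < ell 0 + 1 - (n + 1))
        linarith
      · rw [if_neg h1] at hn
        exact absurd hn (lt_irrefl 0)
    · simp only [Phi]
      rw [if_pos (hℓ 0)]
      positivity
    · simp only [Phi, Esup] at hn ⊢
      rw [if_neg (by omega)]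
  | succ i ih => exact nextPhi_good ih (N i) (ell (i + 1)) (hN i) (hℓ (i + 1))

/-- The types of the vertices: `trunk i t` is the `t`-th vertex of a trunk of level `i`,
`path i D` is the vertex at distance `D` from the trunk of level `i` on the path which joins a
trunk of level `i - 1` to it. -/
inductive Ty
  | trunk (i t : ℕ)
  | path (i D : ℕ)
deriving DecidableEq

/-- The amount at a vertex of type `κ` at time `n`. -/
noncomputable def wt (N ell : ℕ → ℕ) : Ty → ℕ → ℝ
  | Ty.trunk i t, n => tw (N i) (fun n => Phi N ell i (n + 1)) t n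
  | Ty.path i D, n => Phi N ell i (D + n)

/-- The types of the children. -/
def kids (N ell : ℕ → ℕ) : Ty → Finset Ty
  | Ty.trunk i t => if 2 ≤ t then {Ty.path i 1, Ty.trunk i (t - 1)} else {Ty.path i 1}
  | Ty.path i D => if D < ell i then {Ty.path i (D + 1)} else
      match i with
      | 0 => ∅
      | i + 1 => {Ty.trunk i (N i)}

/-- The types which occur. -/
def Valid (N ell : ℕ → ℕ) : Ty → Prop
  | Ty.trunk i t => 1 ≤ t ∧ t ≤ N i
  | Ty.path i D => 1 ≤ D ∧ D ≤ ell i

section

variable (N ell : ℕ → ℕ) (hN : ∀ i, 1 ≤ N i) (hℓ : ∀ i, 1 ≤ ell i)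

include hN hℓ

theorem wt_nonneg (κ : Ty) (hκ : Valid N ell κ) (n : ℕ) : 0 ≤ wt N ell κ n := by
  rcases κ with ⟨i, t⟩ | ⟨i, D⟩
  · exact tw_nonneg (Phi_good N ell hN hℓ i) _ _ _
  · have h1 := (Phi_good N ell hN hℓ i).nonneg (D + n - 1)
    have h2 : D + n - 1 + 1 = D + n := by
      have := hκ.1
      omega
    simp only [h2] at h1
    exact h1

theorem wt_step (κ : Ty) (hκ : Valid N ell κ) (n : ℕ) :
    wt N ell κ (n + 1) = ∑ κ' ∈ kids N ell κ, wt N ell κ' n := by
  rcases κ with ⟨i, t⟩ | ⟨i, D⟩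
  · obtain ⟨h1, h2⟩ := hκ
    simp only [kids]
    by_cases ht : 2 ≤ t
    · rw [if_pos ht, sum_pair (by simp)]
      simp only [wt]
      rw [tw_succ _ _ _ ht, add_comm 1 n]
    · rw [if_neg ht, sum_singleton]
      have : t = 1 := by omega
      subst this
      simp only [wt]
      rw [tw_succ_one, add_comm 1 n]
  · obtain ⟨h1, h2⟩ := hκ
    simp only [kids]
    by_cases hD : D < ell i
    · rw [if_pos hD, sum_singleton]
      simp only [wt]
      congr 1
      omega
    · rw [if_neg hD]
      have hD' : D = ell i := le_antisymm h2 (not_lt.1 hD)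
      subst hD'
      rcases i with _ | i
      · simp only [sum_empty, wt, Phi]
        rw [if_neg (by omega)]
      · simp only [sum_singleton, wt, Phi]
        unfold nextPhi
        rw [if_neg (by omega)]
        congr 1
        omega

theorem wt_mono (κ κ' : Ty) (hκ : Valid N ell κ) (hκ' : κ' ∈ kids N ell κ) (n : ℕ)
    (hpos : 0 < wt N ell κ' n) : wt N ell κ' n < wt N ell κ n := by
  rcases κ with ⟨i, t⟩ | ⟨i, D⟩
  · obtain ⟨h1, h2⟩ := hκ
    have hside : ∀ n, 0 < wt N ell (Ty.path i 1) n →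
        wt N ell (Ty.path i 1) n < wt N ell (Ty.trunk i t) n := by
      intro n hn
      simp only [wt] at hn ⊢
      rw [add_comm 1 n] at hn ⊢
      exact side_lt (Phi_good N ell hN hℓ i) (N i) t n h1 hn
    simp only [kids] at hκ'
    by_cases ht : 2 ≤ t
    · rw [if_pos ht, mem_insert, mem_singleton] at hκ'
      rcases hκ' with rfl | rfl
      · exact hside n hpos
      · simp only [wt] at hpos ⊢
        have := tw_mono (Phi_good N ell hN hℓ i) (N i) (t - 1) n (by omega) (by omega) hpos
        rwa [show t - 1 + 1 = t by omega] at this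
    · rw [if_neg ht, mem_singleton] at hκ'
      subst hκ'
      exact hside n hpos
  · obtain ⟨h1, h2⟩ := hκ
    simp only [kids] at hκ'
    have hdec := (Phi_good N ell hN hℓ i).dec (D + n - 1)
    rw [show D + n - 1 + 1 = D + n by omega] at hdec
    by_cases hD : D < ell i
    · rw [if_pos hD, mem_singleton] at hκ'
      subst hκ'
      simp only [wt] at hpos ⊢
      rw [show D + 1 + n = D + n + 1 by omega] at hpos ⊢
      exact hdec hpos
    · rw [if_neg hD] at hκ'
      have hD' : D = ell i := le_antisymm h2 (not_lt.1 hD)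
      subst hD'
      rcases i with _ | i
      · simp at hκ'
      · rw [mem_singleton] at hκ'
        subst hκ'
        have h3 : Phi N ell (i + 1) (ell (i + 1) + n + 1) =
            wt N ell (Ty.trunk i (N i)) n := by
          simp only [wt, Phi]
          unfold nextPhi
          rw [if_neg (by omega)]
          congr 1
          omega
        rw [← h3] at hpos ⊢
        exact hdec hpos

theorem wt_zero_pos (κ : Ty) (hκ : Valid N ell κ) : 0 < wt N ell κ 0 := by
  rcases κ with ⟨i, t⟩ | ⟨i, D⟩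
  · obtain ⟨h1, h2⟩ := hκ
    simp only [wt]
    unfold tw
    rw [if_pos (by omega)]
    simp only [range_zero, sum_empty, add_zero]
    exact cw_pos (Phi_good N ell hN hℓ i) _ _
  · obtain ⟨h1, h2⟩ := hκ
    have h3 : (0 : ℝ) < ell i := by exact_mod_cast hℓ i
    simp only [wt, add_zero]
    rcases i with _ | i
    · simp only [Phi]
      rw [if_pos h2]
      positivity
    · simp only [Phi]
      unfold nextPhi
      rw [if_pos h2]
      have := cw_pos (Phi_good N ell hN hℓ i) (N i) (N i)
      positivity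

theorem wt_eventually (κ : Ty) (hκ : Valid N ell κ) : ∃ n₀, ∀ n, n₀ ≤ n → wt N ell κ n = 0 := by
  rcases κ with ⟨i, t⟩ | ⟨i, D⟩
  · exact ⟨N i + Esup N ell i, fun n hn => tw_supp (Phi_good N ell hN hℓ i) _ _ _ hκ.2 hn⟩
  · refine ⟨Esup N ell i, fun n hn => ?_⟩
    have h1 := (Phi_good N ell hN hℓ i).supp (D + n - 1) (by have := hκ.1; omega)
    have h2 : D + n - 1 + 1 = D + n := by
      have := hκ.1
      omega
    simp only [h2] at h1
    exact h1

end

end Pool.Agent.H71.Esc
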