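import Pool.Agent.H71.Esc.Model
import Pool.Agent.H71.Esc.Profile
import Pool.Agent.H71.Esc.Path

/-!
# The hierarchical forest in `ℤ ^ d`, in terms of coordinates
-/

set_option autoImplicit false

namespace Pool.Agent.H71.Esc

/-- The conditions on the side lengths. -/
structure Par (b H : ℕ → ℕ) : Prop where
  b16 : ∀ n, 16 ≤ b n
  beven : ∀ n, b n % 2 = 0
  bdvd : ∀ n, 2 * b n ∣ b (n + 2)
  bbig : ∀ n, 8 * b n ≤ b (n + 1)
  H8 : ∀ n, 8 ≤ H n
  Heven : ∀ n, H n % 2 = 0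
  Hsucc : ∀ n, H (n + 1) = b n * H n

/-- The number of planes used by the paths. -/
def ww (b : ℕ → ℕ) : ℕ → ℕ
  | 0 => 7
  | i + 1 => 2 * b i

/-- the unit vectors -/
def uv {d : ℕ} (c : Fin d) : Pt d := Pi.single c 1

/-- A system of coordinates. -/
structure Crd (d : ℕ) (b H : ℕ → ℕ) where
  a : ℕ → Pt d → ℕ
  z : ℕ → Pt d → ℕ
  E : Pt d → Prop
  ax : ℕ → Fin d
  az : Fin d
  ax_ne : ∀ n, ax n ≠ ax (n + 1)
  ax_two : ∀ n, ax (n + 2) = ax n
  az_ne : ∀ n, ax n ≠ az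
  a_lt : ∀ n x, a n x < 2 * b n
  a_mod : ∀ n x, a (n + 2) x % (2 * b n) = a n x
  a_step : ∀ n x, a n (x + uv (ax n)) = (a n x + 1) % (2 * b n)
  a_const : ∀ n x c, c ≠ ax n → a n (x + uv c) = a n x
  z_lt : ∀ n x, z n x < H n
  z_mod : ∀ n x, z (n + 1) x % H n = z n x
  z_step : ∀ n x, z n (x + uv az) = (z n x + 1) % H n
  z_const : ∀ n x c, c ≠ az → z n (x + uv c) = z n x
  E_const : ∀ x c, (c = az ∨ ∃ n, c = ax n) → (E (x + uv c) ↔ E x)
  E_step : ∀ x c, c ≠ az → (∀ n, c ≠ ax n) → E x → ¬ E (x + uv c)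

/-- the side of the central plane -/
def sd (h Y : ℕ) : ℕ := if h ≤ Y then 0 else 1

/-- the distance from the central plane -/
def qq (h Y : ℕ) : ℕ := if h ≤ Y then Y - h else h - 1 - Y

namespace Crd

variable {d : ℕ} {b H : ℕ → ℕ} (C : Crd d b H)

/-- The cell of level `i` of `x` is in use in the cell of the next level. -/
def Act (i : ℕ) (x : Pt d) : Prop :=
  2 * b i ≤ qq (b (i + 2)) (C.a (i + 2) x) ∧ qq (b (i + 2)) (C.a (i + 2) x) + 2 * b i < b (i + 2)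

/-- All cells from level `i` on are in use. -/
def Live (i : ℕ) (x : Pt d) : Prop := ∀ j, i ≤ j → C.Act j x

/-- The outward vector. -/
def ov (c : Fin d) (s : ℕ) : Pt d := if s = 0 then uv c else - uv c

/-- The vector of a direction. -/
def mvec (i s : ℕ) : Mv → Pt d
  | Mv.Xp => uv (C.ax i)
  | Mv.Xm => - uv (C.ax i)
  | Mv.Qp => ov (C.ax (i + 1)) s
  | Mv.Qm => - ov (C.ax (i + 1)) s
  | Mv.Zp => uv C.az
  | Mv.Zm => - uv C.az

/-- the side at level `n` -/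
def S (n : ℕ) (x : Pt d) : ℕ := sd (b n) (C.a n x)

/-- the distance from the central plane at level `n` -/
def Q (n : ℕ) (x : Pt d) : ℕ := qq (b n) (C.a n x)

/-- `x` is a vertex of a path of level `i`. -/
def PN (i D : ℕ) (x : Pt d) : Prop :=
  C.Live i x ∧ PathPt (b i) (H i) (ww b i) (C.a i x) (C.S (i + 1) x) (C.Q (i + 1) x)
    (C.z (i + 1) x) D

/-- `x` is a vertex of a trunk of level `i`. -/
def TN (i t : ℕ) (x : Pt d) : Prop :=
  C.Live i x ∧ C.a (i + 1) x = b (i + 1) ∧ C.z (i + 1) x = 0 ∧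
    t + 2 * b i + C.Q (i + 2) x = b (i + 2)

/-- `x` is a vertex of type `κ` with parent `x + v`. -/
def Node (x : Pt d) (κ : Ty) (v : Pt d) : Prop :=
  C.E x ∧ ((∃ i D, κ = Ty.path i D ∧ C.PN i D x ∧
      v = C.mvec i (C.S (i + 1) x) (pd (b i) (H i) (C.a i x) (C.S (i + 1) x) (C.Q (i + 1) x)
        (C.z (i + 1) x))) ∨
    (∃ i t, κ = Ty.trunk i t ∧ C.TN i t x ∧ v = - ov (C.ax i) (C.S (i + 2) x)))

end Crd

end Pool.Agent.H71.Esc
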