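import Pool.Agent.H71.Esc.Geo

/-!
# Moves
-/

set_option autoImplicit false

namespace Pool.Agent.H71.Esc

namespace Crd

variable {d : ℕ} {b H : ℕ → ℕ} (C : Crd d b H)

/-- The frame of a move along the axis of level `n`: `y` is above `x`. -/
structure Up (n : ℕ) (x y : Pt d) : Prop where
  eq : y = x + uv (C.ax n)
  a_eq : C.a n y = C.a n x + 1
  z_eq : ∀ m, C.z m y = C.z m x
  E_iff : C.E y ↔ C.E x
  act : ∀ j, n ≤ j → (C.Act j y ↔ C.Act j x)
  sym : ∀ m, C.ax m ≠ C.ax n → C.a m y = C.a m x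

/-- The frame of a vertical move. -/
structure UpZ (n : ℕ) (x y : Pt d) : Prop where
  eq : y = x + uv C.az
  z_eq : C.z n y = C.z n x + 1
  a_eq : ∀ m, C.a m y = C.a m x
  E_iff : C.E y ↔ C.E x
  act : ∀ j, (C.Act j y ↔ C.Act j x)

/-- The frame of a move along the axis of level `n`, in any direction: from `x` to `y`. -/
structure Fr (n : ℕ) (x y : Pt d) : Prop where
  sym : ∀ m, C.ax m ≠ C.ax n → C.a m y = C.a m x
  z_eq : ∀ m, C.z m y = C.z m x
  E_iff : C.E y ↔ C.E x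
  act : ∀ j, n ≤ j → (C.Act j y ↔ C.Act j x)

variable (P : Par b H)

include P

omit P in
lemma nw_ne {n : ℕ} {x : Pt d} (h : C.a n x + 1 < 2 * b n) (T : ℕ) (hT : 2 * b n ∣ T) :
    C.a (n + 2) x + 1 ≠ T := by
  intro h1
  have h2 : (C.a (n + 2) x + 1) % (2 * b n) = C.a n x + 1 := by
    rw [← Nat.mod_add_mod, C.a_mod, Nat.mod_eq_of_lt h]
  rw [h1, Nat.mod_eq_zero_of_dvd hT] at h2
  omega

lemma nw_up {n : ℕ} {x : Pt d} (h : C.a n x + 1 < 2 * b n) :
    C.a (n + 2) x + 1 < 2 * b (n + 2) := by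
  have h1 := C.a_lt (n + 2) x
  have h2 := C.nw_ne h (2 * b (n + 2)) (dvd_mul_of_dvd_right (P.bdvd n) 2)
  omega

lemma nw_up' {n : ℕ} {x : Pt d} (h : C.a n x + 1 < 2 * b n) (k : ℕ) :
    C.a (n + 2 * k) x + 1 < 2 * b (n + 2 * k) := by
  induction k with
  | zero => exact h
  | succ k ih => exact C.nw_up P ih

omit P in
lemma ax_add (n k : ℕ) : C.ax (n + 2 * k) = C.ax n := by
  induction k with
  | zero => rfl
  | succ k ih => rw [← ih, show n + 2 * (k + 1) = n + 2 * k + 2 by ring, C.ax_two]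

omit P in
lemma a_up {n : ℕ} {x : Pt d} (h : C.a n x + 1 < 2 * b n) :
    C.a n (x + uv (C.ax n)) = C.a n x + 1 := by
  rw [C.a_step, Nat.mod_eq_of_lt h]

lemma act_one {n : ℕ} {x : Pt d} (h : C.a n x + 1 < 2 * b n) :
    C.Act n (x + uv (C.ax n)) ↔ C.Act n x := by
  have hup := C.nw_up P h
  have h1 : C.a (n + 2) (x + uv (C.ax n)) = C.a (n + 2) x + 1 := by
    have := C.a_up hup
    rwa [C.ax_two] at this
  have hd := P.bdvd n
  have hb := P.b16 n
  have hbb := P.bbig n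
  have hbb' := P.bbig (n + 1)
  have hL : 2 * b n ≤ b (n + 2) := by
    have : b (n + 1 + 1) = b (n + 2) := rfl
    omega
  have t1 := C.nw_ne h (b (n + 2)) hd
  have t2 := C.nw_ne h (b (n + 2) + 2 * b n) (dvd_add hd dvd_rfl)
  have t3 := C.nw_ne h (2 * b (n + 2) - 2 * b n)
    (Nat.dvd_sub (dvd_mul_of_dvd_right hd 2) dvd_rfl)
  have t4 := C.nw_ne h (b (n + 2) - 2 * b n) (Nat.dvd_sub hd dvd_rfl)
  have t5 := C.nw_ne h (2 * b n) dvd_rfl
  have h2 := C.a_lt (n + 2) x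
  unfold Act qq
  rw [h1]
  split_ifs <;> omega

lemma act_up {n : ℕ} {x : Pt d} (h : C.a n x + 1 < 2 * b n) {j : ℕ} (hj : n ≤ j) :
    C.Act j (x + uv (C.ax n)) ↔ C.Act j x := by
  obtain ⟨k, rfl | rfl⟩ : ∃ k, j = n + 2 * k ∨ j = n + 2 * k + 1 := by
    obtain ⟨m, rfl⟩ := Nat.exists_eq_add_of_le hj
    rcases Nat.even_or_odd' m with ⟨k, rfl | rfl⟩
    · exact ⟨k, Or.inl rfl⟩
    · exact ⟨k, Or.inr rfl⟩
  · have h1 := C.act_one P (C.nw_up' P h k)
    rwa [C.ax_add] at h1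
  · have hne : C.ax n ≠ C.ax (n + 2 * k + 1 + 2) := by
      rw [C.ax_two, ← C.ax_add n k]
      exact C.ax_ne _
    unfold Act
    rw [C.a_const _ _ _ hne]

lemma up_of_lt {n : ℕ} {x : Pt d} (h : C.a n x + 1 < 2 * b n) : C.Up n x (x + uv (C.ax n)) := by
  have hne : ∀ m, C.ax m ≠ C.ax n → C.a m (x + uv (C.ax n)) = C.a m x := fun m hm =>
    C.a_const _ _ _ (Ne.symm hm)
  refine ⟨rfl, C.a_up h, fun m => ?_, ?_, fun j hj => ?_, hne⟩
  · exact C.z_const _ _ _ (C.az_ne n)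
  · exact C.E_const _ _ (Or.inr ⟨n, rfl⟩)
  · exact C.act_up P h hj

lemma up_of_pos {n : ℕ} {x : Pt d} (h : 1 ≤ C.a n x) : C.Up n (x - uv (C.ax n)) x := by
  have h1 := C.a_step n (x - uv (C.ax n))
  rw [sub_add_cancel] at h1
  have h2 := C.a_lt n (x - uv (C.ax n))
  have h3 : C.a n (x - uv (C.ax n)) + 1 < 2 * b n := by
    by_contra h4
    have h5 : C.a n (x - uv (C.ax n)) + 1 = 2 * b n := by omega
    rw [h5, Nat.mod_self] at h1
    omega
  have := C.up_of_lt P h3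
  rwa [sub_add_cancel] at this

omit P in
lemma upz_aux (x : Pt d) : (∀ m, C.a m (x + uv C.az) = C.a m x) ∧
    (C.E (x + uv C.az) ↔ C.E x) ∧ (∀ j, (C.Act j (x + uv C.az) ↔ C.Act j x)) := by
  have h1 : ∀ m, C.a m (x + uv C.az) = C.a m x := fun m =>
    C.a_const _ _ _ (C.az_ne m).symm
  refine ⟨h1, C.E_const _ _ (Or.inl rfl), fun j => ?_⟩
  unfold Act
  rw [h1]

omit P in
lemma upz_of_lt {n : ℕ} {x : Pt d} (h : C.z n x + 1 < H n) : C.UpZ n x (x + uv C.az) := by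
  obtain ⟨h1, h2, h3⟩ := C.upz_aux x
  refine ⟨rfl, ?_, h1, h2, h3⟩
  rw [C.z_step, Nat.mod_eq_of_lt h]

omit P in
lemma upz_of_pos {n : ℕ} {x : Pt d} (h : 1 ≤ C.z n x) : C.UpZ n (x - uv C.az) x := by
  have h1 := C.z_step n (x - uv C.az)
  rw [sub_add_cancel] at h1
  have h2 := C.z_lt n (x - uv C.az)
  have h3 : C.z n (x - uv C.az) + 1 < H n := by
    by_contra h4
    have h5 : C.z n (x - uv C.az) + 1 = H n := by omega
    rw [h5, Nat.mod_self] at h1
    omega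
  have := C.upz_of_lt h3
  rwa [sub_add_cancel] at this

omit P in
lemma S_le (n : ℕ) (x : Pt d) : C.S n x ≤ 1 := by
  unfold S sd
  split_ifs <;> omega

omit P in
lemma Up.fr {n : ℕ} {x y : Pt d} (h : C.Up n x y) : C.Fr n x y :=
  ⟨h.sym, h.z_eq, h.E_iff, h.act⟩

omit P in
lemma Up.fr' {n : ℕ} {x y : Pt d} (h : C.Up n x y) : C.Fr n y x :=
  ⟨fun m hm => (h.sym m hm).symm, fun m => (h.z_eq m).symm, h.E_iff.symm,
    fun j hj => (h.act j hj).symm⟩

/-- The outward move. -/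
lemma out {n : ℕ} {x : Pt d} (h : C.Q n x + 1 < b n) :
    C.Fr n x (x + ov (C.ax n) (C.S n x)) ∧
      C.S n (x + ov (C.ax n) (C.S n x)) = C.S n x ∧
      C.Q n (x + ov (C.ax n) (C.S n x)) = C.Q n x + 1 := by
  have hlt := C.a_lt n x
  by_cases hs : b n ≤ C.a n x
  · have h1 : C.S n x = 0 := if_pos hs
    have h2 : C.Q n x = C.a n x - b n := if_pos hs
    rw [h2] at h
    have hu := C.up_of_lt P (show C.a n x + 1 < 2 * b n by omega)
    rw [h1, show ov (C.ax n) 0 = uv (C.ax n) from if_pos rfl]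
    refine ⟨hu.fr, ?_, ?_⟩
    · unfold S sd
      rw [hu.a_eq, if_pos (by omega)]
    · rw [h2]
      unfold Q qq
      rw [hu.a_eq, if_pos (by omega)]
      omega
  · have h1 : C.S n x = 1 := if_neg hs
    have h2 : C.Q n x = b n - 1 - C.a n x := if_neg hs
    rw [h2] at h
    have hu := C.up_of_pos P (show 1 ≤ C.a n x by omega)
    have ha := hu.a_eq
    rw [h1, show ov (C.ax n) 1 = - uv (C.ax n) from if_neg one_ne_zero, ← sub_eq_add_neg]
    refine ⟨hu.fr', ?_, ?_⟩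
    · unfold S sd
      rw [if_neg (by omega)]
    · rw [h2]
      unfold Q qq
      rw [if_neg (by omega)]
      omega

/-- The inward move. -/
lemma inn {n : ℕ} {x : Pt d} (h : 1 ≤ C.Q n x) :
    C.Fr n x (x - ov (C.ax n) (C.S n x)) ∧
      C.S n (x - ov (C.ax n) (C.S n x)) = C.S n x ∧
      C.Q n (x - ov (C.ax n) (C.S n x)) + 1 = C.Q n x := by
  have hlt := C.a_lt n x
  by_cases hs : b n ≤ C.a n x
  · have h1 : C.S n x = 0 := if_pos hs
    have h2 : C.Q n x = C.a n x - b n := if_pos hs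
    rw [h2] at h
    have hu := C.up_of_pos P (show 1 ≤ C.a n x by omega)
    have ha := hu.a_eq
    rw [h1, show ov (C.ax n) 0 = uv (C.ax n) from if_pos rfl]
    refine ⟨hu.fr', ?_, ?_⟩
    · unfold S sd
      rw [if_pos (by omega)]
    · rw [h2]
      unfold Q qq
      rw [if_pos (by omega)]
      omega
  · have h1 : C.S n x = 1 := if_neg hs
    have h2 : C.Q n x = b n - 1 - C.a n x := if_neg hs
    rw [h2] at h
    have hu := C.up_of_lt P (show C.a n x + 1 < 2 * b n by omega)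
    have ha := hu.a_eq
    rw [h1, show ov (C.ax n) 1 = - uv (C.ax n) from if_neg one_ne_zero, sub_neg_eq_add]
    refine ⟨hu.fr, ?_, ?_⟩
    · unfold S sd
      rw [if_neg (by omega)]
    · rw [h2]
      unfold Q qq
      rw [if_neg (by omega)]
      omega

omit P in
lemma Fr.SQ {n m : ℕ} {x y : Pt d} (h : C.Fr n x y) (hm : C.ax m ≠ C.ax n) :
    C.S m y = C.S m x ∧ C.Q m y = C.Q m x := by
  unfold S Q
  rw [h.sym m hm]
  exact ⟨rfl, rfl⟩

omit P in
lemma Fr.live {n i : ℕ} {x y : Pt d} (h : C.Fr n x y) (hi : n ≤ i) :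
    C.Live i y ↔ C.Live i x := by
  unfold Live
  constructor
  · intro h1 j hj
    exact (h.act j (hi.trans hj)).1 (h1 j hj)
  · intro h1 j hj
    exact (h.act j (hi.trans hj)).2 (h1 j hj)

omit P in
/-- A move along the axis of level `i + 1` does not change `Act i`. -/
lemma Fr.live' {i : ℕ} {x y : Pt d} (h : C.Fr (i + 1) x y) : C.Live i y ↔ C.Live i x := by
  have h0 : C.Act i y ↔ C.Act i x := by
    have := h.sym (i + 2) (by rw [C.ax_two]; exact C.ax_ne i)
    unfold Act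
    rw [this]
  unfold Live
  constructor
  · intro h1 j hj
    rcases Nat.eq_or_lt_of_le hj with rfl | hj'
    · exact h0.1 (h1 i le_rfl)
    · exact (h.act j hj').1 (h1 j hj)
  · intro h1 j hj
    rcases Nat.eq_or_lt_of_le hj with rfl | hj'
    · exact h0.2 (h1 i le_rfl)
    · exact (h.act j hj').2 (h1 j hj)

omit P in
lemma live_succ (i : ℕ) (x : Pt d) : C.Live i x ↔ C.Act i x ∧ C.Live (i + 1) x := by
  unfold Live
  constructor
  · intro h
    exact ⟨h i le_rfl, fun j hj => h j (by omega)⟩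
  · rintro ⟨h1, h2⟩ j hj
    rcases Nat.eq_or_lt_of_le hj with rfl | hj'
    · exact h1
    · exact h2 j hj'

end Crd

end Pool.Agent.H71.Esc
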