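import Pool.Agent.H71.Esc.Geo2

/-!
# Parents and children
-/

set_option autoImplicit false

namespace Pool.Agent.H71.Esc

section

variable {r g w : ℕ}

lemma PathPt.q_lt {σ sd q Z D : ℕ} (P : PP r g w) (h : PathPt r g w σ sd q Z D) : q < w := by
  have hw := P.hw
  rcases h with h | h | h | h | h | ⟨h5, _⟩ | ⟨_, h5, _⟩ <;> omega

lemma PathPt.not_center {σ Z D : ℕ} (h : PathPt r g w σ 0 0 Z D) : False := by
  rcases h with h | h | h | h | h | ⟨h5, _⟩ | ⟨h6, h5, _⟩ <;> omega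

lemma PathPt.uniq {σ sd q Z D D' : ℕ} (P : PP r g w) (h : PathPt r g w σ sd q Z D)
    (h' : PathPt r g w σ sd q Z D') : D = D' := by
  rcases h with h | h | h | h | h | ⟨h0, s, hs, hs2, hZ, hb, hD⟩ | ⟨h0, h1, h2, _, hD⟩
  · rcases h' with h' | h' | h' | h' | h' | ⟨h5, _⟩ | ⟨h5, _⟩ <;> omega
  · rcases h' with h' | h' | h' | h' | h' | ⟨h5, _⟩ | ⟨h5, _⟩ <;> omega
  · rcases h' with h' | h' | h' | h' | h' | ⟨h5, _⟩ | ⟨h5, _⟩ <;> omega
  · rcases h' with h' | h' | h' | h' | h' | ⟨h5, _⟩ | ⟨h5, _⟩ <;> omega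
  · rcases h' with h' | h' | h' | h' | h' | ⟨h5, _⟩ | ⟨h5, _⟩ <;> omega
  · rcases h' with h' | h' | h' | h' | h' | ⟨_, s', hs', hs2', hZ', hb', hD'⟩ | ⟨h5, _⟩
    · omega
    · omega
    · omega
    · omega
    · omega
    · have e1 : s / 2 = s' / 2 := mul_g_inj P (hZ ▸ hZ')
      have e2 : s = s' := by omega
      subst e2
      omega
    · omega
  · rcases h' with h' | h' | h' | h' | h' | ⟨h5, _⟩ | ⟨h5, _, _, _, h6⟩ <;> omega

lemma nd_big {σ q Z : ℕ} (h : 6 ≤ q) : nd r g σ q Z = Mv.Qp := by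
  have h3 : q ≠ 1 := by omega
  have h4 : q ≠ 3 := by omega
  have h5 : q ≠ 5 := by omega
  simp only [nd, h3, h4, h5, false_and, if_false]

end

lemma Par.pp {b H : ℕ → ℕ} (P : Par b H) (i : ℕ) : PP (b i) (H i) (ww b i) := by
  refine ⟨by have := P.b16 i; omega, P.beven i, P.H8 i, P.Heven i, ?_⟩
  rcases i with _ | i
  · exact le_rfl
  · have := P.b16 i
    show 7 ≤ 2 * b i
    omega

lemma Par.ww_lt {b H : ℕ → ℕ} (P : Par b H) (i : ℕ) : 2 * ww b i ≤ b (i + 1) := by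
  rcases i with _ | i
  · have := P.b16 1
    show 2 * 7 ≤ b 1
    omega
  · have h1 := P.bbig i
    have h2 := P.bbig (i + 1)
    show 2 * (2 * b i) ≤ b (i + 1 + 1)
    omega

lemma pathpt_congr {r g w σ σ' s s' q q' Z Z' D D' : ℕ} (h : PathPt r g w σ s q Z D)
    (h1 : σ' = σ) (h2 : s' = s) (h3 : q' = q) (h4 : Z' = Z) (h5 : D' = D) :
    PathPt r g w σ' s' q' Z' D' := by
  subst h1 h2 h3 h4 h5
  exact h

/-- The numbers of vertices of the trunks. -/
def NN (b : ℕ → ℕ) (i : ℕ) : ℕ := b (i + 2) - 4 * b i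

/-- The numbers of vertices of the paths. -/
def LL (b H : ℕ → ℕ) (i : ℕ) : ℕ := b i * (H i + 1) + ww b i - 1

namespace Crd

variable {d : ℕ} {b H : ℕ → ℕ} (C : Crd d b H)

lemma center_iff (n : ℕ) (x : Pt d) :
    C.a n x = b n ↔ C.S n x = 0 ∧ C.Q n x = 0 := by
  unfold S Q sd qq
  constructor
  · intro h
    rw [h, if_pos le_rfl, if_pos le_rfl]
    exact ⟨rfl, Nat.sub_self _⟩
  · rintro ⟨h1, h2⟩
    by_cases h : b n ≤ C.a n x
    · rw [if_pos h] at h2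
      omega
    · rw [if_neg h] at h1
      omega

/-- the class of `x` is `i` -/
def Cls (i : ℕ) (x : Pt d) : Prop := C.Live i x ∧ C.Q (i + 1) x < ww b i

lemma Cls.not_lt {i j : ℕ} {x : Pt d} (hi : C.Cls i x) (hj : C.Cls j x) : ¬ i < j := by
  intro hij
  obtain ⟨k, rfl⟩ : ∃ k, j = k + 1 := ⟨j - 1, by omega⟩
  have h1 := (hi.1 k (by omega)).1
  have h2 := hj.2
  have h3 : ww b (k + 1) = 2 * b k := rfl
  rw [h3] at h2
  unfold Q at h2
  have h4 : k + 1 + 1 = k + 2 := rfl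
  rw [h4] at h2
  omega

lemma Cls.eq {i j : ℕ} {x : Pt d} (hi : C.Cls i x) (hj : C.Cls j x) : i = j := by
  have h1 := hi.not_lt C hj
  have h2 := hj.not_lt C hi
  omega

/-- the vector from a vertex of type `κ` to its child of type `κ'` -/
noncomputable def cvec (x : Pt d) : Ty → Ty → Pt d
  | Ty.path i _, _ => C.mvec i (C.S (i + 1) x)
      (nd (b i) (H i) (C.a i x) (C.Q (i + 1) x) (C.z (i + 1) x))
  | Ty.trunk i _, Ty.path _ _ => if C.a i x % 2 = 0 then uv (C.ax (i + 1))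
      else - uv (C.ax (i + 1))
  | Ty.trunk i _, Ty.trunk _ _ => ov (C.ax i) (C.S (i + 2) x)

variable (P : Par b H)

include P

lemma PN.cls {i D : ℕ} {x : Pt d} (h : C.PN i D x) : C.Cls i x :=
  ⟨h.1, h.2.q_lt (P.pp i)⟩

omit P in
lemma TN.center {i t : ℕ} {x : Pt d} (h : C.TN i t x) :
    C.S (i + 1) x = 0 ∧ C.Q (i + 1) x = 0 :=
  (C.center_iff (i + 1) x).1 h.2.1

lemma TN.cls {i t : ℕ} {x : Pt d} (h : C.TN i t x) : C.Cls i x := by
  refine ⟨h.1, ?_⟩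
  rw [(h.center C).2]
  have := (P.pp i).hw
  omega

omit P in
lemma PN.not_TN {i D t : ℕ} {x : Pt d} (h : C.PN i D x) (h' : C.TN i t x) : False := by
  obtain ⟨h1, h2⟩ := h'.center C
  have h3 := h.2
  rw [h1, h2] at h3
  exact h3.not_center

theorem node_unique {x : Pt d} {κ κ' : Ty} {v v' : Pt d} (h : C.Node x κ v)
    (h' : C.Node x κ' v') : κ = κ' ∧ v = v' := by
  rcases h with ⟨_, ⟨i, D, rfl, h1, rfl⟩ | ⟨i, t, rfl, h1, rfl⟩⟩
  · rcases h' with ⟨_, ⟨i', D', rfl, h1', rfl⟩ | ⟨i', t', rfl, h1', rfl⟩⟩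
    · have := (h1.cls C P).eq C (h1'.cls C P)
      subst this
      have := h1.2.uniq (P.pp i) h1'.2
      subst this
      exact ⟨rfl, rfl⟩
    · have := (h1.cls C P).eq C (h1'.cls C P)
      subst this
      exact absurd h1' (fun h => h1.not_TN C h)
  · rcases h' with ⟨_, ⟨i', D', rfl, h1', rfl⟩ | ⟨i', t', rfl, h1', rfl⟩⟩
    · have := (h1.cls C P).eq C (h1'.cls C P)
      subst this
      exact absurd h1 (fun h => h1'.not_TN C h)
    · have := (h1.cls C P).eq C (h1'.cls C P)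
      subst this
      have e1 := h1.2.2.2
      have e2 := h1'.2.2.2
      have : t = t' := by omega
      subst this
      exact ⟨rfl, rfl⟩

theorem node_valid {x : Pt d} {κ : Ty} {v : Pt d} (h : C.Node x κ v) :
    Valid (NN b) (LL b H) κ := by
  rcases h with ⟨_, ⟨i, D, rfl, h1, rfl⟩ | ⟨i, t, rfl, h1, rfl⟩⟩
  · exact ⟨h1.2.D_pos (P.pp i) (C.a_lt i x), (h1.2.D_le (P.pp i) (C.a_lt i x)).1⟩
  · have h2 := h1.1 i le_rfl
    have h3 := h1.2.2.2
    unfold Act at h2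
    unfold Q at h3
    show 1 ≤ t ∧ t ≤ b (i + 2) - 4 * b i
    omega

end Crd

end Pool.Agent.H71.Esc
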