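import Pool.Agent.H71.Esc.Geo3

/-!
# Parents
-/

set_option autoImplicit false

namespace Pool.Agent.H71.Esc

namespace Crd

variable {d : ℕ} {b H : ℕ → ℕ} (C : Crd d b H) (P : Par b H)

include P

omit P in
lemma ax_ne' (n : ℕ) : C.ax (n + 1) ≠ C.ax n := (C.ax_ne n).symm

lemma z_mul {i : ℕ} {x : Pt d} (h : C.z i x = 0) : ∃ j, j < b i ∧ C.z (i + 1) x = j * H i := by
  have h1 := C.z_mod i x
  rw [h] at h1
  have h2 := C.z_lt (i + 1) x
  obtain ⟨j, hj⟩ := Nat.dvd_of_mod_eq_zero h1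
  refine ⟨j, ?_, by rw [hj, mul_comm]⟩
  rw [P.Hsucc, hj, mul_comm] at h2
  exact Nat.lt_of_mul_lt_mul_right h2

omit P in
lemma z_zero {i j : ℕ} {x : Pt d} (h : C.z (i + 1) x = j * H i) : C.z i x = 0 := by
  rw [← C.z_mod i x, h, Nat.mul_mod_left]

/-- A vertex has a parent. -/
theorem exists_parent {x : Pt d} {κ : Ty} {v : Pt d} (h : C.Node x κ v) :
    ∃ κ' v', C.Node (x + v) κ' v' ∧ κ ∈ kids (NN b) (LL b H) κ' := by
  rcases h with ⟨hE, ⟨i, D, rfl, h1, rfl⟩ | ⟨i, t, rfl, h1, rfl⟩⟩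
  · have hpp := P.pp i
    have hp := exists_prev hpp (C.a_lt i x) (C.S_le (i + 1) x) h1.2
    have hDle := (h1.2.D_le hpp (C.a_lt i x)).1
    have hww := P.ww_lt i
    have hqlt := h1.2.q_lt hpp
    have hkid : ∀ D' : ℕ, 2 ≤ D → D' = D - 1 →
        Ty.path i D ∈ kids (NN b) (LL b H) (Ty.path i D') := by
      intro D' hD hD'
      subst hD'
      simp only [kids]
      rw [if_pos (show D - 1 < LL b H i by unfold LL; omega), Finset.mem_singleton,
        show D - 1 + 1 = D by omega]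
    have hP : ∀ (y : Pt d), C.E y → C.PN i (D - 1) y → 2 ≤ D →
        ∃ κ' v', C.Node y κ' v' ∧ Ty.path i D ∈ kids (NN b) (LL b H) κ' :=
      fun y hEy hy hD => ⟨_, _, ⟨hEy, Or.inl ⟨i, D - 1, rfl, hy, rfl⟩⟩, hkid _ hD rfl⟩
    rcases hp with ⟨hD, hpd, hZ, hcase⟩ | ⟨hD, hc | hc | hc | hc | hc⟩
    · -- the parent is on the trunk
      subst hD
      rw [hpd]
      show ∃ κ' v', C.Node (x + - ov (C.ax (i + 1)) (C.S (i + 1) x)) κ' v' ∧ _
      rw [← sub_eq_add_neg]
      have key : C.Fr (i + 1) x (x - ov (C.ax (i + 1)) (C.S (i + 1) x)) ∧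
          C.a (i + 1) (x - ov (C.ax (i + 1)) (C.S (i + 1) x)) = b (i + 1) := by
        rcases hcase with ⟨hs, hq, _⟩ | ⟨hs, hq, _⟩
        · obtain ⟨h2, h3, h4⟩ := C.inn P (show 1 ≤ C.Q (i + 1) x by omega)
          refine ⟨h2, (C.center_iff _ _).2 ⟨by omega, by omega⟩⟩
        · have h2 : C.a (i + 1) x + 1 = b (i + 1) := by
            have hb := P.b16 (i + 1)
            unfold S sd at hs
            unfold Q qq at hq
            split_ifs at hs with h3
            rw [if_neg h3] at hq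
            omega
          have hu := C.up_of_lt P (show C.a (i + 1) x + 1 < 2 * b (i + 1) by
            have hb := P.b16 (i + 1)
            omega)
          rw [hs, show ov (C.ax (i + 1)) 1 = - uv (C.ax (i + 1)) from if_neg one_ne_zero,
            sub_neg_eq_add]
          exact ⟨hu.fr, by rw [hu.a_eq, h2]⟩
      obtain ⟨hf, ha⟩ := key
      generalize x - ov (C.ax (i + 1)) (C.S (i + 1) x) = y at hf ha
      have hQ : C.Q (i + 2) y = C.Q (i + 2) x :=
        (hf.SQ C (by rw [C.ax_two]; exact C.ax_ne i)).2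
      have hact := h1.1 i le_rfl
      have hact' : 2 * b i ≤ C.Q (i + 2) x ∧ C.Q (i + 2) x + 2 * b i < b (i + 2) := hact
      refine ⟨Ty.trunk i (b (i + 2) - 2 * b i - C.Q (i + 2) x), _,
        ⟨hf.E_iff.2 hE, Or.inr ⟨i, _, rfl, ⟨(hf.live' C).2 h1.1, ha, ?_, ?_⟩, rfl⟩⟩, ?_⟩
      · rw [hf.z_eq, hZ]
      · rw [hQ]
        omega
      · simp only [kids]
        split_ifs
        · exact Finset.mem_insert_self _ _
        · exact Finset.mem_singleton_self _
    · -- up
      obtain ⟨hpd, hlt, hpt⟩ := hc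
      rw [hpd]
      have hu := C.upz_of_lt (n := i + 1) (x := x) (by rw [P.Hsucc]; exact hlt)
      refine hP _ (hu.E_iff.2 hE) ⟨fun j hj => (hu.act j).2 (h1.1 j hj), ?_⟩ hD
      refine pathpt_congr hpt (hu.a_eq i) ?_ ?_ hu.z_eq rfl
      · show sd _ (C.a (i + 1) (x + uv C.az)) = _
        rw [hu.a_eq]
        rfl
      · show qq _ (C.a (i + 1) (x + uv C.az)) = _
        rw [hu.a_eq]
        rfl
    · -- down
      obtain ⟨hpd, hlt, hpt⟩ := hc
      rw [hpd]
      have hu := C.upz_of_pos (n := i + 1) (x := x) hlt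
      show ∃ κ' v', C.Node (x + - uv C.az) κ' v' ∧ _
      rw [← sub_eq_add_neg]
      refine hP _ (hu.E_iff.1 hE) ⟨fun j hj => (hu.act j).1 (h1.1 j hj), ?_⟩ hD
      refine pathpt_congr hpt (hu.a_eq i).symm ?_ ?_ ?_ rfl
      · show sd _ (C.a (i + 1) (x - uv C.az)) = _
        rw [← hu.a_eq]
        rfl
      · show qq _ (C.a (i + 1) (x - uv C.az)) = _
        rw [← hu.a_eq]
        rfl
      · have := hu.z_eq
        omega
    · -- forward
      obtain ⟨hpd, hlt, hpt⟩ := hc
      rw [hpd]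
      have hu := C.up_of_lt P (n := i) (x := x) hlt
      have hsq := hu.fr.SQ C (C.ax_ne' i)
      refine hP _ (hu.E_iff.2 hE) ⟨(hu.fr.live C le_rfl).2 h1.1, ?_⟩ hD
      exact pathpt_congr hpt hu.a_eq hsq.1 hsq.2 (hu.z_eq _) rfl
    · -- backward
      obtain ⟨hpd, hlt, hpt⟩ := hc
      rw [hpd]
      have hu := C.up_of_pos P (n := i) (x := x) hlt
      show ∃ κ' v', C.Node (x + - uv (C.ax i)) κ' v' ∧ _
      rw [← sub_eq_add_neg]
      have hsq := hu.fr'.SQ C (C.ax_ne' i)
      refine hP _ (hu.fr'.E_iff.2 hE) ⟨(hu.fr'.live C le_rfl).2 h1.1, ?_⟩ hD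
      exact pathpt_congr hpt (by have := hu.a_eq; omega) hsq.1 hsq.2 (hu.fr'.z_eq _) rfl
    · -- inwards
      obtain ⟨hpd, hlt, hpt⟩ := hc
      rw [hpd]
      show ∃ κ' v', C.Node (x + - ov (C.ax (i + 1)) (C.S (i + 1) x)) κ' v' ∧ _
      rw [← sub_eq_add_neg]
      obtain ⟨h2, h3, h4⟩ := C.inn P hlt
      refine hP _ (h2.E_iff.2 hE) ⟨(h2.live' C).2 h1.1, ?_⟩ hD
      exact pathpt_congr hpt (h2.sym i (C.ax_ne i)) h3 (by omega) (h2.z_eq _) rfl
  · -- trunk
    have hact : 2 * b i ≤ C.Q (i + 2) x ∧ C.Q (i + 2) x + 2 * b i < b (i + 2) := h1.1 i le_rfl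
    have hb := P.b16 i
    obtain ⟨h2, h3, h4⟩ := C.inn P (show 1 ≤ C.Q (i + 2) x by omega)
    rw [← C.ax_two i, ← sub_eq_add_neg]
    generalize hy : x - ov (C.ax (i + 2)) (C.S (i + 2) x) = y at h2 h3 h4
    have ha : C.a (i + 1) y = b (i + 1) := by
      rw [h2.sym (i + 1) (by rw [C.ax_two]; exact C.ax_ne' i)]
      exact h1.2.1
    have hlive : C.Live (i + 1) y := by
      have h5 : C.Fr (i + 1 + 1) x y := h2
      exact (h5.live' C).2 ((C.live_succ i x).1 h1.1).2
    have ht := h1.2.2.2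
    by_cases hq : 2 * b i ≤ C.Q (i + 2) y
    · refine ⟨Ty.trunk i (t + 1), _, ⟨h2.E_iff.2 hE, Or.inr ⟨i, t + 1, rfl,
        ⟨(C.live_succ i y).2 ⟨⟨hq, ?_⟩, hlive⟩, ha, ?_, ?_⟩, rfl⟩⟩, ?_⟩
      · show C.Q (i + 2) y + 2 * b i < b (i + 2)
        omega
      · rw [h2.z_eq]
        exact h1.2.2.1
      · omega
      · simp only [kids]
        rw [if_pos (by omega), show t + 1 - 1 = t by omega]
        exact Finset.mem_insert_of_mem (Finset.mem_singleton_self _)
    · have hq' : C.Q (i + 2) y = 2 * b i - 1 := by omega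
      have hz : C.z (i + 1) y = 0 := by
        rw [h2.z_eq]
        exact h1.2.2.1
      obtain ⟨j, hj, hjz⟩ := C.z_mul P hz
      refine ⟨Ty.path (i + 1) (LL b H (i + 1)), _, ⟨h2.E_iff.2 hE, Or.inl ⟨i + 1, _, rfl,
        ⟨hlive, ?_⟩, rfl⟩⟩, ?_⟩
      · right; right; right; right; right; right
        refine ⟨?_, ?_, ha, ⟨j, hj, hjz⟩, ?_⟩
        · show 6 ≤ C.Q (i + 2) y
          omega
        · show C.Q (i + 2) y < 2 * b i
          omega
        · show b (i + 1) * (H (i + 1) + 1) + 2 * b i - 1 =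
            b (i + 1) * (H (i + 1) + 1) + C.Q (i + 2) y
          omega
      · simp only [kids]
        rw [if_neg (lt_irrefl _), Finset.mem_singleton]
        congr 1
        show t = b (i + 2) - 4 * b i
        omega

/-- Children. -/
theorem exists_child {x : Pt d} {κ : Ty} {v : Pt d} (h : C.Node x κ v) {κ' : Ty}
    (hκ : κ' ∈ kids (NN b) (LL b H) κ) :
    C.Node (x + C.cvec x κ κ') κ' (- C.cvec x κ κ') := by
  rcases h with ⟨hE, ⟨i, D, rfl, h1, rfl⟩ | ⟨i, t, rfl, h1, rfl⟩⟩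
  · have hpp := P.pp i
    have hp := exists_next hpp (C.a_lt i x) (C.S_le (i + 1) x) h1.2
    have hww := P.ww_lt i
    have hkid : ∀ σ s q Z : ℕ, σ < 2 * b i → PathPt (b i) (H i) (ww b i) σ s q Z (D + 1) →
        κ' = Ty.path i (D + 1) := by
      intro σ s q Z hσ hpt
      have := (hpt.D_le hpp hσ).1
      simp only [kids] at hκ
      rw [if_pos (show D < LL b H i by unfold LL; omega), Finset.mem_singleton] at hκ
      exact hκ
    rcases hp with hc | hc | hc | hc | hc
    · obtain ⟨hnd, hlt, hpt, hpd⟩ := hc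
      have hk := hkid _ _ _ _ (C.a_lt i x) hpt
      subst hk
      simp only [cvec, hnd]
      have hu := C.upz_of_lt (n := i + 1) (x := x) (by rw [P.Hsucc]; exact hlt)
      show C.Node (x + uv C.az) _ (- uv C.az)
      have hS : C.S (i + 1) (x + uv C.az) = C.S (i + 1) x := by
        show sd _ (C.a (i + 1) (x + uv C.az)) = _
        rw [hu.a_eq]
        rfl
      have hQ : C.Q (i + 1) (x + uv C.az) = C.Q (i + 1) x := by
        show qq _ (C.a (i + 1) (x + uv C.az)) = _
        rw [hu.a_eq]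
        rfl
      refine ⟨hu.E_iff.2 hE, Or.inl ⟨i, D + 1, rfl,
        ⟨fun j hj => (hu.act j).2 (h1.1 j hj), ?_⟩, ?_⟩⟩
      · exact pathpt_congr hpt (hu.a_eq i) hS hQ hu.z_eq rfl
      · rw [hS, hQ, hu.a_eq, hu.z_eq, hpd]
        rfl
    · obtain ⟨hnd, hlt, hpt, hpd⟩ := hc
      have hk := hkid _ _ _ _ (C.a_lt i x) hpt
      subst hk
      simp only [cvec, hnd]
      have hu := C.upz_of_pos (n := i + 1) (x := x) hlt
      show C.Node (x + - uv C.az) _ (- - uv C.az)
      rw [← sub_eq_add_neg, neg_neg]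
      have hz : C.z (i + 1) (x - uv C.az) = C.z (i + 1) x - 1 := by
        have := hu.z_eq
        omega
      have hS : C.S (i + 1) (x - uv C.az) = C.S (i + 1) x := by
        show sd _ (C.a (i + 1) (x - uv C.az)) = _
        rw [← hu.a_eq]
        rfl
      have hQ : C.Q (i + 1) (x - uv C.az) = C.Q (i + 1) x := by
        show qq _ (C.a (i + 1) (x - uv C.az)) = _
        rw [← hu.a_eq]
        rfl
      refine ⟨hu.E_iff.1 hE, Or.inl ⟨i, D + 1, rfl,
        ⟨fun j hj => (hu.act j).1 (h1.1 j hj), ?_⟩, ?_⟩⟩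
      · exact pathpt_congr hpt (hu.a_eq i).symm hS hQ hz rfl
      · rw [hS, hQ, ← hu.a_eq, hz, hpd]
        rfl
    · obtain ⟨hnd, hlt, hpt, hpd⟩ := hc
      have hk := hkid _ _ _ _ hlt hpt
      subst hk
      simp only [cvec, hnd]
      have hu := C.up_of_lt P (n := i) (x := x) hlt
      have hsq := hu.fr.SQ C (C.ax_ne' i)
      show C.Node (x + uv (C.ax i)) _ (- uv (C.ax i))
      refine ⟨hu.E_iff.2 hE, Or.inl ⟨i, D + 1, rfl, ⟨(hu.fr.live C le_rfl).2 h1.1, ?_⟩, ?_⟩⟩
      · exact pathpt_congr hpt hu.a_eq hsq.1 hsq.2 (hu.z_eq _) rfl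
      · rw [hsq.1, hsq.2, hu.a_eq, hu.z_eq, hpd]
        rfl
    · obtain ⟨hnd, hlt, hpt, hpd⟩ := hc
      have hk := hkid _ _ _ _ (by have := C.a_lt i x; omega) hpt
      subst hk
      simp only [cvec, hnd]
      have hu := C.up_of_pos P (n := i) (x := x) hlt
      have hsq := hu.fr'.SQ C (C.ax_ne' i)
      have ha : C.a i (x - uv (C.ax i)) = C.a i x - 1 := by
        have := hu.a_eq
        omega
      show C.Node (x + - uv (C.ax i)) _ (- - uv (C.ax i))
      rw [← sub_eq_add_neg, neg_neg]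
      refine ⟨hu.fr'.E_iff.2 hE, Or.inl ⟨i, D + 1, rfl,
        ⟨(hu.fr'.live C le_rfl).2 h1.1, ?_⟩, ?_⟩⟩
      · exact pathpt_congr hpt ha hsq.1 hsq.2 (hu.fr'.z_eq _) rfl
      · rw [hsq.1, hsq.2, ha, hu.fr'.z_eq, hpd]
        rfl
    · obtain ⟨hnd, hc⟩ := hc
      rcases hc with ⟨hlt, hpt, hpd⟩ | ⟨hD, hq⟩
      · have hk := hkid _ _ _ _ (C.a_lt i x) hpt
        subst hk
        simp only [cvec, hnd]
        have hq := hpt.q_lt hpp
        obtain ⟨h2, h3, h4⟩ := C.out P (show C.Q (i + 1) x + 1 < b (i + 1) by omega)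
        show C.Node (x + ov (C.ax (i + 1)) (C.S (i + 1) x)) _
          (- ov (C.ax (i + 1)) (C.S (i + 1) x))
        generalize hy : x + ov (C.ax (i + 1)) (C.S (i + 1) x) = y at h2 h3 h4
        refine ⟨h2.E_iff.2 hE, Or.inl ⟨i, D + 1, rfl, ⟨(h2.live' C).2 h1.1, ?_⟩, ?_⟩⟩
        · exact pathpt_congr hpt (h2.sym i (C.ax_ne i)) h3 h4 (h2.z_eq _) rfl
        · rw [h3, h4, h2.sym i (C.ax_ne i), h2.z_eq, hpd]
          rfl
      · -- the child is on a trunk of the previous level
        have hDL : ¬ (D < LL b H i) := by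
          unfold LL
          omega
        simp only [kids] at hκ
        rw [if_neg hDL] at hκ
        obtain ⟨hq1, hq6, hσ, jj, hjj, hjz⟩ := (h1.2.D_le hpp (C.a_lt i x)).2 (by omega)
        rcases i with _ | i
        · simp at hκ
        · rw [Finset.mem_singleton] at hκ
          subst hκ
          simp only [cvec, hnd]
          have hw : ww b (i + 1) = 2 * b i := rfl
          have hb1 := P.bbig i
          have hb2 := P.bbig (i + 1)
          have hb3 : b (i + 1 + 1) = b (i + 2) := rfl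
          have hQx : C.Q (i + 1 + 1) x + 1 = 2 * b i := by omega
          obtain ⟨h2, h3, h4⟩ := C.out P (n := i + 1 + 1) (x := x) (by omega)
          show C.Node (x + ov (C.ax (i + 1 + 1)) (C.S (i + 1 + 1) x)) _
            (- ov (C.ax (i + 1 + 1)) (C.S (i + 1 + 1) x))
          generalize hy : x + ov (C.ax (i + 1 + 1)) (C.S (i + 1 + 1) x) = y at h2 h3 h4
          have hlive : C.Live (i + 1) y := (h2.live' C).2 h1.1
          refine ⟨h2.E_iff.2 hE, Or.inr ⟨i, NN b i, rfl,
            ⟨(C.live_succ i y).2 ⟨⟨?_, ?_⟩, hlive⟩, ?_, ?_, ?_⟩, ?_⟩⟩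
          · show 2 * b i ≤ C.Q (i + 1 + 1) y
            omega
          · show C.Q (i + 1 + 1) y + 2 * b i < b (i + 2)
            omega
          · rw [h2.sym (i + 1) (C.ax_ne (i + 1))]
            exact hσ
          · rw [h2.z_eq]
            exact C.z_zero hjz
          · show b (i + 2) - 4 * b i + 2 * b i + C.Q (i + 1 + 1) y = b (i + 2)
            omega
          · rw [← C.ax_two i, h3]
  · -- trunk
    have hact : 2 * b i ≤ C.Q (i + 2) x ∧ C.Q (i + 2) x + 2 * b i < b (i + 2) := h1.1 i le_rfl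
    obtain ⟨hS, hQ⟩ := h1.center C
    have hpp := P.pp i
    have hb1 := P.b16 (i + 1)
    have ht := h1.2.2.2
    have hside : κ' = Ty.path i 1 → C.Node (x + C.cvec x (Ty.trunk i t) κ') κ'
        (- C.cvec x (Ty.trunk i t) κ') := by
      intro hk
      subst hk
      simp only [cvec]
      by_cases hpar : C.a i x % 2 = 0
      · rw [if_pos hpar]
        have ho := C.out P (show C.Q (i + 1) x + 1 < b (i + 1) by omega)
        rw [hS, show ov (C.ax (i + 1)) 0 = uv (C.ax (i + 1)) from if_pos rfl] at ho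
        obtain ⟨h2, h3, h4⟩ := ho
        generalize hy : x + uv (C.ax (i + 1)) = y at h2 h3 h4
        rw [hQ, zero_add] at h4
        have hpt : PathPt (b i) (H i) (ww b i) (C.a i y) (C.S (i + 1) y) (C.Q (i + 1) y)
            (C.z (i + 1) y) 1 := by
          right; left
          rw [h3, h4, h2.sym i (C.ax_ne i), h2.z_eq, h1.2.2.1]
          exact ⟨rfl, hpar, Nat.zero_le _, rfl⟩
        refine ⟨h2.E_iff.2 hE, Or.inl ⟨i, 1, rfl, ⟨(h2.live' C).2 h1.1, hpt⟩, ?_⟩⟩
        have hpd : pd (b i) (H i) (C.a i y) (C.S (i + 1) y) (C.Q (i + 1) y) (C.z (i + 1) y) =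
            Mv.Qm := by
          rw [h4, h2.z_eq, h1.2.2.1]
          simp [pd]
        rw [hpd, h3]
        rfl
      · rw [if_neg hpar, ← sub_eq_add_neg, neg_neg]
        have ha : C.a (i + 1) x = b (i + 1) := h1.2.1
        have hu := C.up_of_pos P (show 1 ≤ C.a (i + 1) x by omega)
        generalize hy : x - uv (C.ax (i + 1)) = y at hu
        have ha' : C.a (i + 1) y + 1 = b (i + 1) := by
          have := hu.a_eq
          omega
        have h3 : C.S (i + 1) y = 1 := by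
          unfold S sd
          rw [if_neg (by omega)]
        have h4 : C.Q (i + 1) y = 0 := by
          unfold Q qq
          rw [if_neg (by omega)]
          omega
        have h2 := hu.fr'
        have hpt : PathPt (b i) (H i) (ww b i) (C.a i y) (C.S (i + 1) y) (C.Q (i + 1) y)
            (C.z (i + 1) y) 1 := by
          left
          rw [h3, h4, h2.sym i (C.ax_ne i), h2.z_eq, h1.2.2.1]
          exact ⟨rfl, rfl, by omega, rfl, rfl⟩
        refine ⟨h2.E_iff.2 hE, Or.inl ⟨i, 1, rfl, ⟨(h2.live' C).2 h1.1, hpt⟩, ?_⟩⟩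
        have hpd : pd (b i) (H i) (C.a i y) (C.S (i + 1) y) (C.Q (i + 1) y) (C.z (i + 1) y) =
            Mv.Qm := by
          rw [h4, h2.z_eq, h1.2.2.1]
          simp [pd]
        rw [hpd, h3]
        show uv (C.ax (i + 1)) = - ov (C.ax (i + 1)) 1
        rw [show ov (C.ax (i + 1)) 1 = - uv (C.ax (i + 1)) from if_neg one_ne_zero, neg_neg]
    simp only [kids] at hκ
    by_cases ht2 : 2 ≤ t
    · rw [if_pos ht2, Finset.mem_insert, Finset.mem_singleton] at hκ
      rcases hκ with hκ | hκ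
      · exact hside hκ
      · subst hκ
        simp only [cvec]
        rw [← C.ax_two i]
        obtain ⟨h2, h3, h4⟩ := C.out P (show C.Q (i + 2) x + 1 < b (i + 2) by omega)
        generalize hy : x + ov (C.ax (i + 2)) (C.S (i + 2) x) = y at h2 h3 h4
        have hlive : C.Live (i + 1) y := by
          have h5 : C.Fr (i + 1 + 1) x y := h2
          exact (h5.live' C).2 ((C.live_succ i x).1 h1.1).2
        refine ⟨h2.E_iff.2 hE, Or.inr ⟨i, t - 1, rfl,
          ⟨(C.live_succ i y).2 ⟨⟨?_, ?_⟩, hlive⟩, ?_, ?_, ?_⟩, ?_⟩⟩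
        · show 2 * b i ≤ C.Q (i + 2) y
          omega
        · show C.Q (i + 2) y + 2 * b i < b (i + 2)
          omega
        · rw [h2.sym (i + 1) (by rw [C.ax_two]; exact C.ax_ne' i)]
          exact h1.2.1
        · rw [h2.z_eq]
          exact h1.2.2.1
        · omega
        · rw [h3, C.ax_two]
    · rw [if_neg ht2, Finset.mem_singleton] at hκ
      exact hside hκ

end Crd

end Pool.Agent.H71.Esc
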