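import Pool.Agent.H71.Esc.Geo4

/-!
# Neighbours
-/

set_option autoImplicit false

namespace Pool.Agent.H71.Esc

namespace Crd

variable {d : ℕ} {b H : ℕ → ℕ} (C : Crd d b H)

/-- The relation between the vertex `x` (type `κ`, parent `x + v`) and the vertex `x + uv c` (type
`κ'`, parent `x + uv c + v'`). -/
def Rel (x y : Pt d) (c : Fin d) (κ κ' : Ty) (v v' : Pt d) : Prop :=
  (v = uv c ∧ C.cvec y κ' κ = - uv c) ∨ (v' = - uv c ∧ C.cvec x κ κ' = uv c)

lemma axes (i n : ℕ) : C.ax n = C.ax i ∨ C.ax n = C.ax (i + 1) := by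
  have h : ∀ n, C.ax n = C.ax 0 ∨ C.ax n = C.ax 1 := by
    intro n
    obtain ⟨k, rfl | rfl⟩ := Nat.even_or_odd' n
    · left
      have := C.ax_add 0 k
      rwa [Nat.zero_add] at this
    · right
      have := C.ax_add 1 k
      rwa [Nat.add_comm 1] at this
  have h01 := C.ax_ne 0
  have h1 := C.ax_ne i
  rcases h n with h2 | h2 <;> rcases h i with h3 | h3 <;> rcases h (i + 1) with h4 | h4
  · exact absurd (h3.trans h4.symm) h1
  · exact Or.inl (h2.trans h3.symm)
  · exact Or.inr (h2.trans h4.symm)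
  · exact absurd (h3.trans h4.symm) h1
  · exact absurd (h3.trans h4.symm) h1
  · exact Or.inr (h2.trans h4.symm)
  · exact Or.inl (h2.trans h3.symm)
  · exact absurd (h3.trans h4.symm) h1

/-- The cyclic step along an axis. -/
lemma step_cases (n : ℕ) (x : Pt d) :
    (C.a n x + 1 = 2 * b n ∧ C.a n (x + uv (C.ax n)) = 0) ∨
    (C.a n x + 1 < 2 * b n ∧ C.a n (x + uv (C.ax n)) = C.a n x + 1) := by
  have h1 := C.a_lt n x
  rcases Nat.lt_or_ge (C.a n x + 1) (2 * b n) with h | h
  · right
    exact ⟨h, C.a_up h⟩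
  · left
    have h2 : C.a n x + 1 = 2 * b n := by omega
    exact ⟨h2, by rw [C.a_step, h2, Nat.mod_self]⟩

lemma SQ_cases (n : ℕ) (x : Pt d) :
    (b n ≤ C.a n x ∧ C.S n x = 0 ∧ C.Q n x + b n = C.a n x) ∨
    (C.a n x < b n ∧ C.S n x = 1 ∧ C.Q n x + C.a n x + 1 = b n) := by
  unfold S Q sd qq
  by_cases h : b n ≤ C.a n x
  · left
    rw [if_pos h, if_pos h]
    omega
  · right
    rw [if_neg h, if_neg h]
    omega

variable (P : Par b H)

include P

/-- The vertical case. -/
theorem adj_az {x : Pt d} {κ κ' : Ty} {v v' : Pt d} (h : C.Node x κ v)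
    (h' : C.Node (x + uv C.az) κ' v') : C.Rel x (x + uv C.az) C.az κ κ' v v' := by
  obtain ⟨ha, hE, hact⟩ := C.upz_aux x
  have hstep : ∀ n, C.z n (x + uv C.az) = (C.z n x + 1) % H n := fun n => C.z_step n x
  generalize x + uv C.az = y at *
  have hlive : ∀ i, C.Live i y ↔ C.Live i x := fun i =>
    ⟨fun h j hj => (hact j).1 (h j hj), fun h j hj => (hact j).2 (h j hj)⟩
  have hS : ∀ n, C.S n y = C.S n x := fun n => by
    show sd _ (C.a n y) = _
    rw [ha]
    rfl
  have hQ : ∀ n, C.Q n y = C.Q n x := fun n => by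
    show qq _ (C.a n y) = _
    rw [ha]
    rfl
  have hcls : ∀ i, C.Cls i y → C.Cls i x := fun i hi => ⟨(hlive i).1 hi.1, by
    rw [← hQ]
    exact hi.2⟩
  rcases h with ⟨_, ⟨i, D, rfl, h1, rfl⟩ | ⟨i, t, rfl, h1, rfl⟩⟩
  · rcases h' with ⟨_, ⟨i', D', rfl, h1', rfl⟩ | ⟨i', t', rfl, h1', rfl⟩⟩
    · have := (h1.cls C P).eq C (hcls _ (h1'.cls C P))
      subst this
      have hz := hstep (i + 1)
      rw [P.Hsucc] at hz
      have h2' := h1'.2
      rw [ha, hS, hQ] at h2'
      have hzl := C.z_lt (i + 1) x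
      rw [P.Hsucc] at hzl
      rcases adj_Z (P.pp i) (C.a_lt i x) hzl hz h1.2 h2' with ⟨_, h3, h4⟩ | ⟨_, h3, h4⟩
      · right
        rw [ha, hS, hQ, h4]
        refine ⟨rfl, ?_⟩
        simp only [cvec, h3]
        rfl
      · left
        rw [h3]
        refine ⟨rfl, ?_⟩
        simp only [cvec]
        rw [ha, hS, hQ, h4]
        rfl
    · have := (h1.cls C P).eq C (hcls _ (h1'.cls C P))
      subst this
      obtain ⟨h2, h3⟩ := h1'.center C
      rw [hS] at h2
      rw [hQ] at h3
      have h4 := h1.2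
      rw [h2, h3] at h4
      exact h4.not_center.elim
  · rcases h' with ⟨_, ⟨i', D', rfl, h1', rfl⟩ | ⟨i', t', rfl, h1', rfl⟩⟩
    · have := (h1.cls C P).eq C (hcls _ (h1'.cls C P))
      subst this
      obtain ⟨h2, h3⟩ := h1.center C
      have h4 := h1'.2
      rw [hS, hQ, h2, h3] at h4
      exact h4.not_center.elim
    · have := (h1.cls C P).eq C (hcls _ (h1'.cls C P))
      subst this
      exfalso
      have h2 := h1.2.2.1
      have h3 := h1'.2.2.1
      rw [hstep, h2, Nat.mod_eq_of_lt (by have := P.H8 (i + 1); omega)] at h3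
      omega

/-- The horizontal case, same class. -/
theorem adj_same {x : Pt d} {κ κ' : Ty} {v v' : Pt d} {i n : ℕ} {c : Fin d}
    (hc : c = C.ax n) (h : C.Node x κ v)
    (h' : C.Node (x + uv c) κ' v') (hi : C.Cls i x) (hi' : C.Cls i (x + uv c)) :
    C.Rel x (x + uv c) c κ κ' v v' := by
  have hz : ∀ m, C.z m (x + uv c) = C.z m x := fun m =>
    C.z_const _ _ _ (by rw [hc]; exact C.az_ne n)
  have hww := P.ww_lt i
  have hw7 := (P.pp i).hw
  rcases C.axes i n with hn | hn
  · -- along the trunk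
    rw [hn] at hc
    subst hc
    have ha1 : C.a (i + 1) (x + uv (C.ax i)) = C.a (i + 1) x := C.a_const _ _ _ (C.ax_ne i)
    have hst := C.a_step i x
    have hc2 := C.step_cases (i + 2) x
    rw [C.ax_two] at hc2
    generalize x + uv (C.ax i) = y at *
    have hS : C.S (i + 1) y = C.S (i + 1) x := by
      show sd _ (C.a (i + 1) y) = _
      rw [ha1]
      rfl
    have hQ : C.Q (i + 1) y = C.Q (i + 1) x := by
      show qq _ (C.a (i + 1) y) = _
      rw [ha1]
      rfl
    rcases h with ⟨_, ⟨j, D, rfl, h1, rfl⟩ | ⟨j, t, rfl, h1, rfl⟩⟩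
    · have := (h1.cls C P).eq C hi
      subst this
      rcases h' with ⟨_, ⟨j', D', rfl, h1', rfl⟩ | ⟨j', t', rfl, h1', rfl⟩⟩
      · have := (h1'.cls C P).eq C hi'
        subst this
        have h2' := h1'.2
        rw [hS, hQ, hz] at h2'
        rcases adj_X (P.pp j') (C.a_lt j' x) hst h1.2 h2' with ⟨_, h3, h4⟩ | ⟨_, h3, h4⟩
        · right
          rw [hS, hQ, hz, h4]
          refine ⟨rfl, ?_⟩
          simp only [cvec, h3]
          rfl
        · left
          rw [h3]
          refine ⟨rfl, ?_⟩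
          simp only [cvec]
          rw [hS, hQ, hz, h4]
          rfl
      · have := (h1'.cls C P).eq C hi'
        subst this
        obtain ⟨h2, h3⟩ := h1'.center C
        rw [hS] at h2
        rw [hQ] at h3
        have h4 := h1.2
        rw [h2, h3] at h4
        exact h4.not_center.elim
    · have := (h1.cls C P).eq C hi
      subst this
      rcases h' with ⟨_, ⟨j', D', rfl, h1', rfl⟩ | ⟨j', t', rfl, h1', rfl⟩⟩
      · have := (h1'.cls C P).eq C hi'
        subst this
        obtain ⟨h2, h3⟩ := h1.center C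
        have h4 := h1'.2
        rw [hS, hQ, h2, h3] at h4
        exact h4.not_center.elim
      · have := (h1'.cls C P).eq C hi'
        subst this
        have e1 := C.SQ_cases (j' + 2) x
        have e2 := C.SQ_cases (j' + 2) y
        have e3 : 2 * b j' ≤ C.Q (j' + 2) x ∧ C.Q (j' + 2) x + 2 * b j' < b (j' + 2) :=
          h1.1 j' le_rfl
        have e4 : 2 * b j' ≤ C.Q (j' + 2) y ∧ C.Q (j' + 2) y + 2 * b j' < b (j' + 2) :=
          h1'.1 j' le_rfl
        have hb := P.b16 j'
        rcases e1 with ⟨f1, f2, f3⟩ | ⟨f1, f2, f3⟩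
        · have g2 : C.S (j' + 2) y = 0 := by omega
          right
          simp only [cvec]
          rw [g2, f2]
          exact ⟨rfl, rfl⟩
        · have g2 : C.S (j' + 2) y = 1 := by omega
          left
          simp only [cvec]
          rw [g2, f2]
          have hov : ov (C.ax j') 1 = - uv (C.ax j') := if_neg one_ne_zero
          rw [hov, neg_neg]
          exact ⟨rfl, rfl⟩
  · -- in the third direction
    rw [hn] at hc
    subst hc
    have ha0 : C.a i (x + uv (C.ax (i + 1))) = C.a i x := C.a_const _ _ _ (C.ax_ne i).symm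
    have hc2 := C.step_cases (i + 1) x
    generalize x + uv (C.ax (i + 1)) = y at *
    have e1 := C.SQ_cases (i + 1) x
    have e2 := C.SQ_cases (i + 1) y
    have q1 := hi.2
    have q2 := hi'.2
    have hov : ov (C.ax (i + 1)) 1 = - uv (C.ax (i + 1)) := if_neg one_ne_zero
    have hov0 : ov (C.ax (i + 1)) 0 = uv (C.ax (i + 1)) := if_pos rfl
    rcases h with ⟨_, ⟨j, D, rfl, h1, rfl⟩ | ⟨j, t, rfl, h1, rfl⟩⟩
    · have := (h1.cls C P).eq C hi
      subst this
      rcases h' with ⟨_, ⟨j', D', rfl, h1', rfl⟩ | ⟨j', t', rfl, h1', rfl⟩⟩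
      · have := (h1'.cls C P).eq C hi'
        subst this
        rcases e1 with ⟨f1, f2, f3⟩ | ⟨f1, f2, f3⟩
        · have g1 : C.S (j' + 1) y = 0 := by omega
          have g2 : C.Q (j' + 1) y = C.Q (j' + 1) x + 1 := by omega
          have h2' := h1'.2
          rw [ha0, g1, g2, hz] at h2'
          have h2 := h1.2
          rw [f2] at h2
          obtain ⟨_, h3, h4⟩ := adj_Q (P.pp j') (C.a_lt j' x) h2 h2'
          right
          rw [ha0, g1, g2, hz, h4]
          refine ⟨by show - ov (C.ax (j' + 1)) 0 = _; rw [hov0], ?_⟩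
          simp only [cvec, h3, f2]
          exact hov0
        · by_cases hmid : C.a (j' + 1) x + 1 = b (j' + 1)
          · exfalso
            have g1 : C.S (j' + 1) y = 0 := by omega
            have g2 : C.Q (j' + 1) y = 0 := by omega
            have h2' := h1'.2
            rw [g1, g2] at h2'
            exact h2'.not_center
          · have g1 : C.S (j' + 1) y = 1 := by omega
            have g2 : C.Q (j' + 1) x = C.Q (j' + 1) y + 1 := by omega
            have h2' := h1'.2
            rw [ha0, g1, hz] at h2'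
            have h2 := h1.2
            rw [f2, g2] at h2
            obtain ⟨_, h3, h4⟩ := adj_Q (P.pp j') (C.a_lt j' x) h2' h2
            left
            rw [f2, g2, h4]
            refine ⟨by show - ov (C.ax (j' + 1)) 1 = _; rw [hov, neg_neg], ?_⟩
            simp only [cvec]
            rw [ha0, g1, hz, h3]
            exact hov
      · have := (h1'.cls C P).eq C hi'
        subst this
        have hyc := h1'.2.1
        have g1 : C.S (j' + 1) x = 1 := by omega
        have g2 : C.Q (j' + 1) x = 0 := by omega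
        left
        have hpt := h1.2
        rw [g1, g2] at hpt
        have hpd : pd (b j') (H j') (C.a j' x) 1 0 (C.z (j' + 1) x) = Mv.Qm := by
          simp [pd]
        have hodd : C.a j' x % 2 = 1 := by
          rcases hpt with h | h | h | h | h | ⟨h5, _⟩ | ⟨h6, h5, _⟩ <;> omega
        rw [g1, g2, hpd]
        refine ⟨by show - ov (C.ax (j' + 1)) 1 = _; rw [hov, neg_neg], ?_⟩
        simp only [cvec]
        rw [ha0, if_neg (by omega)]
    · have := (h1.cls C P).eq C hi
      subst this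
      rcases h' with ⟨_, ⟨j', D', rfl, h1', rfl⟩ | ⟨j', t', rfl, h1', rfl⟩⟩
      · have := (h1'.cls C P).eq C hi'
        subst this
        have hxc := h1.2.1
        have g1 : C.S (j' + 1) y = 0 := by omega
        have g2 : C.Q (j' + 1) y = 1 := by omega
        right
        have hpt := h1'.2
        have hz0 : C.z (j' + 1) y = 0 := by
          rw [hz]
          exact h1.2.2.1
        rw [g1, g2] at hpt
        have hpd : pd (b j') (H j') (C.a j' y) 0 1 (C.z (j' + 1) y) = Mv.Qm := by
          rw [hz0]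
          simp [pd]
        have heven : C.a j' x % 2 = 0 := by
          rw [ha0] at hpt
          rcases hpt with h | h | h | h | h | ⟨h5, _⟩ | ⟨h6, h5, _⟩ <;> omega
        rw [g1, g2, hpd]
        refine ⟨by show - ov (C.ax (j' + 1)) 0 = _; rw [hov0], ?_⟩
        simp only [cvec]
        rw [if_pos heven]
      · exfalso
        have := (h1'.cls C P).eq C hi'
        subst this
        have hxc := h1.2.1
        have hyc := h1'.2.1
        have := P.b16 (j' + 1)
        omega

lemma act_pred {i j : ℕ} {x : Pt d} (hij : i < j) (h : C.Live i x) :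
    ww b j ≤ C.Q (j + 1) x := by
  obtain ⟨k, rfl⟩ : ∃ k, j = k + 1 := ⟨j - 1, by omega⟩
  exact (h k (by omega)).1

/-- A vertex at the end of a path. -/
lemma end_path {j : ℕ} {x : Pt d} {κ : Ty} {v : Pt d} (h : C.Node x κ v) (hj : C.Cls (j + 1) x)
    (hQ : C.Q (j + 2) x + 1 = 2 * b j) :
    C.a (j + 1) x = b (j + 1) ∧ C.z (j + 1) x = 0 ∧ ∃ D, κ = Ty.path (j + 1) D := by
  have hb := P.b16 j
  rcases h with ⟨_, ⟨i, D, rfl, h1, rfl⟩ | ⟨i, t, rfl, h1, rfl⟩⟩
  · have := (h1.cls C P).eq C hj
    subst this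
    have hpt := h1.2
    have hq : C.Q (j + 1 + 1) x = 2 * b j - 1 := by
      have : C.Q (j + 1 + 1) x = C.Q (j + 2) x := rfl
      omega
    rw [hq] at hpt
    rcases hpt with h | h | h | h | h | ⟨h5, _⟩ | ⟨h6, h5, h7, ⟨jj, hjj, hjz⟩, _⟩
    · omega
    · omega
    · omega
    · omega
    · omega
    · omega
    · exact ⟨h7, C.z_zero hjz, D, rfl⟩
  · exfalso
    have := (h1.cls C P).eq C hj
    subst this
    have h2 := (h1.center C).2
    have : C.Q (j + 1 + 1) x = C.Q (j + 2) x := rfl
    omega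

/-- A vertex of a lower class next to the end of a path. -/
lemma end_trunk {i j : ℕ} {x : Pt d} {κ : Ty} {v : Pt d} (h : C.Node x κ v) (hi : C.Cls i x)
    (hij : i < j + 1) (ha : C.a (j + 1) x = b (j + 1)) :
    ∃ t, κ = Ty.trunk j t ∧ v = - ov (C.ax j) (C.S (j + 2) x) := by
  obtain ⟨hS, hQ⟩ := (C.center_iff (j + 1) x).1 ha
  have hij' : i = j := by
    by_contra hne
    have h1 := C.act_pred P (show i < j by omega) hi.1
    have h2 := (P.pp j).hw
    omega
  subst hij'
  rcases h with ⟨_, ⟨j, D, rfl, h1, rfl⟩ | ⟨j, t, rfl, h1, rfl⟩⟩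
  · exfalso
    have := (h1.cls C P).eq C hi
    subst this
    have h2 := h1.2
    rw [hS, hQ] at h2
    exact h2.not_center
  · have := (h1.cls C P).eq C hi
    subst this
    exact ⟨t, rfl, rfl⟩

/-- The horizontal case, different classes. -/
theorem adj_diff {x : Pt d} {κ κ' : Ty} {v v' : Pt d} {i i' n : ℕ} {c : Fin d}
    (hc : c = C.ax n) (h : C.Node x κ v)
    (h' : C.Node (x + uv c) κ' v') (hi : C.Cls i x) (hi' : C.Cls i' (x + uv c))
    (hne : i ≠ i') : C.Rel x (x + uv c) c κ κ' v v' := by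
  rcases Nat.lt_or_gt_of_ne hne with hlt | hgt
  · obtain ⟨j, rfl⟩ : ∃ j, i' = j + 1 := ⟨i' - 1, by omega⟩
    have hq1 := C.act_pred P hlt hi.1
    have hq2 := hi'.2
    have hw : ww b (j + 1) = 2 * b j := rfl
    have hn : C.ax n = C.ax (j + 2) := by
      rcases C.axes (j + 1) n with hn | hn
      · exfalso
        have : C.a (j + 1 + 1) (x + uv c) = C.a (j + 1 + 1) x := by
          rw [hc, hn]
          exact C.a_const _ _ _ (C.ax_ne (j + 1))
        unfold Q at hq1 hq2
        rw [this] at hq2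
        omega
      · exact hn
    have hc2 := C.step_cases (j + 2) x
    rw [hn] at hc
    subst hc
    have ha1 : C.a (j + 1) (x + uv (C.ax (j + 2))) = C.a (j + 1) x :=
      C.a_const _ _ _ (C.ax_ne (j + 1)).symm
    generalize x + uv (C.ax (j + 2)) = y at *
    have e1 := C.SQ_cases (j + 2) x
    have e2 := C.SQ_cases (j + 2) y
    have hb1 := P.bbig j
    have hb2 := P.bbig (j + 1)
    have hb3 : b (j + 1 + 1) = b (j + 2) := rfl
    have hq1' : ww b (j + 1) ≤ C.Q (j + 2) x := hq1
    have hq2' : C.Q (j + 2) y < ww b (j + 1) := hq2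
    have g1 : C.S (j + 2) x = 1 := by omega
    have g2 : C.S (j + 2) y = 1 := by omega
    have g3 : C.Q (j + 2) y + 1 = 2 * b j := by omega
    obtain ⟨p1, p2, D, hD⟩ := C.end_path P h' hi' g3
    subst hD
    rw [ha1] at p1
    obtain ⟨t, hκ, hv⟩ := C.end_trunk P h hi hlt p1
    subst hκ hv
    left
    have hov : ov (C.ax j) 1 = - uv (C.ax (j + 2)) := by
      rw [C.ax_two]
      exact if_neg one_ne_zero
    have hov' : ov (C.ax (j + 2)) 1 = - uv (C.ax (j + 2)) := if_neg one_ne_zero
    rw [g1, hov, neg_neg]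
    refine ⟨rfl, ?_⟩
    simp only [cvec]
    have hb := P.b16 j
    rw [nd_big (show 6 ≤ C.Q (j + 1 + 1) y by
      have : C.Q (j + 1 + 1) y = C.Q (j + 2) y := rfl
      omega)]
    show ov (C.ax (j + 2)) (C.S (j + 2) y) = _
    rw [g2, hov']
  · obtain ⟨j, rfl⟩ : ∃ j, i = j + 1 := ⟨i - 1, by omega⟩
    have hq1 := C.act_pred P hgt hi'.1
    have hq2 := hi.2
    have hw : ww b (j + 1) = 2 * b j := rfl
    have hn : C.ax n = C.ax (j + 2) := by
      rcases C.axes (j + 1) n with hn | hn
      · exfalso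
        have : C.a (j + 1 + 1) (x + uv c) = C.a (j + 1 + 1) x := by
          rw [hc, hn]
          exact C.a_const _ _ _ (C.ax_ne (j + 1))
        unfold Q at hq1 hq2
        rw [this] at hq1
        omega
      · exact hn
    have hc2 := C.step_cases (j + 2) x
    rw [hn] at hc
    subst hc
    have ha1 : C.a (j + 1) (x + uv (C.ax (j + 2))) = C.a (j + 1) x :=
      C.a_const _ _ _ (C.ax_ne (j + 1)).symm
    generalize x + uv (C.ax (j + 2)) = y at *
    have e1 := C.SQ_cases (j + 2) x
    have e2 := C.SQ_cases (j + 2) y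
    have hb1 := P.bbig j
    have hb2 := P.bbig (j + 1)
    have hb3 : b (j + 1 + 1) = b (j + 2) := rfl
    have hq1' : ww b (j + 1) ≤ C.Q (j + 2) y := hq1
    have hq2' : C.Q (j + 2) x < ww b (j + 1) := hq2
    have g1 : C.S (j + 2) x = 0 := by omega
    have g2 : C.S (j + 2) y = 0 := by omega
    have g3 : C.Q (j + 2) x + 1 = 2 * b j := by omega
    obtain ⟨p1, p2, D, hD⟩ := C.end_path P h hi g3
    subst hD
    rw [← ha1] at p1
    obtain ⟨t, hκ, hv⟩ := C.end_trunk P h' hi' hgt p1
    subst hκ hv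
    right
    have hov : ov (C.ax j) 0 = uv (C.ax (j + 2)) := by
      rw [C.ax_two]
      exact if_pos rfl
    have hov' : ov (C.ax (j + 2)) 0 = uv (C.ax (j + 2)) := if_pos rfl
    rw [g2, hov]
    refine ⟨rfl, ?_⟩
    simp only [cvec]
    have hb := P.b16 j
    rw [nd_big (show 6 ≤ C.Q (j + 1 + 1) x by
      have : C.Q (j + 1 + 1) x = C.Q (j + 2) x := rfl
      omega)]
    show ov (C.ax (j + 2)) (C.S (j + 2) x) = _
    rw [g1, hov']

lemma node_cls {x : Pt d} {κ : Ty} {v : Pt d} (h : C.Node x κ v) : ∃ i, C.Cls i x := by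
  rcases h with ⟨_, ⟨i, D, rfl, h1, rfl⟩ | ⟨i, t, rfl, h1, rfl⟩⟩
  · exact ⟨i, h1.cls C P⟩
  · exact ⟨i, h1.cls C P⟩

/-- Neighbouring vertices are parent and child. -/
theorem adj {x : Pt d} {κ κ' : Ty} {v v' : Pt d} {c : Fin d} (h : C.Node x κ v)
    (h' : C.Node (x + uv c) κ' v') : C.Rel x (x + uv c) c κ κ' v v' := by
  by_cases hc : c = C.az
  · subst hc
    exact C.adj_az P h h'
  by_cases hn : ∃ n, c = C.ax n
  · obtain ⟨n, rfl⟩ := hn
    obtain ⟨i, hi⟩ := C.node_cls P h
    obtain ⟨i', hi'⟩ := C.node_cls P h'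
    by_cases hne : i = i'
    · subst hne
      exact C.adj_same P rfl h h' hi hi'
    · exact C.adj_diff P rfl h h' hi hi' hne
  · exfalso
    push Not at hn
    exact C.E_step x c hc hn h.1 h'.1

end Crd

end Pool.Agent.H71.Esc
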