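import Pool.Agent.H71.Esc.Meas
import Pool.Agent.H71.Esc.Bnd

/-!
# The mean of the initial configuration
-/

set_option autoImplicit false

open MeasureTheory Filter
open scoped ENNReal Topology

namespace Pool.Agent.H71.Esc

namespace Crd

variable {d : ℕ} {b H : ℕ → ℕ} (C : Crd d b H)

lemma Fr.refl (n : ℕ) (x : Pt d) : C.Fr n x x :=
  ⟨fun _ _ => rfl, fun _ => rfl, Iff.rfl, fun _ _ => Iff.rfl⟩

variable {C} in
lemma Fr.trans {n : ℕ} {x y w : Pt d} (h : C.Fr n x y) (h' : C.Fr n y w) : C.Fr n x w :=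
  ⟨fun m hm => (h'.sym m hm).trans (h.sym m hm), fun m => (h'.z_eq m).trans (h.z_eq m),
    h'.E_iff.trans h.E_iff, fun j hj => (h'.act j hj).trans (h.act j hj)⟩

variable (P : Par b H)

include P

lemma move_up (n : ℕ) (x : Pt d) (k : ℕ) (hk : C.a n x + k < 2 * b n) :
    ∃ y, C.Fr n x y ∧ C.a n y = C.a n x + k := by
  induction k with
  | zero => exact ⟨x, Fr.refl C n x, rfl⟩
  | succ k ih =>
    obtain ⟨y, h1, h2⟩ := ih (by omega)
    have hu := C.up_of_lt P (n := n) (x := y) (by omega)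
    exact ⟨_, h1.trans hu.fr, by rw [hu.a_eq, h2]; rfl⟩

lemma move_down (n : ℕ) (x : Pt d) (k : ℕ) (hk : k ≤ C.a n x) :
    ∃ y, C.Fr n x y ∧ C.a n y + k = C.a n x := by
  induction k with
  | zero => exact ⟨x, Fr.refl C n x, rfl⟩
  | succ k ih =>
    obtain ⟨y, h1, h2⟩ := ih (by omega)
    have hu := C.up_of_pos P (n := n) (x := y) (by omega)
    have := hu.a_eq
    exact ⟨_, h1.trans hu.fr', by omega⟩

lemma move_to (n : ℕ) (x : Pt d) (t : ℕ) (ht : t < 2 * b n) :
    ∃ y, C.Fr n x y ∧ C.a n y = t := by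
  rcases Nat.le_total (C.a n x) t with h | h
  · obtain ⟨y, h1, h2⟩ := C.move_up P n x (t - C.a n x) (by omega)
    exact ⟨y, h1, by omega⟩
  · obtain ⟨y, h1, h2⟩ := C.move_down P n x (C.a n x - t) (by omega)
    exact ⟨y, h1, by omega⟩

omit P in
lemma move_z (n : ℕ) (x : Pt d) (k : ℕ) (hk : k ≤ C.z n x) :
    ∃ y, (∀ m, C.a m y = C.a m x) ∧ (C.E y ↔ C.E x) ∧ (∀ j, C.Act j y ↔ C.Act j x) ∧
      C.z n y + k = C.z n x := by
  induction k with
  | zero => exact ⟨x, fun _ => rfl, Iff.rfl, fun _ => Iff.rfl, rfl⟩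
  | succ k ih =>
    obtain ⟨y, h1, h2, h3, h4⟩ := ih (by omega)
    have hu := C.upz_of_pos (n := n) (x := y) (by omega)
    have := hu.z_eq
    exact ⟨_, fun m => (hu.a_eq m).symm.trans (h1 m), hu.E_iff.symm.trans h2,
      fun j => (hu.act j).symm.trans (h3 j), by omega⟩

/-- A live point has a vertex of the forest in its cell. -/
lemma exists_node {i : ℕ} {x : Pt d} (hE : C.E x) (hL : C.Live i x) : ∃ y, y ∈ C.V := by
  have hb := P.b16 (i + 1)
  obtain ⟨y, h1, h2⟩ := C.move_to P (i + 1) x (b (i + 1)) (by omega)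
  have hLy : C.Live i y := (h1.live' C).2 hL
  obtain ⟨w, w1, w2, w3, w4⟩ := C.move_z (i + 1) y (C.z (i + 1) y) le_rfl
  have hLw : C.Live i w := fun j hj => (w3 j).2 (hLy j hj)
  have hact : 2 * b i ≤ C.Q (i + 2) w ∧ C.Q (i + 2) w + 2 * b i < b (i + 2) := hLw i le_rfl
  refine ⟨w, Ty.trunk i (b (i + 2) - 2 * b i - C.Q (i + 2) w), _,
    w2.2 (h1.E_iff.2 hE), Or.inr ⟨i, _, rfl, ⟨hLw, ?_, ?_, ?_⟩, rfl⟩⟩
  · rw [w1, h2]
  · omega
  · omega

end Crd

lemma bb_ge_two_pow (i : ℕ) : (2 : ℝ) ^ i ≤ bb i := by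
  unfold bb
  push_cast
  apply pow_le_pow_right₀ (by norm_num)
  unfold ee
  have h1 : i < 4 ^ i := Nat.lt_pow_self (by norm_num)
  have h2 : 4 ^ i ≤ 4 ^ (i + 1) := Nat.pow_le_pow_right (by norm_num) (by omega)
  omega

section

variable {d : ℕ} (hd : 3 ≤ d)

lemma mu_Q_le (n : ℕ) (x : Pt d) (k : ℕ) :
    mu d {ω | (crd hd ω).Q n x < k} ≤ (2 * k : ℕ) * (2 * (bb n : ℝ≥0∞))⁻¹ := by
  have h := law_le hd n x (Finset.Ico (bb n - k) (bb n + k)) (fun A => qq (bb n) A < k) (by
    intro A hA hq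
    rw [Finset.mem_Ico]
    unfold qq at hq
    split_ifs at hq
    · omega
    · omega)
  refine h.trans ?_
  gcongr
  rw [Nat.card_Ico]
  omega

lemma ofReal_mul_inv (F : ℝ) (hF : 0 ≤ F) (k n : ℕ) :
    ENNReal.ofReal F * ((2 * k : ℕ) * (2 * (bb n : ℝ≥0∞))⁻¹) =
      ENNReal.ofReal (F * k / bb n) := by
  have hb := bb_real n
  have h1 : (2 * (bb n : ℝ≥0∞))⁻¹ = ENNReal.ofReal ((2 * (bb n : ℝ))⁻¹) := by
    rw [ENNReal.ofReal_inv_of_pos (by linarith), ENNReal.ofReal_mul (by norm_num),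
      ENNReal.ofReal_natCast]
    norm_num
  have h2 : ((2 * k : ℕ) : ℝ≥0∞) = ENNReal.ofReal ((2 * k : ℕ) : ℝ) :=
    (ENNReal.ofReal_natCast _).symm
  rw [h1, h2, ← ENNReal.ofReal_mul (by positivity), ← ENNReal.ofReal_mul hF]
  congr 1
  push_cast
  field_simp

lemma C0_le (ω : Om d) (x : Pt d) : C0 hd ω x ≤ 2 + ∑' i : ℕ,
    (Set.indicator {ω : Om d | (crd hd ω).Q (i + 1) x < 6} (fun _ => ENNReal.ofReal (F1 i)) ω +
      Set.indicator {ω : Om d | (crd hd ω).Q (i + 2) x < 4 * bb (i + 1)}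
        (fun _ => ENNReal.ofReal (F2 i)) ω) := by
  have P := parBH
  unfold C0
  by_cases hx : x ∈ (crd hd ω).V
  · have hnode := (crd hd ω).node_kf hx
    rw [(crd hd ω).W_eq P hnode]
    rcases weight_cases (crd hd ω) hnode with h | ⟨i, hq, h⟩ | ⟨i, hq, h⟩
    · refine le_add_right ?_
      calc ENNReal.ofReal (wt (NN bb) (LL bb HH) ((crd hd ω).kf x) 0)
          ≤ ENNReal.ofReal 2 := ENNReal.ofReal_le_ofReal h
        _ = 2 := by norm_num
    · refine le_add_left (le_trans ?_ (ENNReal.le_tsum i))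
      refine le_add_right ?_
      rw [Set.indicator_of_mem (show ω ∈ {ω : Om d | (crd hd ω).Q (i + 1) x < 6} from
        Nat.lt_succ_of_le hq)]
      exact ENNReal.ofReal_le_ofReal h
    · refine le_add_left (le_trans ?_ (ENNReal.le_tsum i))
      refine le_add_left ?_
      rw [Set.indicator_of_mem (show ω ∈ {ω : Om d | (crd hd ω).Q (i + 2) x < 4 * bb (i + 1)}
        from hq)]
      exact ENNReal.ofReal_le_ofReal h
  · unfold Crd.W
    rw [Set.indicator_of_notMem hx]
    exact zero_le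

lemma measurableSet_Q (n k : ℕ) (x : Pt d) :
    MeasurableSet {ω : Om d | (crd hd ω).Q n x < k} :=
  (measurable_a hd n x) (MeasurableSet.of_discrete (s := {A : ℕ | qq (bb n) A < k}))

theorem mean_lt_top (x : Pt d) : ∫⁻ ω, C0 hd ω x ∂(mu d) < ∞ := by
  have hF1 : ∀ i, 0 ≤ F1 i := fun i => by unfold F1; positivity
  have hF2 : ∀ i, 0 ≤ F2 i := fun i => by unfold F2; positivity
  have hterm : ∀ i : ℕ, F1 i * (6 : ℕ) / bb (i + 1) + F2 i * (4 * bb (i + 1) : ℕ) / bb (i + 2) ≤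
      50 * (1 / 4 : ℝ) ^ i := by
    intro i
    have hb := bb_real i
    have h1 := bb_succ_real i
    have h2 : (bb (i + 2) : ℝ) = (bb (i + 1) : ℝ) ^ 4 := bb_succ_real (i + 1)
    have h3 := bb_ge_two_pow i
    have hb1 := bb_real (i + 1)
    have hpos : (0 : ℝ) < bb i := by linarith
    have hpos1 : (0 : ℝ) < bb (i + 1) := by linarith
    have e1 : F1 i * (6 : ℕ) / bb (i + 1) = 18 / (bb i : ℝ) ^ 2 := by
      unfold F1
      rw [h1]
      field_simp
      norm_num
    have e2 : F2 i * (4 * bb (i + 1) : ℕ) / bb (i + 2) = 32 * (bb i : ℝ) ^ 2 / (bb (i + 1) : ℝ) ^ 2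
        := by
      unfold F2
      rw [h2]
      push_cast
      field_simp
      norm_num
    have e3 : 32 * (bb i : ℝ) ^ 2 / (bb (i + 1) : ℝ) ^ 2 ≤ 32 / (bb i : ℝ) ^ 2 := by
      rw [h1, div_le_div_iff₀ (by positivity) (by positivity)]
      have e4 : (1 : ℝ) ≤ (bb i : ℝ) ^ 4 := one_le_pow₀ (by linarith)
      have e5 : 32 * ((bb i : ℝ) ^ 4) ^ 2 = 32 * (bb i : ℝ) ^ 2 * (bb i : ℝ) ^ 2 *
        (bb i : ℝ) ^ 4 := by ring
      rw [e5]
      exact le_mul_of_one_le_right (by positivity) e4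
    have e6 : (50 : ℝ) / (bb i : ℝ) ^ 2 ≤ 50 * (1 / 4 : ℝ) ^ i := by
      rw [div_le_iff₀ (by positivity)]
      have e7 : (4 : ℝ) ^ i ≤ (bb i : ℝ) ^ 2 := by
        calc (4 : ℝ) ^ i = ((2 : ℝ) ^ i) ^ 2 := by rw [← pow_mul, mul_comm, pow_mul]; norm_num
          _ ≤ (bb i : ℝ) ^ 2 := pow_le_pow_left₀ (by positivity) h3 2
      have e8 : (1 / 4 : ℝ) ^ i * 4 ^ i = 1 := by
        rw [← mul_pow]
        norm_num
      have e9 : (0 : ℝ) < (1 / 4 : ℝ) ^ i := by positivity
      nlinarith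
    rw [e1, e2]
    have e10 : 18 / (bb i : ℝ) ^ 2 + 32 / (bb i : ℝ) ^ 2 = 50 / (bb i : ℝ) ^ 2 := by ring
    linarith
  calc ∫⁻ ω, C0 hd ω x ∂(mu d)
      ≤ ∫⁻ ω, (2 + ∑' i : ℕ,
        (Set.indicator {ω : Om d | (crd hd ω).Q (i + 1) x < 6}
          (fun _ => ENNReal.ofReal (F1 i)) ω +
        Set.indicator {ω : Om d | (crd hd ω).Q (i + 2) x < 4 * bb (i + 1)}
        (fun _ => ENNReal.ofReal (F2 i)) ω)) ∂(mu d) := lintegral_mono fun ω => C0_le hd ω x
    _ = 2 + ∑' i : ℕ, (ENNReal.ofReal (F1 i) * mu d {ω : Om d | (crd hd ω).Q (i + 1) x < 6} +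
        ENNReal.ofReal (F2 i) *
          mu d {ω : Om d | (crd hd ω).Q (i + 2) x < 4 * bb (i + 1)}) := by
        rw [lintegral_add_left measurable_const, lintegral_const, measure_univ, mul_one,
          lintegral_tsum]
        · congr 1
          refine tsum_congr fun i => ?_
          rw [lintegral_add_left (measurable_const.indicator (measurableSet_Q hd _ _ x)),
            lintegral_indicator_const (measurableSet_Q hd _ _ x),
            lintegral_indicator_const (measurableSet_Q hd _ _ x)]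
        · intro i
          exact ((measurable_const.indicator (measurableSet_Q hd _ _ x)).add
            (measurable_const.indicator (measurableSet_Q hd _ _ x))).aemeasurable
    _ ≤ 2 + ∑' i : ℕ, ENNReal.ofReal (50 * (1 / 4 : ℝ) ^ i) := by
        gcongr with i
        refine le_trans (add_le_add (mul_le_mul_right (mu_Q_le hd (i + 1) x 6) _)
          (mul_le_mul_right (mu_Q_le hd (i + 2) x (4 * bb (i + 1))) _)) ?_
        rw [ofReal_mul_inv _ (hF1 i), ofReal_mul_inv _ (hF2 i), ← ENNReal.ofReal_add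
          (by have := hF1 i; positivity) (by have := hF2 i; positivity)]
        exact ENNReal.ofReal_le_ofReal (hterm i)
    _ < ∞ := by
        rw [ENNReal.add_lt_top]
        refine ⟨by norm_num, ?_⟩
        have hs : Summable fun i : ℕ => 50 * (1 / 4 : ℝ) ^ i :=
          (summable_geometric_of_lt_one (by norm_num) (by norm_num)).mul_left _
        rw [← ENNReal.ofReal_tsum_of_nonneg (fun i => by positivity) hs]
        exact ENNReal.ofReal_lt_top

/-- Almost surely all cells from some level on are in use. -/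
theorem ae_live (x : Pt d) : ∀ᵐ ω ∂(mu d), ∃ i, (crd hd ω).Live i x := by
  have h1 : ∀ j, mu d {ω | ¬ (crd hd ω).Act j x} ≤ ENNReal.ofReal (4 * (1 / 2 : ℝ) ^ j) := by
    intro j
    have h2 := law_le hd (j + 2) x
      (Finset.range (2 * bb j) ∪ Finset.Ico (bb (j + 2) - 2 * bb j) (bb (j + 2) + 2 * bb j) ∪
        Finset.Ico (2 * bb (j + 2) - 2 * bb j) (2 * bb (j + 2)))
      (fun A => ¬ (2 * bb j ≤ qq (bb (j + 2)) A ∧ qq (bb (j + 2)) A + 2 * bb j < bb (j + 2)))
      (by
        intro A hA hq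
        simp only [Finset.mem_union, Finset.mem_range, Finset.mem_Ico]
        unfold qq at hq
        split_ifs at hq <;> omega)
    refine h2.trans ?_
    have hcard : (Finset.range (2 * bb j) ∪ Finset.Ico (bb (j + 2) - 2 * bb j)
        (bb (j + 2) + 2 * bb j) ∪
        Finset.Ico (2 * bb (j + 2) - 2 * bb j) (2 * bb (j + 2))).card ≤ 2 * (4 * bb j) := by
      refine (Finset.card_union_le _ _).trans ?_
      refine (add_le_add_left (Finset.card_union_le _ _) _).trans ?_
      rw [Finset.card_range, Nat.card_Ico, Nat.card_Ico]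
      omega
    have h3 := ofReal_mul_inv 1 zero_le_one (4 * bb j) (j + 2)
    rw [ENNReal.ofReal_one, one_mul, one_mul] at h3
    calc ((Finset.range (2 * bb j) ∪ Finset.Ico (bb (j + 2) - 2 * bb j)
        (bb (j + 2) + 2 * bb j) ∪
        Finset.Ico (2 * bb (j + 2) - 2 * bb j) (2 * bb (j + 2))).card : ℝ≥0∞) *
          (2 * (bb (j + 2) : ℝ≥0∞))⁻¹
        ≤ ((2 * (4 * bb j) : ℕ) : ℝ≥0∞) * (2 * (bb (j + 2) : ℝ≥0∞))⁻¹ := by
          gcongr
      _ = ENNReal.ofReal (((4 * bb j : ℕ) : ℝ) / bb (j + 2)) := h3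
      _ ≤ ENNReal.ofReal (4 * (1 / 2 : ℝ) ^ j) := by
          apply ENNReal.ofReal_le_ofReal
          have hb := bb_real j
          have hb1 := bb_real (j + 1)
          have h5 := bb_succ_real j
          have h6 : (bb (j + 2) : ℝ) = (bb (j + 1) : ℝ) ^ 4 := bb_succ_real (j + 1)
          have h7 := bb_ge_two_pow j
          push_cast
          have h8 : (bb j : ℝ) * 2 ^ j ≤ bb (j + 2) := by
            calc (bb j : ℝ) * 2 ^ j ≤ bb j * bb j := by gcongr
              _ = (bb j : ℝ) ^ 2 := by ring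
              _ ≤ (bb j : ℝ) ^ 4 := pow_le_pow_right₀ (by linarith) (by norm_num)
              _ = bb (j + 1) := h5.symm
              _ = (bb (j + 1) : ℝ) ^ 1 := (pow_one _).symm
              _ ≤ (bb (j + 1) : ℝ) ^ 4 := pow_le_pow_right₀ (by linarith) (by norm_num)
              _ = bb (j + 2) := h6.symm
          have hpos : (0 : ℝ) < bb (j + 2) := by
            rw [h6]
            positivity
          rw [div_le_iff₀ hpos]
          have h9 : (1 / 2 : ℝ) ^ j * 2 ^ j = 1 := by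
            rw [← mul_pow]
            norm_num
          have h10 : (0 : ℝ) < (1 / 2 : ℝ) ^ j := by positivity
          have h11 := mul_le_mul_of_nonneg_left h8 h10.le
          nlinarith
  have h2 : ∑' j, mu d {ω | ¬ (crd hd ω).Act j x} ≠ ∞ := by
    have hs : Summable fun j : ℕ => 4 * (1 / 2 : ℝ) ^ j :=
      (summable_geometric_of_lt_one (by norm_num) (by norm_num)).mul_left _
    refine ne_top_of_le_ne_top ?_ (ENNReal.tsum_le_tsum h1)
    rw [← ENNReal.ofReal_tsum_of_nonneg (fun i => by positivity) hs]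
    exact ENNReal.ofReal_ne_top
  have h3 := measure_setOfPred_frequently_eq_zero h2
  rw [ae_iff]
  refine measure_mono_null ?_ h3
  intro ω hω
  simp only [Set.mem_ofPred_eq, not_exists] at hω ⊢
  by_contra h4
  rw [not_frequently] at h4
  obtain ⟨i, hi⟩ := eventually_atTop.1 h4
  exact hω i fun j hj => not_not.1 (hi j hj)

/-- Almost surely the forest is not empty. -/
theorem ae_nonempty : ∀ᵐ ω ∂(mu d), ∃ y, y ∈ (crd hd ω).V := by
  filter_upwards [ae_live hd (0 : Pt d)] with ω hω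
  obtain ⟨i, hi⟩ := hω
  -- a point with even last coordinates
  let x : Pt d := fun c => if 3 ≤ c.val then (res 1 (at' ω 0 c) : ℤ) else 0
  have hx : ∀ c : Fin d, c.val < 3 → at' ω x c = at' ω 0 c := by
    intro c hc
    unfold at'
    simp only [x, if_neg (show ¬ 3 ≤ c.val by omega), Pi.zero_apply]
  have ha : ∀ n, (crd hd ω).a n x = (crd hd ω).a n 0 := by
    intro n
    show res _ (at' ω x (axf hd n)) = res _ (at' ω 0 (axf hd n))
    rw [hx]
    unfold axf
    split_ifs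
    · exact (by norm_num : 0 < 3)
    · exact (by norm_num : 1 < 3)
  have hE : (crd hd ω).E x := by
    intro c hc
    have h1 : at' ω x c = at' ω 0 c + ((res 1 (at' ω 0 c) : ℕ) : ℤ_[2]) := by
      unfold at'
      simp only [x, if_pos hc, Pi.zero_apply]
      push_cast
      unfold at'
      simp
    have h2 := res_lt 1 (at' ω 0 c)
    rw [h1]
    generalize at' ω 0 c = t at *
    have h3 : res 1 t = 0 ∨ res 1 t = 1 := by omega
    rcases h3 with h3 | h3
    · rw [h3, Nat.cast_zero, add_zero, h3]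
    · rw [h3, Nat.cast_one, res_add_one, h3]
      norm_num
  have hL : (crd hd ω).Live i x := by
    intro j hj
    have := hi j hj
    unfold Crd.Act at this ⊢
    rw [ha]
    exact this
  exact (crd hd ω).exists_node parBH hE hL

theorem mean_pos (x : Pt d) : 0 < ∫⁻ ω, C0 hd ω x ∂(mu d) := by
  by_contra h
  have h0 : ∫⁻ ω, C0 hd ω x ∂(mu d) = 0 := le_antisymm (not_lt.1 h) zero_le
  have hm := measurable_C0 hd
  have h1 : ∀ y : Pt d, ∀ᵐ ω ∂(mu d), C0 hd ω y = 0 := by
    intro y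
    have h2 : ∫⁻ ω, C0 hd ω y ∂(mu d) = 0 := by
      have h3 : ∀ ω, C0 hd ω y = C0 hd (sft (y - x) ω) x := by
        intro ω
        rw [C0_shift, add_sub_cancel]
      calc ∫⁻ ω, C0 hd ω y ∂(mu d) = ∫⁻ ω, C0 hd (sft (y - x) ω) x ∂(mu d) :=
            lintegral_congr h3
        _ = ∫⁻ ω, C0 hd ω x ∂(mu d) :=
            (sft_mp (y - x)).lintegral_comp ((measurable_pi_apply x).comp hm)
        _ = 0 := h0
    exact (lintegral_eq_zero_iff ((measurable_pi_apply y).comp hm)).1 h2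
  have h2 : ∀ᵐ ω ∂(mu d), ∀ y : Pt d, C0 hd ω y = 0 := ae_all_iff.2 h1
  have h3 : ∀ᵐ ω ∂(mu d), False := by
    filter_upwards [h2, ae_nonempty hd] with ω hω hne
    obtain ⟨y, hy⟩ := hne
    have h4 := hω y
    unfold C0 at h4
    have P := parBH
    have hnode := (crd hd ω).node_kf hy
    rw [(crd hd ω).W_eq P hnode, ENNReal.ofReal_eq_zero] at h4
    have h5 := wt_zero_pos _ _ (NN_pos P) (LL_pos P) _ ((crd hd ω).node_valid P hnode)
    exact absurd h4 (not_le.2 h5)
  rw [ae_iff] at h3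
  simp at h3

end

end Pool.Agent.H71.Esc
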