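import Pool.Agent.H71.Esc.Padic
import Pool.Agent.H71.Esc.Geo6

/-!
# The probability space
-/

set_option autoImplicit false

open MeasureTheory TopologicalSpace
open scoped ENNReal

namespace Pool.Agent.H71.Esc

noncomputable instance instMZ : MeasurableSpace ℤ_[2] := borel ℤ_[2]

instance instBZ : BorelSpace ℤ_[2] := ⟨rfl⟩

/-- Haar measure -/
noncomputable def muZ : Measure ℤ_[2] := Measure.addHaarMeasure ⊤

instance instPZ : IsProbabilityMeasure muZ := by
  refine ⟨?_⟩
  have := Measure.addHaarMeasure_self (K₀ := (⊤ : PositiveCompacts ℤ_[2]))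
  rw [PositiveCompacts.coe_top] at this
  exact this

instance instIZ : muZ.IsAddLeftInvariant := by
  unfold muZ
  infer_instance

/-- the probability measure -/
noncomputable def mu (d : ℕ) : Measure (Om d) := Measure.pi fun _ => muZ

instance instPmu (d : ℕ) : IsProbabilityMeasure (mu d) := by
  unfold mu
  infer_instance

instance instImu (d : ℕ) : (mu d).IsAddLeftInvariant := by
  unfold mu
  infer_instance

/-- the shift -/
noncomputable def sft {d : ℕ} (z : Pt d) (ω : Om d) : Om d := fun c => (z c : ℤ_[2]) + ω c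

lemma sft_mp {d : ℕ} (z : Pt d) : MeasurePreserving (sft z) (mu d) (mu d) := by
  have h := measurePreserving_add_left (mu d) (fun c => (z c : ℤ_[2]))
  exact h

lemma at_sft {d : ℕ} (z : Pt d) (ω : Om d) (x : Pt d) (c : Fin d) :
    at' (sft z ω) x c = at' ω (x + z) c := by
  unfold at' sft
  rw [Pi.add_apply]
  push_cast
  ring

section

variable {d : ℕ} (hd : 3 ≤ d)

lemma crd_a (z : Pt d) (ω : Om d) (n : ℕ) (x : Pt d) :
    (crd hd (sft z ω)).a n x = (crd hd ω).a n (x + z) := by
  show res _ (at' (sft z ω) x _) = res _ (at' ω (x + z) _)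
  rw [at_sft]

lemma crd_z (z : Pt d) (ω : Om d) (n : ℕ) (x : Pt d) :
    (crd hd (sft z ω)).z n x = (crd hd ω).z n (x + z) := by
  show res _ (at' (sft z ω) x _) = res _ (at' ω (x + z) _)
  rw [at_sft]

lemma crd_E (z : Pt d) (ω : Om d) (x : Pt d) :
    (crd hd (sft z ω)).E x ↔ (crd hd ω).E (x + z) := by
  show (∀ c : Fin d, 3 ≤ c.val → res 1 (at' (sft z ω) x c) = 0) ↔
    (∀ c : Fin d, 3 ≤ c.val → res 1 (at' ω (x + z) c) = 0)
  simp only [at_sft]

lemma crd_mvec (z : Pt d) (ω : Om d) (i s : ℕ) (m : Mv) :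
    (crd hd (sft z ω)).mvec i s m = (crd hd ω).mvec i s m := by
  cases m <;> rfl

lemma crd_PN (z : Pt d) (ω : Om d) (i D : ℕ) (x : Pt d) :
    (crd hd (sft z ω)).PN i D x ↔ (crd hd ω).PN i D (x + z) := by
  unfold Crd.PN Crd.Live Crd.Act Crd.S Crd.Q
  simp only [crd_a, crd_z]

lemma crd_TN (z : Pt d) (ω : Om d) (i t : ℕ) (x : Pt d) :
    (crd hd (sft z ω)).TN i t x ↔ (crd hd ω).TN i t (x + z) := by
  unfold Crd.TN Crd.Live Crd.Act Crd.Q
  simp only [crd_a, crd_z]

lemma crd_node (z : Pt d) (ω : Om d) (x : Pt d) (κ : Ty) (v : Pt d) :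
    (crd hd (sft z ω)).Node x κ v ↔ (crd hd ω).Node (x + z) κ v := by
  unfold Crd.Node Crd.S Crd.Q
  simp only [crd_a, crd_z, crd_E, crd_mvec, crd_PN, crd_TN]
  rfl

/-- the initial configuration -/
noncomputable def C0 (ω : Om d) : Cfg d := (crd hd ω).W 0

lemma C0_shift (z : Pt d) (ω : Om d) (x : Pt d) :
    C0 hd (sft z ω) x = C0 hd ω (x + z) := by
  unfold C0
  by_cases h : ∃ κ v, (crd hd ω).Node (x + z) κ v
  · obtain ⟨κ, v, h⟩ := h
    rw [(crd hd ω).W_eq parBH h,
      (crd hd (sft z ω)).W_eq parBH ((crd_node hd z ω x κ v).2 h)]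
  · have h' : ¬ ∃ κ v, (crd hd (sft z ω)).Node x κ v := by
      rintro ⟨κ, v, h1⟩
      exact h ⟨κ, v, (crd_node hd z ω x κ v).1 h1⟩
    unfold Crd.W
    rw [Set.indicator_of_notMem (show x + z ∉ (crd hd ω).V from h),
      Set.indicator_of_notMem (show x ∉ (crd hd (sft z ω)).V from h')]

end

/-! ### measurability -/

lemma measurable_res (k : ℕ) : Measurable (res k) := by
  apply measurable_to_countable'
  intro r
  by_cases h : ∃ t₀, res k t₀ = r
  · obtain ⟨t₀, ht₀⟩ := h
    have h1 : res k ⁻¹' {r} = {t : ℤ_[2] | ‖t - t₀‖ ≤ ((2 : ℕ) : ℝ) ^ (-(k : ℤ))} := by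
      ext t
      simp only [Set.mem_preimage, Set.mem_singleton_iff, Set.mem_ofPred_eq]
      rw [PadicInt.norm_le_pow_iff_mem_span_pow, ← PadicInt.ker_toZModPow, RingHom.mem_ker,
        map_sub, sub_eq_zero, ← ht₀]
      unfold res
      constructor
      · intro h2
        exact ZMod.val_injective _ h2
      · intro h2
        rw [h2]
    rw [h1]
    apply IsClosed.measurableSet
    exact isClosed_le (continuous_norm.comp (continuous_id.sub continuous_const)) continuous_const
  · have h1 : res k ⁻¹' {r} = ∅ := by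
      ext t
      simp only [Set.mem_preimage, Set.mem_singleton_iff, Set.mem_empty_iff_false, iff_false]
      exact fun h2 => h ⟨t, h2⟩
    rw [h1]
    exact MeasurableSet.empty

section

variable {d : ℕ} (hd : 3 ≤ d)

lemma measurable_at (x : Pt d) (c : Fin d) : Measurable fun ω : Om d => at' ω x c := by
  unfold at'
  exact (measurable_pi_apply c).add_const _

lemma measurable_a (n : ℕ) (x : Pt d) : Measurable fun ω : Om d => (crd hd ω).a n x :=
  (measurable_res _).comp (measurable_at x _)

lemma measurable_z (n : ℕ) (x : Pt d) : Measurable fun ω : Om d => (crd hd ω).z n x :=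
  (measurable_res _).comp (measurable_at x _)

lemma measurableSet_E (x : Pt d) : MeasurableSet {ω : Om d | (crd hd ω).E x} := by
  have : {ω : Om d | (crd hd ω).E x} =
      ⋂ c : Fin d, ⋂ _ : 3 ≤ c.val, {ω | res 1 (at' ω x c) = 0} := by
    ext ω
    simp only [Set.mem_ofPred_eq, Set.mem_iInter]
    rfl
  rw [this]
  exact MeasurableSet.iInter fun c => MeasurableSet.iInter fun _ =>
    ((measurable_res 1).comp (measurable_at x c)) (measurableSet_singleton 0)

lemma measurableSet_act (j : ℕ) (x : Pt d) : MeasurableSet {ω : Om d | (crd hd ω).Act j x} :=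
  (measurable_a hd (j + 2) x) (MeasurableSet.of_discrete
    (s := {A : ℕ | 2 * bb j ≤ qq (bb (j + 2)) A ∧ qq (bb (j + 2)) A + 2 * bb j < bb (j + 2)}))

lemma measurableSet_live (i : ℕ) (x : Pt d) :
    MeasurableSet {ω : Om d | (crd hd ω).Live i x} := by
  have : {ω : Om d | (crd hd ω).Live i x} =
      ⋂ j : ℕ, ⋂ _ : i ≤ j, {ω | (crd hd ω).Act j x} := by
    ext ω
    simp only [Set.mem_ofPred_eq, Set.mem_iInter]
    rfl
  rw [this]
  exact MeasurableSet.iInter fun j => MeasurableSet.iInter fun _ => measurableSet_act hd j x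

lemma measurableSet_PN (i D : ℕ) (x : Pt d) :
    MeasurableSet {ω : Om d | (crd hd ω).PN i D x} := by
  have h1 : Measurable fun ω : Om d =>
      ((crd hd ω).a i x, (crd hd ω).a (i + 1) x, (crd hd ω).z (i + 1) x) :=
    (measurable_a hd i x).prodMk ((measurable_a hd (i + 1) x).prodMk (measurable_z hd (i + 1) x))
  have h2 : {ω : Om d | (crd hd ω).PN i D x} = {ω : Om d | (crd hd ω).Live i x} ∩
      (fun ω : Om d => ((crd hd ω).a i x, (crd hd ω).a (i + 1) x, (crd hd ω).z (i + 1) x)) ⁻¹'
        {p : ℕ × ℕ × ℕ | PathPt (bb i) (HH i) (ww bb i) p.1 (sd (bb (i + 1)) p.2.1)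
          (qq (bb (i + 1)) p.2.1) p.2.2 D} := by
    ext ω
    rfl
  rw [h2]
  exact (measurableSet_live hd i x).inter (h1 MeasurableSet.of_discrete)

lemma measurableSet_TN (i t : ℕ) (x : Pt d) :
    MeasurableSet {ω : Om d | (crd hd ω).TN i t x} := by
  have h1 : Measurable fun ω : Om d =>
      ((crd hd ω).a (i + 1) x, (crd hd ω).a (i + 2) x, (crd hd ω).z (i + 1) x) :=
    (measurable_a hd (i + 1) x).prodMk ((measurable_a hd (i + 2) x).prodMk
      (measurable_z hd (i + 1) x))
  have h2 : {ω : Om d | (crd hd ω).TN i t x} = {ω : Om d | (crd hd ω).Live i x} ∩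
      (fun ω : Om d => ((crd hd ω).a (i + 1) x, (crd hd ω).a (i + 2) x,
        (crd hd ω).z (i + 1) x)) ⁻¹'
        {p : ℕ × ℕ × ℕ | p.1 = bb (i + 1) ∧ p.2.2 = 0 ∧
          t + 2 * bb i + qq (bb (i + 2)) p.2.1 = bb (i + 2)} := by
    ext ω
    rfl
  rw [h2]
  exact (measurableSet_live hd i x).inter (h1 MeasurableSet.of_discrete)

open Classical in
/-- a measurable formula for the configuration -/
lemma C0_formula (ω : Om d) (x : Pt d) : C0 hd ω x =
    (∑' i : ℕ, ∑' D : ℕ, Set.indicator {ω : Om d | (crd hd ω).E x ∧ (crd hd ω).PN i D x}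
      (fun _ => ENNReal.ofReal (wt (NN bb) (LL bb HH) (Ty.path i D) 0)) ω) +
    (∑' i : ℕ, ∑' t : ℕ, Set.indicator {ω : Om d | (crd hd ω).E x ∧ (crd hd ω).TN i t x}
      (fun _ => ENNReal.ofReal (wt (NN bb) (LL bb HH) (Ty.trunk i t) 0)) ω) := by
  have P := parBH
  by_cases hE : (crd hd ω).E x
  · by_cases hp : ∃ i D, (crd hd ω).PN i D x
    · obtain ⟨i, D, hp⟩ := hp
      have hnode : (crd hd ω).Node x (Ty.path i D) _ := ⟨hE, Or.inl ⟨i, D, rfl, hp, rfl⟩⟩
      unfold C0
      rw [(crd hd ω).W_eq P hnode]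
      have h2 : ∀ i' t', ¬ (crd hd ω).TN i' t' x := by
        intro i' t' h
        have hn : (crd hd ω).Node x (Ty.trunk i' t') _ := ⟨hE, Or.inr ⟨i', t', rfl, h, rfl⟩⟩
        have := ((crd hd ω).node_unique P hnode hn).1
        simp at this
      have h3 : ∀ i' D', (crd hd ω).PN i' D' x → i' = i ∧ D' = D := by
        intro i' D' h
        have hn : (crd hd ω).Node x (Ty.path i' D') _ := ⟨hE, Or.inl ⟨i', D', rfl, h, rfl⟩⟩
        have := ((crd hd ω).node_unique P hnode hn).1
        simp only [Ty.path.injEq] at this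
        exact ⟨this.1.symm, this.2.symm⟩
      have h4 : (∑' i : ℕ, ∑' t : ℕ,
          Set.indicator {ω : Om d | (crd hd ω).E x ∧ (crd hd ω).TN i t x}
          (fun _ => ENNReal.ofReal (wt (NN bb) (LL bb HH) (Ty.trunk i t) 0)) ω) = 0 := by
        rw [ENNReal.tsum_eq_zero]
        intro i'
        rw [ENNReal.tsum_eq_zero]
        intro t'
        apply Set.indicator_of_notMem
        exact fun h => h2 i' t' h.2
      rw [h4, add_zero, tsum_eq_single i, tsum_eq_single D]
      · rw [Set.indicator_of_mem (show ω ∈ {ω : Om d | (crd hd ω).E x ∧ (crd hd ω).PN i D x} from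
          ⟨hE, hp⟩)]
      · intro D' hD'
        apply Set.indicator_of_notMem
        exact fun h => hD' (h3 i D' h.2).2
      · intro i' hi'
        rw [ENNReal.tsum_eq_zero]
        intro D'
        apply Set.indicator_of_notMem
        exact fun h => hi' (h3 i' D' h.2).1
    · have hp' : ∀ i D, ¬ (crd hd ω).PN i D x := fun i D h => hp ⟨i, D, h⟩
      have h4 : (∑' i : ℕ, ∑' D : ℕ,
          Set.indicator {ω : Om d | (crd hd ω).E x ∧ (crd hd ω).PN i D x}
          (fun _ => ENNReal.ofReal (wt (NN bb) (LL bb HH) (Ty.path i D) 0)) ω) = 0 := by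
        rw [ENNReal.tsum_eq_zero]
        intro i'
        rw [ENNReal.tsum_eq_zero]
        intro D'
        apply Set.indicator_of_notMem
        exact fun h => hp' i' D' h.2
      rw [h4, zero_add]
      by_cases ht : ∃ i t, (crd hd ω).TN i t x
      · obtain ⟨i, t, ht⟩ := ht
        have hnode : (crd hd ω).Node x (Ty.trunk i t) _ := ⟨hE, Or.inr ⟨i, t, rfl, ht, rfl⟩⟩
        unfold C0
        rw [(crd hd ω).W_eq P hnode]
        have h3 : ∀ i' t', (crd hd ω).TN i' t' x → i' = i ∧ t' = t := by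
          intro i' t' h
          have hn : (crd hd ω).Node x (Ty.trunk i' t') _ := ⟨hE, Or.inr ⟨i', t', rfl, h, rfl⟩⟩
          have := ((crd hd ω).node_unique P hnode hn).1
          simp only [Ty.trunk.injEq] at this
          exact ⟨this.1.symm, this.2.symm⟩
        rw [tsum_eq_single i, tsum_eq_single t]
        · rw [Set.indicator_of_mem
            (show ω ∈ {ω : Om d | (crd hd ω).E x ∧ (crd hd ω).TN i t x} from ⟨hE, ht⟩)]
        · intro t' ht'
          apply Set.indicator_of_notMem
          exact fun h => ht' (h3 i t' h.2).2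
        · intro i' hi'
          rw [ENNReal.tsum_eq_zero]
          intro D'
          apply Set.indicator_of_notMem
          exact fun h => hi' (h3 i' D' h.2).1
      · have h5 : x ∉ (crd hd ω).V := by
          rintro ⟨κ, v, _, ⟨i, D, _, h, _⟩ | ⟨i, t, _, h, _⟩⟩
          · exact hp' i D h
          · exact ht ⟨i, t, h⟩
        unfold C0 Crd.W
        rw [Set.indicator_of_notMem h5]
        symm
        rw [ENNReal.tsum_eq_zero]
        intro i'
        rw [ENNReal.tsum_eq_zero]
        intro t'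
        apply Set.indicator_of_notMem
        exact fun h => ht ⟨i', t', h.2⟩
  · have h5 : x ∉ (crd hd ω).V := fun ⟨κ, v, h, _⟩ => hE h
    unfold C0 Crd.W
    rw [Set.indicator_of_notMem h5]
    symm
    rw [add_eq_zero]
    constructor
    · rw [ENNReal.tsum_eq_zero]
      intro i'
      rw [ENNReal.tsum_eq_zero]
      intro t'
      apply Set.indicator_of_notMem
      exact fun h => hE h.1
    · rw [ENNReal.tsum_eq_zero]
      intro i'
      rw [ENNReal.tsum_eq_zero]
      intro t'
      apply Set.indicator_of_notMem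
      exact fun h => hE h.1

theorem measurable_C0 : Measurable (C0 hd) := by
  rw [measurable_pi_iff]
  intro x
  have h1 : (fun ω : Om d => C0 hd ω x) = fun ω =>
    (∑' i : ℕ, ∑' D : ℕ, Set.indicator {ω : Om d | (crd hd ω).E x ∧ (crd hd ω).PN i D x}
      (fun _ => ENNReal.ofReal (wt (NN bb) (LL bb HH) (Ty.path i D) 0)) ω) +
    (∑' i : ℕ, ∑' t : ℕ, Set.indicator {ω : Om d | (crd hd ω).E x ∧ (crd hd ω).TN i t x}
      (fun _ => ENNReal.ofReal (wt (NN bb) (LL bb HH) (Ty.trunk i t) 0)) ω) :=
    funext fun ω => C0_formula hd ω x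
  rw [h1]
  refine Measurable.add ?_ ?_
  · refine Measurable.tsum fun i => Measurable.tsum fun D => ?_
    exact measurable_const.indicator ((measurableSet_E hd x).inter (measurableSet_PN hd i D x))
  · refine Measurable.tsum fun i => Measurable.tsum fun D => ?_
    exact measurable_const.indicator ((measurableSet_E hd x).inter (measurableSet_TN hd i D x))

theorem C0_invariant (z : Pt d) :
    (mu d).map (fun ω x => C0 hd ω (x + z)) = (mu d).map (C0 hd) := by
  have h1 : (fun (ω : Om d) (x : Pt d) => C0 hd ω (x + z)) = C0 hd ∘ sft z := by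
    funext ω x
    exact (C0_shift hd z ω x).symm
  rw [h1, ← Measure.map_map (measurable_C0 hd) (sft_mp z).measurable, (sft_mp z).map_eq]

/-- the law of the coordinates -/
theorem law (n : ℕ) (x : Pt d) (k : ℕ) (hk : k < 2 * bb n) :
    mu d {ω | (crd hd ω).a n x = k} = (2 * (bb n : ℝ≥0∞))⁻¹ := by
  set S : ℕ → Set (Om d) := fun k => {ω | (crd hd ω).a n x = k} with hS
  have hmeas : ∀ k, MeasurableSet (S k) := fun k =>
    (measurable_a hd n x) (measurableSet_singleton k)
  have hstep : ∀ k, k + 1 < 2 * bb n → mu d (S (k + 1)) = mu d (S k) := by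
    intro k hk
    have h1 : sft (uv ((crd hd (0 : Om d)).ax n)) ⁻¹' (S (k + 1)) = S k := by
      ext ω
      simp only [hS, Set.mem_preimage, Set.mem_ofPred_eq]
      rw [crd_a]
      have h2 := (crd hd ω).a_step n x
      have h3 : (crd hd ω).ax n = (crd hd (0 : Om d)).ax n := rfl
      rw [← h3, h2]
      have h4 := (crd hd ω).a_lt n x
      rcases Nat.lt_or_ge ((crd hd ω).a n x + 1) (2 * bb n) with h5 | h5
      · rw [Nat.mod_eq_of_lt h5]
        omega
      · have h6 : (crd hd ω).a n x + 1 = 2 * bb n := by omega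
        rw [h6, Nat.mod_self]
        omega
    rw [← (sft_mp (uv ((crd hd (0 : Om d)).ax n))).measure_preimage (hmeas _).nullMeasurableSet,
      h1]
  have hall : ∀ k, k < 2 * bb n → mu d (S k) = mu d (S 0) := by
    intro k
    induction k with
    | zero => intro _; rfl
    | succ k ih => intro hk; rw [hstep k hk, ih (by omega)]
  have hsum : ∑ k ∈ Finset.range (2 * bb n), mu d (S k) = 1 := by
    rw [← measure_biUnion_finset]
    · have : (⋃ k ∈ Finset.range (2 * bb n), S k) = Set.univ := by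
        ext ω
        simp only [Set.mem_iUnion, Finset.mem_range, exists_prop, Set.mem_univ, iff_true]
        exact ⟨_, (crd hd ω).a_lt n x, rfl⟩
      rw [this, measure_univ]
    · intro k _ l _ hkl
      rw [Function.onFun, Set.disjoint_left]
      intro ω h1 h2
      exact hkl (h1.symm.trans h2)
    · exact fun k _ => hmeas k
  rw [Finset.sum_congr rfl (fun k hk => hall k (Finset.mem_range.1 hk)), Finset.sum_const,
    Finset.card_range, nsmul_eq_mul] at hsum
  show mu d (S k) = _
  rw [hall k hk]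
  push_cast at hsum
  exact ENNReal.eq_inv_of_mul_eq_one_left (by rw [mul_comm]; exact hsum)

theorem law_le (n : ℕ) (x : Pt d) (T : Finset ℕ) (p : ℕ → Prop)
    (hT : ∀ A, A < 2 * bb n → p A → A ∈ T) :
    mu d {ω | p ((crd hd ω).a n x)} ≤ T.card * (2 * (bb n : ℝ≥0∞))⁻¹ := by
  have h1 : {ω | p ((crd hd ω).a n x)} ⊆
      ⋃ k ∈ T.filter (fun k => k < 2 * bb n), {ω | (crd hd ω).a n x = k} := by
    intro ω h
    simp only [Set.mem_iUnion, exists_prop, Finset.mem_filter]
    have h2 := (crd hd ω).a_lt n x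
    exact ⟨_, ⟨hT _ h2 h, h2⟩, rfl⟩
  refine (measure_mono h1).trans ((measure_biUnion_finset_le _ _).trans ?_)
  rw [Finset.sum_congr rfl (fun k hk => law hd n x k (Finset.mem_filter.1 hk).2),
    Finset.sum_const, nsmul_eq_mul]
  gcongr
  exact Finset.filter_subset _ _

end

end Pool.Agent.H71.Esc
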