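import Mathlib

/-!
# The clustering process on `ℤ ^ d` (MP_37d2f2_pr)
-/

set_option autoImplicit false

open scoped ENNReal

namespace Pool.Agent.H71.Esc

/-- The vertices of the lattice. -/
abbrev Pt (d : ℕ) : Type := Fin d → ℤ

/-- Configurations of resources: every vertex holds an amount in `[0, ∞]`. -/
abbrev Cfg (d : ℕ) : Type := Pt d → ℝ≥0∞

/-- `N(x)`: the vertices at `ℓ¹`-distance at most `1` from `x`. -/
noncomputable def nbhd {d : ℕ} (x : Pt d) : Finset (Pt d) :=
  (Finset.Icc (x - 1) (x + 1)).filter (fun y => ∑ i, |x i - y i| ≤ 1)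

open Classical in
/-- `M(x)`: the vertices of `N(x)` which hold the most resource. -/
noncomputable def best {d : ℕ} (C : Cfg d) (x : Pt d) : Finset (Pt d) :=
  (nbhd x).filter (fun y => ∀ z ∈ nbhd x, C z ≤ C y)

theorem mem_nbhd {d : ℕ} (x y : Pt d) : y ∈ nbhd x ↔ ∑ i, |x i - y i| ≤ 1 := by
  unfold nbhd
  rw [Finset.mem_filter, Finset.mem_Icc]
  constructor
  · exact fun h => h.2
  · intro h
    have h1 : ∀ i, |x i - y i| ≤ 1 := fun i =>
      (Finset.single_le_sum (fun j _ => abs_nonneg (x j - y j)) (Finset.mem_univ i)).trans h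
    refine ⟨⟨fun i => ?_, fun i => ?_⟩, h⟩
    · have := (abs_le.1 (h1 i)).2
      simp only [Pi.sub_apply, Pi.one_apply]
      linarith
    · have := (abs_le.1 (h1 i)).1
      simp only [Pi.add_apply, Pi.one_apply]
      linarith

theorem self_mem_nbhd {d : ℕ} (x : Pt d) : x ∈ nbhd x := by
  rw [mem_nbhd]
  simp

theorem best_nonempty {d : ℕ} (C : Cfg d) (x : Pt d) : (best C x).Nonempty := by
  classical
  obtain ⟨y, hy, h⟩ := Finset.exists_max_image (nbhd x) C ⟨x, self_mem_nbhd x⟩
  exact ⟨y, Finset.mem_filter.2 ⟨hy, h⟩⟩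

/-- The tie-breaking device: for every time `n`, every vertex `x` and every nonempty finite set `M`
of vertices, an element of `M`. -/
abbrev Ties (d : ℕ) : Type :=
  ∀ q : ℕ × Pt d × {M : Finset (Pt d) // M.Nonempty}, {y : Pt d // y ∈ q.2.2.1}

/-- The law of the tie-breaking device: the elements are independent, and uniformly distributed
on the sets `M`. -/
noncomputable def tieLaw (d : ℕ) : MeasureTheory.Measure (Ties d) :=
  MeasureTheory.Measure.infinitePi fun q =>
    haveI : Nonempty {y : Pt d // y ∈ q.2.2.1} := q.2.2.2.to_subtype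
    (PMF.uniformOfFintype {y : Pt d // y ∈ q.2.2.1}).toMeasure

open Classical in
/-- One step of the process: `y` sends its resource to itself if it has none and to `v y`
otherwise; the resources which arrive at the same vertex are added. -/
noncomputable def step {d : ℕ} (C : Cfg d) (v : Pt d → Pt d) : Cfg d :=
  fun x => ∑' y, if (if C y = 0 then y else v y) = x then C y else 0

/-- The process `(C_n)` with initial configuration `C₀`: at time `n` the vertex `x` chooses the
element `ξ (n, x, M_n(x))` of `M_n(x)`. -/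
noncomputable def proc {d : ℕ} (C₀ : Cfg d) (ξ : Ties d) : ℕ → Cfg d
  | 0 => C₀
  | n + 1 => step (proc C₀ ξ n)
      (fun x => (ξ (n, x, ⟨best (proc C₀ ξ n) x, best_nonempty (proc C₀ ξ n) x⟩)).1)

end Pool.Agent.H71.Esc
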