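import Pool.Agent.H71.Esc.Geo

/-!
# Coordinates from `2`-adic integers
-/

set_option autoImplicit false

open MeasureTheory TopologicalSpace

namespace Pool.Agent.H71.Esc

/-- exponents -/
def ee (n : ℕ) : ℕ := 4 ^ (n + 1)

/-- side lengths -/
def bb (n : ℕ) : ℕ := 2 ^ ee n

/-- exponents of the heights -/
def eta : ℕ → ℕ
  | 0 => 3
  | n + 1 => ee n + eta n

/-- heights -/
def HH (n : ℕ) : ℕ := 2 ^ eta n

lemma ee_succ (n : ℕ) : ee (n + 1) = 4 * ee n := by
  unfold ee
  rw [pow_succ 4 (n + 1), mul_comm]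

lemma ee_ge (n : ℕ) : 4 ≤ ee n := by
  unfold ee
  calc 4 = 4 ^ 1 := by norm_num
    _ ≤ 4 ^ (n + 1) := Nat.pow_le_pow_right (by norm_num) (by omega)

lemma eta_ge (n : ℕ) : 3 ≤ eta n := by
  induction n with
  | zero => exact le_rfl
  | succ n ih =>
    show 3 ≤ ee n + eta n
    omega

theorem parBH : Par bb HH := by
  refine ⟨fun n => ?_, fun n => ?_, fun n => ?_, fun n => ?_, fun n => ?_, fun n => ?_,
    fun n => ?_⟩
  · unfold bb
    calc 16 = 2 ^ 4 := by norm_num
      _ ≤ 2 ^ ee n := Nat.pow_le_pow_right (by norm_num) (ee_ge n)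
  · unfold bb
    have h1 := ee_ge n
    rw [show ee n = ee n - 1 + 1 by omega, pow_succ]
    omega
  · unfold bb
    rw [← pow_succ']
    apply pow_dvd_pow
    have h1 := ee_ge n
    have h2 := ee_succ n
    have h3 := ee_succ (n + 1)
    have h4 : ee (n + 1 + 1) = ee (n + 2) := rfl
    omega
  · unfold bb
    rw [show 8 = 2 ^ 3 by norm_num, ← pow_add]
    apply Nat.pow_le_pow_right (by norm_num)
    have h1 := ee_ge n
    have h2 := ee_succ n
    omega
  · unfold HH
    calc 8 = 2 ^ 3 := by norm_num
      _ ≤ 2 ^ eta n := Nat.pow_le_pow_right (by norm_num) (eta_ge n)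
  · unfold HH
    have h1 := eta_ge n
    rw [show eta n = eta n - 1 + 1 by omega, pow_succ]
    omega
  · unfold HH bb
    rw [← pow_add]
    rfl

/-- the residue modulo `2 ^ k` -/
noncomputable def res (k : ℕ) (t : ℤ_[2]) : ℕ := (PadicInt.toZModPow k t).val

lemma res_lt (k : ℕ) (t : ℤ_[2]) : res k t < 2 ^ k := ZMod.val_lt _

lemma res_mod {k m : ℕ} (h : k ≤ m) (t : ℤ_[2]) : res m t % 2 ^ k = res k t := by
  unfold res
  rw [← PadicInt.cast_toZModPow k m h t, ZMod.cast_eq_val, ZMod.val_natCast]

lemma res_add_one (k : ℕ) (t : ℤ_[2]) : res k (t + 1) = (res k t + 1) % 2 ^ k := by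
  unfold res
  rw [map_add, map_one, ZMod.val_add, ZMod.val_one_eq_one_mod, Nat.add_mod_mod]

/-- the points of the probability space -/
abbrev Om (d : ℕ) : Type := Fin d → ℤ_[2]

/-- the coordinate `c` of `ω` seen from `x` -/
noncomputable def at' {d : ℕ} (ω : Om d) (x : Pt d) (c : Fin d) : ℤ_[2] := ω c + (x c : ℤ_[2])

lemma at_add {d : ℕ} (ω : Om d) (x : Pt d) (c : Fin d) :
    at' ω (x + uv c) c = at' ω x c + 1 := by
  unfold at' uv
  rw [Pi.add_apply, Pi.single_eq_same]
  push_cast
  ring

lemma at_add' {d : ℕ} (ω : Om d) (x : Pt d) (c c' : Fin d) (h : c ≠ c') :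
    at' ω (x + uv c) c' = at' ω x c' := by
  unfold at' uv
  rw [Pi.add_apply, Pi.single_eq_of_ne h.symm]
  push_cast
  ring

/-- the axis of level `n` -/
def axf {d : ℕ} (hd : 3 ≤ d) (n : ℕ) : Fin d :=
  if n % 2 = 0 then ⟨0, by omega⟩ else ⟨1, by omega⟩

/-- the coordinates -/
noncomputable def crd {d : ℕ} (hd : 3 ≤ d) (ω : Om d) : Crd d bb HH where
  a n x := res (ee n + 1) (at' ω x (axf hd n))
  z n x := res (eta n) (at' ω x ⟨2, by omega⟩)
  E x := ∀ c : Fin d, 3 ≤ c.val → res 1 (at' ω x c) = 0
  ax := axf hd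
  az := ⟨2, by omega⟩
  ax_ne n := by
    unfold axf
    split_ifs with h1 h2 h2
    · omega
    · intro h
      have := congrArg Fin.val h
      simp at this
    · intro h
      have := congrArg Fin.val h
      simp at this
    · omega
  ax_two n := by
    unfold axf
    rw [show (n + 2) % 2 = n % 2 by omega]
  az_ne n := by
    unfold axf
    split_ifs with h1
    · intro h
      have := congrArg Fin.val h
      simp at this
    · intro h
      have := congrArg Fin.val h
      simp at this
  a_lt n x := by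
    have := res_lt (ee n + 1) (at' ω x (axf hd n))
    unfold bb
    rw [← pow_succ']
    exact this
  a_mod n x := by
    have h0 : axf hd (n + 2) = axf hd n := by
      unfold axf
      rw [show (n + 2) % 2 = n % 2 by omega]
    rw [h0]
    unfold bb
    rw [← pow_succ']
    apply res_mod
    have h1 := ee_ge n
    have h2 := ee_succ n
    have h3 := ee_succ (n + 1)
    have h4 : ee (n + 1 + 1) = ee (n + 2) := rfl
    omega
  a_step n x := by
    rw [at_add, res_add_one]
    unfold bb
    rw [← pow_succ']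
  a_const n x c hc := by
    rw [at_add' _ _ _ _ hc]
  z_lt n x := res_lt _ _
  z_mod n x := by
    unfold HH
    apply res_mod
    show eta n ≤ ee n + eta n
    omega
  z_step n x := by
    rw [at_add, res_add_one]
    rfl
  z_const n x c hc := by
    rw [at_add' _ _ _ _ hc]
  E_const x c hc := by
    have hc3 : c.val < 3 := by
      rcases hc with rfl | ⟨n, rfl⟩
      · exact (by norm_num : 2 < 3)
      · unfold axf
        split_ifs
        · exact (by norm_num : 0 < 3)
        · exact (by norm_num : 1 < 3)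
    have : ∀ c' : Fin d, 3 ≤ c'.val → at' ω (x + uv c) c' = at' ω x c' := by
      intro c' hc'
      apply at_add'
      intro h
      rw [h] at hc3
      omega
    constructor
    · intro h c' hc'
      rw [← this c' hc']
      exact h c' hc'
    · intro h c' hc'
      rw [this c' hc']
      exact h c' hc'
  E_step x c h1 h2 h3 h4 := by
    have hc3 : 3 ≤ c.val := by
      by_contra h5
      have h6 : c.val = 0 ∨ c.val = 1 ∨ c.val = 2 := by omega
      rcases h6 with h6 | h6 | h6
      · exact h2 0 (Fin.ext (by rw [h6]; rfl))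
      · exact h2 1 (Fin.ext (by rw [h6]; rfl))
      · exact h1 (Fin.ext h6)
    have e1 := h3 c hc3
    have e2 := h4 c hc3
    rw [at_add, res_add_one, e1] at e2
    norm_num at e2

end Pool.Agent.H71.Esc
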